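import Mathlib

set_option autoImplicit false

open MeasureTheory Filter Topology Set
open scoped ContDiff RealInnerProductSpace

namespace Pool.Agent.LebSup

/-- Euclidean space `ℝⁿ`. -/
abbrev E (n : ℕ) : Type := EuclideanSpace ℝ (Fin n)

/-- The measure `dμ = w dx` of a weight `w`. -/
noncomputable def wmeas {n : ℕ} (w : E n → ℝ) : Measure (E n) :=
  volume.withDensity (fun x => ENNReal.ofReal (w x))

/-- `φ ∈ C₀^∞(D)`: smooth on `ℝⁿ`, with compact support contained in `D`. -/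
def IsTest {n : ℕ} (D : Set (E n)) (φ : E n → ℝ) : Prop :=
  ContDiff ℝ ∞ φ ∧ HasCompactSupport φ ∧ tsupport φ ⊆ D

/-- The weight `w` is `p`-admissible, with exponent `κ > 1` in the Sobolev inequality (III). -/
structure PAdmissible {n : ℕ} (w : E n → ℝ) (p κ : ℝ) : Prop where
  measurable : Measurable w
  nonneg : ∀ x, 0 ≤ w x
  /-- (I), first half: `0 < w < ∞` almost everywhere. -/
  pos : ∀ᵐ x, 0 < w x
  /-- balls have finite measure -/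
  finite_ball : ∀ (x : E n) (r : ℝ), wmeas w (Metric.ball x r) < ⊤
  /-- (I), second half: `μ` is doubling. -/
  doubling : ∃ C : ℝ, ∀ (x : E n) (r : ℝ), 0 < r →
    wmeas w (Metric.ball x (2 * r)) ≤ ENNReal.ofReal C * wmeas w (Metric.ball x r)
  /-- (II): uniqueness of the gradient. -/
  closable : ∀ (D : Set (E n)), IsOpen D → ∀ (φ : ℕ → E n → ℝ) (v : E n → E n),
    (∀ i, IsTest D (φ i)) → MemLp v (ENNReal.ofReal p) ((wmeas w).restrict D) →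
    Tendsto (fun i => ∫⁻ x in D, ‖φ i x‖ₑ ^ p ∂(wmeas w)) atTop (𝓝 0) →
    Tendsto (fun i => ∫⁻ x in D, ‖gradient (φ i) x - v x‖ₑ ^ p ∂(wmeas w)) atTop (𝓝 0) →
    v =ᵐ[(wmeas w).restrict D] 0
  one_lt_kappa : 1 < κ
  /-- (III): the Sobolev inequality on balls. -/
  sobolev : ∃ C : ℝ, ∀ (x : E n) (r : ℝ), 0 < r → ∀ φ : E n → ℝ, IsTest (Metric.ball x r) φ →
    (⨍⁻ y in Metric.ball x r, ‖φ y‖ₑ ^ (κ * p) ∂(wmeas w)) ^ (1 / (κ * p)) ≤
      ENNReal.ofReal (C * r) *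
        (⨍⁻ y in Metric.ball x r, ‖gradient φ y‖ₑ ^ p ∂(wmeas w)) ^ (1 / p)
  /-- (IV): the `(p,p)`-Poincare inequality on balls, for bounded smooth functions. -/
  poincare : ∃ C : ℝ, ∀ (x : E n) (r : ℝ), 0 < r → ∀ φ : E n → ℝ,
    ContDiffOn ℝ ∞ φ (Metric.ball x r) → (∃ M : ℝ, ∀ y ∈ Metric.ball x r, |φ y| ≤ M) →
    ∫⁻ y in Metric.ball x r, ‖φ y - ⨍ z in Metric.ball x r, φ z ∂(wmeas w)‖ₑ ^ p ∂(wmeas w) ≤
      ENNReal.ofReal (C * r ^ p) * ∫⁻ y in Metric.ball x r, ‖gradient φ y‖ₑ ^ p ∂(wmeas w)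

/-- The structure conditions on `𝒜 : ℝⁿ × ℝⁿ → ℝⁿ` (the inequalities for almost every `x`). -/
structure IsOperator {n : ℕ} (w : E n → ℝ) (p : ℝ) (A : E n → E n → E n) : Prop where
  measurable : ∀ h, Measurable (fun x => A x h)
  continuous : ∀ x, Continuous (A x)
  bounds : ∃ α β : ℝ, 0 < α ∧ α ≤ β ∧ ∀ᵐ x, ∀ h,
    α * w x * ‖h‖ ^ p ≤ ⟪A x h, h⟫ ∧ ‖A x h‖ ≤ β * w x * ‖h‖ ^ (p - 1)
  strictMono : ∀ᵐ x, ∀ h₁ h₂ : E n, h₁ ≠ h₂ → 0 < ⟪A x h₁ - A x h₂, h₁ - h₂⟫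
  homogeneous : ∀ᵐ x, ∀ (h : E n) (t : ℝ), A x (t • h) = (t * |t| ^ (p - 2)) • A x h

/-- `u ∈ H^{1,p}(D; μ)` with gradient `v`: both are in `L^p(D; μ)` and they are the limits in
`L^p(D; μ)` of functions `φ i ∈ C^∞(D)` and of their gradients. -/
def IsSobolev {n : ℕ} (w : E n → ℝ) (p : ℝ) (D : Set (E n)) (u : E n → ℝ) (v : E n → E n) :
    Prop :=
  MemLp u (ENNReal.ofReal p) ((wmeas w).restrict D) ∧
  MemLp v (ENNReal.ofReal p) ((wmeas w).restrict D) ∧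
  ∃ φ : ℕ → E n → ℝ, (∀ i, ContDiffOn ℝ ∞ (φ i) D) ∧
    Tendsto (fun i => ∫⁻ x in D, ‖φ i x - u x‖ₑ ^ p ∂(wmeas w)) atTop (𝓝 0) ∧
    Tendsto (fun i => ∫⁻ x in D, ‖gradient (φ i) x - v x‖ₑ ^ p ∂(wmeas w)) atTop (𝓝 0)

/-- `u` is a supersolution of `-div 𝒜(x, ∇u) = 0` in `Ω`: `u ∈ H^{1,p}_loc(Ω; μ)`, with gradient
`v`, and `∫_Ω 𝒜(x, v)·∇φ dx ≥ 0` for all nonnegative `φ ∈ C₀^∞(Ω)`. -/
def IsSupersolution {n : ℕ} (w : E n → ℝ) (p : ℝ) (A : E n → E n → E n) (Ω : Set (E n))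
    (u : E n → ℝ) : Prop :=
  ∃ v : E n → E n,
    (∀ D : Set (E n), IsOpen D → IsCompact (closure D) → closure D ⊆ Ω →
      IsSobolev w p D u v) ∧
    ∀ φ : E n → ℝ, IsTest Ω φ → (∀ x, 0 ≤ φ x) →
      IntegrableOn (fun x => ⟪A x (v x), gradient φ x⟫) Ω ∧
      0 ≤ ∫ x in Ω, ⟪A x (v x), gradient φ x⟫

/-- The essential lower limit of `u` at `x`: the supremum over `r > 0` of the essential infimum of
`u` over the ball `B(x, r)` (that infimum decreases in `r`). -/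
noncomputable def essLowerLim {n : ℕ} (w : E n → ℝ) (u : E n → ℝ) (x : E n) : EReal :=
  ⨆ r : Set.Ioi (0 : ℝ), essInf (fun y => ((u y : ℝ) : EReal))
    ((wmeas w).restrict (Metric.ball x r))

/-- There is a lower semicontinuous `v = u` a.e. in `Ω` which at every point of `Ω` is both the
essential lower limit of `u` and the limit of the averages of `u` over balls. -/
def HasLebesgueRepresentative {n : ℕ} (w : E n → ℝ) (Ω : Set (E n)) (u : E n → ℝ) : Prop :=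
  ∃ v : E n → EReal, LowerSemicontinuousOn v Ω ∧
    (∀ᵐ x ∂((wmeas w).restrict Ω), v x = ((u x : ℝ) : EReal)) ∧
    ∀ x ∈ Ω, v x = essLowerLim w u x ∧
      Tendsto (fun r : ℝ => ((⨍ y in Metric.ball x r, u y ∂(wmeas w) : ℝ) : EReal))
        (𝓝[>] 0) (𝓝 (v x))

end Pool.Agent.LebSup
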