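import Mathlib

set_option autoImplicit false

open MeasureTheory Filter Topology Set Module
open scoped ContDiff RealInnerProductSpace ENNReal

namespace Pool.Agent.LebSup

variable {V : Type*} [NormedAddCommGroup V] [InnerProductSpace ℝ V] [FiniteDimensional ℝ V]
  [MeasurableSpace V] [BorelSpace V]

/-- Affine change of variables. -/
theorem lintegral_comp_affine (F : V → ℝ≥0∞) (hF : Measurable F) (a : V) {t : ℝ} (ht : 0 < t) :
    ∫⁻ z, F (a + t • z) = ENNReal.ofReal (t⁻¹ ^ (finrank ℝ V)) * ∫⁻ z, F z := by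
  have h1 : ∫⁻ z, F (a + t • z) = ∫⁻ z, F (a + z) ∂(Measure.map (t • ·) volume) := by
    rw [lintegral_map (by fun_prop) (by fun_prop)]
  rw [h1, Measure.map_addHaar_smul _ ht.ne', lintegral_smul_measure,
    lintegral_add_left_eq_self (fun z => F z) a]
  rw [abs_of_nonneg (by positivity), smul_eq_mul, inv_pow]

/-- Jensen's inequality for a probability measure, with `‖·‖ₑ`. -/
theorem jensen_lintegral {α : Type*} [MeasurableSpace α] (ν : Measure α) [IsProbabilityMeasure ν]
    {p : ℝ} (hp : 1 ≤ p) (f : α → ℝ≥0∞) (hf : AEMeasurable f ν) :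
    (∫⁻ a, f a ∂ν) ^ p ≤ ∫⁻ a, f a ^ p ∂ν := by
  have h := eLpNorm_le_eLpNorm_of_exponent_le (μ := ν) (p := 1) (q := ENNReal.ofReal p)
    (f := f) (by rw [← ENNReal.ofReal_one]; exact ENNReal.ofReal_le_ofReal hp)
    hf.aestronglyMeasurable
  have hp0 : 0 < p := by linarith
  rw [eLpNorm_one_eq_lintegral_enorm, eLpNorm_eq_lintegral_rpow_enorm_toReal (by simpa using hp0)
    ENNReal.ofReal_ne_top, ENNReal.toReal_ofReal hp0.le] at h
  simp only [enorm_eq_self] at h
  calc (∫⁻ a, f a ∂ν) ^ p ≤ ((∫⁻ a, f a ^ p ∂ν) ^ (1 / p)) ^ p := ENNReal.rpow_le_rpow h hp0.le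
    _ = _ := by rw [← ENNReal.rpow_mul, one_div, inv_mul_cancel₀ hp0.ne', ENNReal.rpow_one]

theorem poincare_ball {p : ℝ} (hp : 1 ≤ p) (x : V) {r : ℝ} (hr : 0 < r) (φ : V → ℝ)
    (hφ : ContDiffOn ℝ ∞ φ (Metric.ball x r)) {M : ℝ} (hM : ∀ y ∈ Metric.ball x r, |φ y| ≤ M) :
    ∫⁻ y in Metric.ball x r, ‖φ y - ⨍ z in Metric.ball x r, φ z‖ₑ ^ p ≤
      ENNReal.ofReal (2 ^ (finrank ℝ V) * (2 * r) ^ p) *
        ∫⁻ y in Metric.ball x r, ‖gradient φ y‖ₑ ^ p := by
  have hp0 : 0 < p := by linarith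
  set B : Set V := Metric.ball x r with hB
  have hBo : IsOpen B := Metric.isOpen_ball
  have hBm : MeasurableSet B := measurableSet_ball
  have hBpos : 0 < volume B := Metric.measure_ball_pos _ _ hr
  have hBfin : volume B < ⊤ := measure_ball_lt_top
  have hBconv : Convex ℝ B := convex_ball _ _
  have hcont : ContinuousOn φ B := hφ.continuousOn
  have hφm : AEStronglyMeasurable φ (volume.restrict B) := hcont.aestronglyMeasurable hBm
  have hint : IntegrableOn φ B := by
    have : IsFiniteMeasure (volume.restrict B) := ⟨by simpa using hBfin⟩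
    refine Integrable.of_bound hφm M ?_
    filter_upwards [ae_restrict_mem hBm] with y hy
    simpa using hM y hy
  -- the normalised measure on the ball
  set ν : Measure V := (volume B)⁻¹ • volume.restrict B with hν
  have : IsProbabilityMeasure ν := by
    constructor
    rw [hν, Measure.smul_apply, Measure.restrict_apply_univ, smul_eq_mul,
      ENNReal.inv_mul_cancel hBpos.ne' hBfin.ne]
  -- measurable extension of the gradient
  set g : V → ℝ≥0∞ := fun y => ‖gradient φ y‖ₑ with hg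
  have hgm : Measurable g := by
    have h1 : g = fun y => ‖fderiv ℝ φ y‖ₑ := by
      funext y
      simp [hg, gradient]
    rw [h1]
    exact (measurable_fderiv ℝ φ).enorm
  set F : V → ℝ≥0∞ := B.indicator (fun y => g y ^ p) with hF
  have hFm : Measurable F := (hgm.pow_const p).indicator hBm
  -- Step A
  have stepA : ∀ y ∈ B, ‖φ y - ⨍ z in B, φ z‖ₑ ^ p ≤ ∫⁻ z, ‖φ y - φ z‖ₑ ^ p ∂ν := by
    intro y hy
    have e1 : φ y - ⨍ z in B, φ z = ∫ z, (φ y - φ z) ∂ν := by
      have hi : Integrable φ ν := by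
        rw [hν]
        exact hint.smul_measure (ENNReal.inv_ne_top.2 hBpos.ne')
      rw [integral_sub (integrable_const _) hi, integral_const]
      have : (⨍ z in B, φ z) = ∫ z, φ z ∂ν := by
        rw [average_eq', Measure.restrict_apply_univ]
      rw [this]
      simp
    rw [e1]
    calc ‖∫ z, (φ y - φ z) ∂ν‖ₑ ^ p ≤ (∫⁻ z, ‖φ y - φ z‖ₑ ∂ν) ^ p :=
          ENNReal.rpow_le_rpow (enorm_integral_le_lintegral_enorm _) hp0.le
      _ ≤ ∫⁻ z, ‖φ y - φ z‖ₑ ^ p ∂ν := by
          refine jensen_lintegral ν hp _ ?_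
          refine AEMeasurable.enorm ?_
          refine (aemeasurable_const).sub ?_
          rw [hν]
          exact (hφm.aemeasurable).mono_ac (Measure.smul_absolutelyContinuous)
  -- Step B
  have stepB : ∀ y ∈ B, ∀ z ∈ B, ‖φ y - φ z‖ₑ ^ p ≤
      ENNReal.ofReal ((2 * r) ^ p) * ∫⁻ t in Ioo (0 : ℝ) 1, F ((1 - t) • y + t • z) := by
    intro y hy z hz
    have hseg : ∀ t ∈ Icc (0 : ℝ) 1, (1 - t) • y + t • z ∈ B := fun t ht =>
      hBconv hy hz (by linarith [ht.2]) ht.1 (by ring)
    have hder : ∀ t ∈ Icc (0 : ℝ) 1, HasDerivAt (fun t : ℝ => φ ((1 - t) • y + t • z))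
        (fderiv ℝ φ ((1 - t) • y + t • z) (z - y)) t := by
      intro t ht
      have h1 : DifferentiableAt ℝ φ ((1 - t) • y + t • z) :=
        (hφ.contDiffAt (hBo.mem_nhds (hseg t ht))).differentiableAt (by simp)
      have h2 : HasDerivAt (fun t : ℝ => (1 - t) • y + t • z) (z - y) t := by
        have h3 : HasDerivAt (fun t : ℝ => (1 - t) • y) ((-1 : ℝ) • y) t := by
          simpa using ((hasDerivAt_id t).const_sub 1).smul_const y
        have h4 : HasDerivAt (fun t : ℝ => t • z) ((1 : ℝ) • z) t :=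
          (hasDerivAt_id t).smul_const z
        have h5 := h3.add h4
        have h6 : (-1 : ℝ) • y + (1 : ℝ) • z = z - y := by
          rw [neg_one_smul, one_smul]; abel
        rw [h6] at h5
        exact h5
      exact h1.hasFDerivAt.comp_hasDerivAt t h2
    have hcd : ContinuousOn (fun t : ℝ => fderiv ℝ φ ((1 - t) • y + t • z) (z - y))
        (Icc (0 : ℝ) 1) := by
      have h1 : ContinuousOn (fderiv ℝ φ) B :=
        hφ.continuousOn_fderiv_of_isOpen hBo (by simp)
      have h2 : ContinuousOn (fun t : ℝ => fderiv ℝ φ ((1 - t) • y + t • z)) (Icc (0 : ℝ) 1) :=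
        h1.comp (by fun_prop) hseg
      exact h2.clm_apply continuousOn_const
    have hftc : ∫ t in (0 : ℝ)..1, fderiv ℝ φ ((1 - t) • y + t • z) (z - y) = φ z - φ y := by
      have := intervalIntegral.integral_eq_sub_of_hasDerivAt (a := (0 : ℝ)) (b := 1)
        (f := fun t : ℝ => φ ((1 - t) • y + t • z))
        (f' := fun t => fderiv ℝ φ ((1 - t) • y + t • z) (z - y)) (fun t ht => hder t (by
          rwa [uIcc_of_le zero_le_one] at ht)) (by
          apply ContinuousOn.intervalIntegrable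
          rwa [uIcc_of_le zero_le_one])
      rw [this]; simp
    have hnorm : ‖φ y - φ z‖ₑ ≤
        ENNReal.ofReal (2 * r) * ∫⁻ t in Ioo (0 : ℝ) 1, g ((1 - t) • y + t • z) := by
      rw [← enorm_neg, neg_sub, ← hftc, intervalIntegral.integral_of_le zero_le_one,
        integral_Ioc_eq_integral_Ioo]
      refine (enorm_integral_le_lintegral_enorm _).trans ?_
      rw [← lintegral_const_mul' _ _ ENNReal.ofReal_ne_top]
      refine lintegral_mono fun t => ?_
      have h1 : ‖fderiv ℝ φ ((1 - t) • y + t • z) (z - y)‖ₑ ≤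
          ‖fderiv ℝ φ ((1 - t) • y + t • z)‖ₑ * ‖z - y‖ₑ :=
        ContinuousLinearMap.le_opENorm _ _
      have h2 : ‖z - y‖ₑ ≤ ENNReal.ofReal (2 * r) := by
        rw [← ofReal_norm]
        apply ENNReal.ofReal_le_ofReal
        have h3 : dist z x < r := hz
        have h4 : dist y x < r := hy
        rw [← dist_eq_norm]
        linarith [dist_triangle_right z y x]
      have h3 : g ((1 - t) • y + t • z) = ‖fderiv ℝ φ ((1 - t) • y + t • z)‖ₑ := by
        rw [hg]; simp [gradient]
      rw [h3]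
      calc _ ≤ _ := h1
        _ ≤ ‖fderiv ℝ φ ((1 - t) • y + t • z)‖ₑ * ENNReal.ofReal (2 * r) := by gcongr
        _ = _ := mul_comm _ _
    have : IsProbabilityMeasure (volume.restrict (Ioo (0 : ℝ) 1)) := by
      constructor; simp
    calc ‖φ y - φ z‖ₑ ^ p
        ≤ (ENNReal.ofReal (2 * r) * ∫⁻ t in Ioo (0 : ℝ) 1, g ((1 - t) • y + t • z)) ^ p :=
          ENNReal.rpow_le_rpow hnorm hp0.le
      _ = ENNReal.ofReal ((2 * r) ^ p) *
          (∫⁻ t in Ioo (0 : ℝ) 1, g ((1 - t) • y + t • z)) ^ p := by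
          rw [ENNReal.mul_rpow_of_nonneg _ _ hp0.le, ENNReal.ofReal_rpow_of_pos (by linarith)]
      _ ≤ ENNReal.ofReal ((2 * r) ^ p) *
          ∫⁻ t in Ioo (0 : ℝ) 1, g ((1 - t) • y + t • z) ^ p := by
          gcongr
          exact jensen_lintegral _ hp _ (by
            apply Measurable.aemeasurable
            exact hgm.comp (by fun_prop))
      _ = ENNReal.ofReal ((2 * r) ^ p) *
          ∫⁻ t in Ioo (0 : ℝ) 1, F ((1 - t) • y + t • z) := by
          congr 1
          refine setLIntegral_congr_fun measurableSet_Ioo fun t ht => ?_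
          rw [hF, indicator_of_mem (hseg t ⟨ht.1.le, ht.2.le⟩)]
  -- Step C
  have stepC : ∀ t ∈ Ioo (0 : ℝ) 1, ∫⁻ y in B, ∫⁻ z in B, F ((1 - t) • y + t • z) ≤
      volume B * (ENNReal.ofReal (2 ^ (finrank ℝ V)) * ∫⁻ z, F z) := by
    intro t ht
    have hcov : ∀ s : ℝ, 1 / 2 ≤ s → ∀ a : V, ∫⁻ z in B, F (a + s • z) ≤
        ENNReal.ofReal (2 ^ (finrank ℝ V)) * ∫⁻ z, F z := by
      intro s hs a
      calc ∫⁻ z in B, F (a + s • z) ≤ ∫⁻ z, F (a + s • z) := setLIntegral_le_lintegral _ _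
        _ = ENNReal.ofReal (s⁻¹ ^ (finrank ℝ V)) * ∫⁻ z, F z :=
            lintegral_comp_affine F hFm a (by linarith)
        _ ≤ _ := by
            gcongr
            have : s⁻¹ ≤ (1 / 2 : ℝ)⁻¹ := inv_anti₀ (by norm_num) hs
            simpa using this
    have hmeas : Measurable (Function.uncurry fun y z : V => F ((1 - t) • y + t • z)) :=
      hFm.comp (by fun_prop)
    rcases le_total (1 / 2) t with h | h
    · calc ∫⁻ y in B, ∫⁻ z in B, F ((1 - t) • y + t • z)
          ≤ ∫⁻ y in B, (ENNReal.ofReal (2 ^ (finrank ℝ V)) * ∫⁻ z, F z) :=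
            lintegral_mono fun y => hcov t h _
        _ = _ := by rw [lintegral_const, Measure.restrict_apply_univ, mul_comm]
    · rw [lintegral_lintegral_swap hmeas.aemeasurable]
      calc ∫⁻ z in B, ∫⁻ y in B, F ((1 - t) • y + t • z)
          ≤ ∫⁻ z in B, (ENNReal.ofReal (2 ^ (finrank ℝ V)) * ∫⁻ z, F z) := by
            refine lintegral_mono fun z => ?_
            have := hcov (1 - t) (by linarith) (t • z)
            refine le_trans (le_of_eq ?_) this
            refine lintegral_congr fun y => ?_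
            rw [add_comm]
        _ = _ := by rw [lintegral_const, Measure.restrict_apply_univ, mul_comm]
  have hmeas3 : Measurable (fun q : (V × V) × ℝ => F ((1 - q.2) • q.1.1 + q.2 • q.1.2)) :=
    hFm.comp (by fun_prop)
  -- assembling
  calc ∫⁻ y in B, ‖φ y - ⨍ z in B, φ z‖ₑ ^ p
      ≤ ∫⁻ y in B, ∫⁻ z, ‖φ y - φ z‖ₑ ^ p ∂ν :=
        setLIntegral_mono' hBm stepA
    _ = (volume B)⁻¹ * ∫⁻ y in B, ∫⁻ z in B, ‖φ y - φ z‖ₑ ^ p := by
        rw [← lintegral_const_mul' _ _ (ENNReal.inv_ne_top.2 hBpos.ne')]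
        refine lintegral_congr fun y => ?_
        rw [hν, lintegral_smul_measure, smul_eq_mul]
    _ ≤ (volume B)⁻¹ * ∫⁻ y in B, ∫⁻ z in B,
          ENNReal.ofReal ((2 * r) ^ p) * ∫⁻ t in Ioo (0 : ℝ) 1, F ((1 - t) • y + t • z) := by
        refine mul_le_mul' le_rfl ?_
        refine setLIntegral_mono' hBm fun y hy => ?_
        exact setLIntegral_mono' hBm fun z hz => stepB y hy z hz
    _ = (volume B)⁻¹ * (ENNReal.ofReal ((2 * r) ^ p) *
          ∫⁻ t in Ioo (0 : ℝ) 1, ∫⁻ y in B, ∫⁻ z in B, F ((1 - t) • y + t • z)) := by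
        congr 1
        have e1 : ∀ y, ∫⁻ z in B, ENNReal.ofReal ((2 * r) ^ p) *
            ∫⁻ t in Ioo (0 : ℝ) 1, F ((1 - t) • y + t • z) =
            ENNReal.ofReal ((2 * r) ^ p) *
              ∫⁻ t in Ioo (0 : ℝ) 1, ∫⁻ z in B, F ((1 - t) • y + t • z) := by
          intro y
          rw [lintegral_const_mul' _ _ ENNReal.ofReal_ne_top]
          congr 1
          rw [lintegral_lintegral_swap]
          exact (hFm.comp (by fun_prop) : Measurable (Function.uncurry
            fun (z : V) (t : ℝ) => F ((1 - t) • y + t • z))).aemeasurable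
        simp_rw [e1]
        rw [lintegral_const_mul' _ _ ENNReal.ofReal_ne_top]
        congr 1
        rw [lintegral_lintegral_swap]
        have : Measurable (Function.uncurry fun (y : V) (t : ℝ) =>
            ∫⁻ z in B, F ((1 - t) • y + t • z)) := by
          have h2 : Measurable (fun q : (V × ℝ) × V => F ((1 - q.1.2) • q.1.1 + q.1.2 • q.2)) :=
            hFm.comp (by fun_prop)
          exact h2.lintegral_prod_right'
        exact this.aemeasurable
    _ ≤ (volume B)⁻¹ * (ENNReal.ofReal ((2 * r) ^ p) *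
          ∫⁻ t in Ioo (0 : ℝ) 1, volume B * (ENNReal.ofReal (2 ^ (finrank ℝ V)) * ∫⁻ z, F z)) := by
        refine mul_le_mul' le_rfl (mul_le_mul' le_rfl ?_)
        exact setLIntegral_mono' measurableSet_Ioo stepC
    _ = ENNReal.ofReal (2 ^ (finrank ℝ V) * (2 * r) ^ p) * ∫⁻ y in B, g y ^ p := by
        rw [lintegral_const]
        simp only [Measure.restrict_apply_univ, Real.volume_Ioo, sub_zero, ENNReal.ofReal_one,
          mul_one]
        rw [hF, lintegral_indicator hBm, ENNReal.ofReal_mul (by positivity)]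
        have : (volume B)⁻¹ * (ENNReal.ofReal ((2 * r) ^ p) * (volume B *
            (ENNReal.ofReal (2 ^ (finrank ℝ V)) * ∫⁻ a in B, g a ^ p))) =
            ((volume B)⁻¹ * volume B) * (ENNReal.ofReal (2 ^ (finrank ℝ V)) *
              ENNReal.ofReal ((2 * r) ^ p) * ∫⁻ a in B, g a ^ p) := by ring
        rw [this, ENNReal.inv_mul_cancel hBpos.ne' hBfin.ne, one_mul]

end Pool.Agent.LebSup
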