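import Mathlib
import Pool.Agent.LebSup.Defs
import Pool.Agent.LebSup.Poincare

set_option autoImplicit false

open MeasureTheory Filter Topology Set Module
open scoped ContDiff RealInnerProductSpace ENNReal

namespace Pool.Agent.LebSup

theorem wmeas_one {n : ℕ} : wmeas (fun _ : E n => (1 : ℝ)) = volume := by
  rw [wmeas]; simp

/-- On a set of finite measure, `L^p` convergence to zero implies `L^1` convergence to zero. -/
theorem tendsto_L1_of_Lp {α : Type*} [MeasurableSpace α] {μ : Measure α} {K : Set α}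
    (hK : μ K ≠ ⊤) {p : ℝ} (hp : 1 < p) (f : ℕ → α → ℝ≥0∞)
    (hf : ∀ i, AEMeasurable (f i) (μ.restrict K))
    (h : Tendsto (fun i => ∫⁻ x in K, f i x ^ p ∂μ) atTop (𝓝 0)) :
    Tendsto (fun i => ∫⁻ x in K, f i x ∂μ) atTop (𝓝 0) := by
  have hp0 : 0 < p := by linarith
  have key : ∀ i, ∫⁻ x in K, f i x ∂μ ≤
      (∫⁻ x in K, f i x ^ p ∂μ) ^ (1 / p) * (μ K) ^ (1 - 1 / p) := by
    intro i
    have h1 := eLpNorm_le_eLpNorm_mul_rpow_measure_univ (μ := μ.restrict K) (p := 1)
      (q := ENNReal.ofReal p) (f := f i)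
      (by rw [← ENNReal.ofReal_one]; exact ENNReal.ofReal_le_ofReal hp.le)
      (hf i).aestronglyMeasurable
    rw [eLpNorm_one_eq_lintegral_enorm, eLpNorm_eq_lintegral_rpow_enorm_toReal
      (by simpa using hp0) ENNReal.ofReal_ne_top, ENNReal.toReal_ofReal hp0.le] at h1
    simpa using h1
  have h2 : Tendsto (fun i => (∫⁻ x in K, f i x ^ p ∂μ) ^ (1 / p) * (μ K) ^ (1 - 1 / p)) atTop
      (𝓝 0) := by
    have h3 : Tendsto (fun i => (∫⁻ x in K, f i x ^ p ∂μ) ^ (1 / p)) atTop (𝓝 0) := by
      have h4 : ContinuousAt (fun y : ℝ≥0∞ => y ^ (1 / p)) 0 :=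
        ENNReal.continuous_rpow_const.continuousAt
      have h5 := h4.tendsto.comp h
      simpa [hp0, Function.comp_def] using h5
    have h6 : (μ K) ^ (1 - 1 / p) ≠ ⊤ := by
      apply ENNReal.rpow_ne_top_of_nonneg _ hK
      rw [sub_nonneg, div_le_one hp0]; exact hp.le
    simpa using ENNReal.Tendsto.mul_const h3 (Or.inr h6)
  exact tendsto_of_tendsto_of_tendsto_of_le_of_le tendsto_const_nhds h2 (fun _ => bot_le) key

theorem enorm_gradient {n : ℕ} (φ : E n → ℝ) (y : E n) : ‖gradient φ y‖ₑ = ‖fderiv ℝ φ y‖ₑ := by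
  simp [gradient]

theorem closable_volume {n : ℕ} {p : ℝ} (hp : 1 < p) (D : Set (E n)) (hD : IsOpen D)
    (φ : ℕ → E n → ℝ) (v : E n → E n) (hφ : ∀ i, IsTest D (φ i))
    (hv : MemLp v (ENNReal.ofReal p) (volume.restrict D))
    (h0 : Tendsto (fun i => ∫⁻ x in D, ‖φ i x‖ₑ ^ p) atTop (𝓝 0))
    (h1 : Tendsto (fun i => ∫⁻ x in D, ‖gradient (φ i) x - v x‖ₑ ^ p) atTop (𝓝 0)) :
    v =ᵐ[volume.restrict D] 0 := by
  have hp0 : 0 < p := by linarith
  have hpE : (1 : ℝ≥0∞) ≤ ENNReal.ofReal p := by
    rw [← ENNReal.ofReal_one]; exact ENNReal.ofReal_le_ofReal hp.le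
  have hloc : LocallyIntegrableOn v D :=
    locallyIntegrableOn_of_locallyIntegrable_restrict (hv.locallyIntegrable hpE)
  have hae : ∀ᵐ x, x ∈ D → v x = 0 := by
    refine hD.ae_eq_zero_of_integral_contDiff_smul_eq_zero hloc ?_
    intro g hg hgc hgD
    set K : Set (E n) := tsupport g with hKdef
    have hKc : IsCompact K := hgc
    have hKm : MeasurableSet K := hKc.measurableSet
    have hKfin : volume K ≠ ⊤ := hKc.measure_lt_top.ne
    have hKle : volume.restrict K ≤ volume.restrict D := Measure.restrict_mono_set _ hgD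
    have hvK : AEStronglyMeasurable v (volume.restrict K) := hv.1.mono_measure hKle
    have hφc : ∀ i, Continuous (φ i) := fun i => (hφ i).1.continuous
    have hfc : ∀ i, Continuous (fun x => gradient (φ i) x) := fun i => by
      have := ((hφ i).1.continuous_fderiv (by simp))
      exact (InnerProductSpace.toDual ℝ (E n)).symm.continuous.comp this
    have t0 : Tendsto (fun i => ∫⁻ x in K, ‖φ i x‖ₑ) atTop (𝓝 0) := by
      refine tendsto_L1_of_Lp hKfin hp _ (fun i => (hφc i).measurable.enorm.aemeasurable) ?_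
      refine tendsto_of_tendsto_of_tendsto_of_le_of_le tendsto_const_nhds h0 (fun _ => bot_le) ?_
      exact fun i => lintegral_mono_set hgD
    have t1 : Tendsto (fun i => ∫⁻ x in K, ‖gradient (φ i) x - v x‖ₑ) atTop (𝓝 0) := by
      refine tendsto_L1_of_Lp hKfin hp _ (fun i => ?_) ?_
      · exact ((hfc i).aestronglyMeasurable.sub hvK).enorm
      refine tendsto_of_tendsto_of_tendsto_of_le_of_le tendsto_const_nhds h1 (fun _ => bot_le) ?_
      exact fun i => lintegral_mono_set hgD
    obtain ⟨I, hI⟩ : ∃ I : E n, I = ∫ x, g x • v x := ⟨_, rfl⟩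
    rw [← hI]
    -- bounds of g and its derivative
    obtain ⟨M, hM⟩ : ∃ M : ℝ, ∀ x, ‖g x‖ ≤ M := hg.continuous.bounded_above_of_compact_support hgc
    obtain ⟨M', hM'⟩ : ∃ M' : ℝ, ∀ x, ‖fderiv ℝ g x‖ ≤ M' :=
      (hg.continuous_fderiv (by simp)).bounded_above_of_compact_support (hgc.fderiv ℝ)
    have hM0 : 0 ≤ M := (norm_nonneg _).trans (hM 0)
    have hM0' : 0 ≤ M' := (norm_nonneg _).trans (hM' 0)
    have hvint : IntegrableOn v K := by
      have : IsFiniteMeasure (volume.restrict K) := ⟨by simpa using hKc.measure_lt_top⟩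
      exact (hv.mono_measure hKle).integrable hpE
    have hgv : Integrable (fun x => g x • v x) := by
      have h2 : IntegrableOn (fun x => g x • v x) K := by
        have : Integrable (fun x => g x • v x) (volume.restrict K) :=
          Integrable.bdd_smul hvint M hg.continuous.aestronglyMeasurable
            (Eventually.of_forall hM)
        exact this
      refine (integrableOn_iff_integrable_of_support_subset ?_).1 h2
      intro x hx
      by_contra hxK
      apply hx
      simp [image_eq_zero_of_notMem_tsupport hxK]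
    have hgφ : ∀ i, Integrable (fun x => g x • gradient (φ i) x) := by
      intro i
      exact (hg.continuous.smul (hfc i)).integrable_of_hasCompactSupport hgc.smul_right
    have key : ∀ i, ‖I‖ₑ ^ 2 ≤ (‖I‖ₑ * (ENNReal.ofReal M * ∫⁻ x in K, ‖gradient (φ i) x - v x‖ₑ)
        + ENNReal.ofReal M' * ‖I‖ₑ * ∫⁻ x in K, ‖φ i x‖ₑ) := by
      intro i
      have e1 : ⟪I, I⟫ = ⟪∫ x, g x • (v x - gradient (φ i) x), I⟫
          + - ∫ x, fderiv ℝ g x I * φ i x := by
        have e2 : ∫ x, g x • (v x - gradient (φ i) x) = I - ∫ x, g x • gradient (φ i) x := by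
          rw [hI, ← integral_sub hgv (hgφ i)]
          simp_rw [smul_sub]
        have e3 : ⟪∫ x, g x • gradient (φ i) x, I⟫ = ∫ x, g x * fderiv ℝ (φ i) x I := by
          rw [real_inner_comm, ← integral_inner (hgφ i)]
          refine integral_congr_ae (Eventually.of_forall fun x => ?_)
          simp only [real_inner_smul_right]
          rw [real_inner_comm, inner_gradient_left]
        have e4 : ∫ x, g x * fderiv ℝ (φ i) x I = - ∫ x, fderiv ℝ g x I * φ i x := by
          have c1 : Continuous (fun x => fderiv ℝ g x I) :=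
            (hg.continuous_fderiv (by simp)).clm_apply continuous_const
          have c2 : Continuous (fun x => fderiv ℝ (φ i) x I) :=
            ((hφ i).1.continuous_fderiv (by simp)).clm_apply continuous_const
          refine integral_mul_fderiv_eq_neg_fderiv_mul_of_integrable ?_ ?_ ?_ ?_ ?_
          · exact (c1.mul (hφc i)).integrable_of_hasCompactSupport
              ((hφ i).2.1.mul_left)
          · exact (hg.continuous.mul c2).integrable_of_hasCompactSupport (hgc.mul_right)
          · exact (hg.continuous.mul (hφc i)).integrable_of_hasCompactSupport (hgc.mul_right)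
          · exact fun x _ => (hg.differentiable (by simp)) x
          · exact fun x _ => ((hφ i).1.differentiable (by simp)) x
        rw [e2, inner_sub_left, e3, e4]; ring
      have f1 : ‖∫ x, g x • (v x - gradient (φ i) x)‖ₑ ≤
          ENNReal.ofReal M * ∫⁻ x in K, ‖gradient (φ i) x - v x‖ₑ := by
        refine (enorm_integral_le_lintegral_enorm _).trans ?_
        rw [← lintegral_const_mul' _ _ ENNReal.ofReal_ne_top, ← lintegral_indicator hKm]
        refine lintegral_mono fun x => ?_
        by_cases hx : x ∈ K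
        · rw [indicator_of_mem hx, enorm_smul]
          gcongr
          · rw [← ofReal_norm]; exact ENNReal.ofReal_le_ofReal (hM x)
          · rw [← enorm_neg, neg_sub]
        · rw [indicator_of_notMem hx, image_eq_zero_of_notMem_tsupport hx]; simp
      have f2 : ‖∫ x, fderiv ℝ g x I * φ i x‖ₑ ≤
          ENNReal.ofReal M' * ‖I‖ₑ * ∫⁻ x in K, ‖φ i x‖ₑ := by
        refine (enorm_integral_le_lintegral_enorm _).trans ?_
        rw [← lintegral_const_mul' _ _ (ENNReal.mul_ne_top ENNReal.ofReal_ne_top enorm_ne_top),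
          ← lintegral_indicator hKm]
        refine lintegral_mono fun x => ?_
        by_cases hx : x ∈ K
        · rw [indicator_of_mem hx, enorm_mul]
          gcongr
          refine (ContinuousLinearMap.le_opENorm _ _).trans ?_
          gcongr
          rw [← ofReal_norm]; exact ENNReal.ofReal_le_ofReal (hM' x)
        · rw [indicator_of_notMem hx]
          have : fderiv ℝ g x = 0 := by
            by_contra hne
            exact hx (support_fderiv_subset ℝ hne)
          rw [this]; simp
      have f3 : ‖⟪I, I⟫‖ₑ = ‖I‖ₑ ^ 2 := by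
        rw [real_inner_self_eq_norm_sq, enorm_pow]
        simp
      rw [← f3, e1]
      calc ‖⟪∫ x, g x • (v x - gradient (φ i) x), I⟫ + - ∫ x, fderiv ℝ g x I * φ i x‖ₑ
          ≤ ‖⟪∫ x, g x • (v x - gradient (φ i) x), I⟫‖ₑ + ‖- ∫ x, fderiv ℝ g x I * φ i x‖ₑ :=
            enorm_add_le _ _
        _ ≤ _ := by
          gcongr
          · have : ‖⟪∫ x, g x • (v x - gradient (φ i) x), I⟫‖ₑ ≤
                ‖∫ x, g x • (v x - gradient (φ i) x)‖ₑ * ‖I‖ₑ := by
              rw [← ofReal_norm, ← ofReal_norm, ← ofReal_norm,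
                ← ENNReal.ofReal_mul (norm_nonneg _)]
              exact ENNReal.ofReal_le_ofReal (norm_inner_le_norm _ _)
            refine this.trans ?_
            rw [mul_comm]
            gcongr
          · rw [enorm_neg]; exact f2
    have hlim : Tendsto (fun i => (‖I‖ₑ * (ENNReal.ofReal M *
        ∫⁻ x in K, ‖gradient (φ i) x - v x‖ₑ)
        + ENNReal.ofReal M' * ‖I‖ₑ * ∫⁻ x in K, ‖φ i x‖ₑ)) atTop (𝓝 0) := by
      have a1 := ENNReal.Tendsto.const_mul (a := ‖I‖ₑ)
        (ENNReal.Tendsto.const_mul (a := ENNReal.ofReal M) t1 (Or.inr ENNReal.ofReal_ne_top))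
        (Or.inr enorm_ne_top)
      have a2 := ENNReal.Tendsto.const_mul (a := ENNReal.ofReal M' * ‖I‖ₑ) t0
        (Or.inr (ENNReal.mul_ne_top ENNReal.ofReal_ne_top enorm_ne_top))
      simpa using a1.add a2
    have hfin : ‖I‖ₑ ^ 2 ≤ 0 := ge_of_tendsto' hlim key
    have : ‖I‖ₑ = 0 := by simpa using hfin
    exact enorm_eq_zero.1 this
  rw [EventuallyEq, ae_restrict_iff' hD.measurableSet]
  exact hae

end Pool.Agent.LebSup
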