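import Mathlib
import Pool.Agent.LebSup.Closable

set_option autoImplicit false

open MeasureTheory Filter Topology Set Module
open scoped ContDiff RealInnerProductSpace ENNReal NNReal

namespace Pool.Agent.LebSup

theorem sobolev_volume {n : ℕ} {p : ℝ} (hp : 1 < p) (hpn : p < n) :
    ∃ C : ℝ, ∀ (x : E n) (r : ℝ), 0 < r → ∀ φ : E n → ℝ, IsTest (Metric.ball x r) φ →
    (⨍⁻ y in Metric.ball x r, ‖φ y‖ₑ ^ ((n / (n - p)) * p) ∂volume) ^ (1 / ((n / (n - p)) * p)) ≤
      ENNReal.ofReal (C * r) *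
        (⨍⁻ y in Metric.ball x r, ‖gradient φ y‖ₑ ^ p ∂volume) ^ (1 / p) := by
  have hp0 : 0 < p := by linarith
  have hn0 : (0 : ℝ) < n := by linarith
  have hnp : 0 < (n : ℝ) - p := by linarith
  have : Nontrivial (E n) := by
    apply Module.nontrivial_of_finrank_pos (R := ℝ)
    rw [finrank_euclideanSpace_fin]
    exact_mod_cast hn0
  obtain ⟨P, hP⟩ : ∃ P : ℝ≥0, (P : ℝ) = p := ⟨⟨p, hp0.le⟩, rfl⟩
  obtain ⟨q, hq⟩ : ∃ q : ℝ, q = (n / (n - p)) * p := ⟨_, rfl⟩
  have hq0 : 0 < q := by rw [hq]; positivity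
  obtain ⟨Q, hQ⟩ : ∃ Q : ℝ≥0, (Q : ℝ) = q := ⟨⟨q, hq0.le⟩, rfl⟩
  have hqinv : (Q : ℝ)⁻¹ = (P : ℝ)⁻¹ - (finrank ℝ (E n) : ℝ)⁻¹ := by
    rw [hQ, hP, finrank_euclideanSpace_fin, hq]
    field_simp
  have hqinv' : 1 / q = 1 / p - 1 / n := by
    rw [← hQ, ← hP, one_div, one_div, one_div, hqinv, finrank_euclideanSpace_fin]
  obtain ⟨C, hC⟩ : ∃ C : ℝ≥0, C = SNormLESNormFDerivOfEqConst ℝ (volume : Measure (E n)) P :=
    ⟨_, rfl⟩
  obtain ⟨V1, hV1⟩ : ∃ V1 : ℝ≥0∞, V1 = volume (Metric.ball (0 : E n) 1) := ⟨_, rfl⟩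
  have hV1fin : V1 ≠ ⊤ := by rw [hV1]; exact measure_ball_lt_top.ne
  have hV1pos : V1 ≠ 0 := by rw [hV1]; exact (Metric.measure_ball_pos _ _ one_pos).ne'
  refine ⟨C * V1.toReal ^ (1 / (n : ℝ)), ?_⟩
  intro x r hr φ hφ
  rw [← hq]
  obtain ⟨hφ1, hφ2, hφ3⟩ := hφ
  have hgns := eLpNorm_le_eLpNorm_fderiv_of_eq (μ := (volume : Measure (E n))) (F := ℝ)
    (u := φ) (hφ1.of_le (by simp)) hφ2 (p := P) (p' := Q)
    (by rw [← NNReal.coe_le_coe, hP]; simpa using hp.le)
    (by rw [finrank_euclideanSpace_fin]; exact_mod_cast hn0) hqinv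
  rw [← hC] at hgns
  have hP0 : (P : ℝ≥0∞) ≠ 0 := by
    have : P ≠ 0 := by rintro rfl; simp at hP; linarith
    exact_mod_cast this
  have hQ0 : (Q : ℝ≥0∞) ≠ 0 := by
    have : Q ≠ 0 := by rintro rfl; simp at hQ; linarith
    exact_mod_cast this
  rw [eLpNorm_eq_lintegral_rpow_enorm_toReal hQ0 ENNReal.coe_ne_top,
    eLpNorm_eq_lintegral_rpow_enorm_toReal hP0 ENNReal.coe_ne_top] at hgns
  simp only [ENNReal.coe_toReal, hP, hQ] at hgns
  set B : Set (E n) := Metric.ball x r with hB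
  have hball : volume B = ENNReal.ofReal (r ^ n) * V1 := by
    rw [hB, hV1, Measure.addHaar_ball _ _ hr.le, finrank_euclideanSpace_fin]
  have hgrad : ∫⁻ y, ‖fderiv ℝ φ y‖ₑ ^ p = ∫⁻ y in B, ‖gradient φ y‖ₑ ^ p := by
    rw [setLIntegral_eq_of_support_subset]
    · exact lintegral_congr fun y => by rw [enorm_gradient]
    · intro y hy
      rw [Function.mem_support] at hy
      apply hφ3
      by_contra hy'
      apply hy
      have : fderiv ℝ φ y = 0 := by
        by_contra hne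
        exact hy' (support_fderiv_subset ℝ hne)
      have h0 : gradient φ y = 0 := by rw [gradient, this, map_zero]
      rw [h0, enorm_zero, ENNReal.zero_rpow_of_pos hp0]
  rw [hgrad] at hgns
  rw [setLAverage_eq, setLAverage_eq]
  have hVpos : volume B ≠ 0 := (Metric.measure_ball_pos _ _ hr).ne'
  have hVfin : volume B ≠ ⊤ := measure_ball_lt_top.ne
  rw [ENNReal.div_rpow_of_nonneg _ _ (by positivity), ENNReal.div_rpow_of_nonneg _ _ (by positivity)]
  have h1 : (∫⁻ y in B, ‖φ y‖ₑ ^ q) ^ (1 / q) ≤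
      C * (∫⁻ y in B, ‖gradient φ y‖ₑ ^ p) ^ (1 / p) := by
    refine le_trans ?_ hgns
    gcongr
    exact Measure.restrict_le_self
  have hVr : (volume B) ^ (1 / (n : ℝ)) =
      ENNReal.ofReal r * ENNReal.ofReal (V1.toReal ^ (1 / (n : ℝ))) := by
    rw [hball, ENNReal.mul_rpow_of_nonneg _ _ (by positivity),
      ENNReal.ofReal_rpow_of_pos (by positivity), ← ENNReal.ofReal_rpow_of_nonneg
        ENNReal.toReal_nonneg (by positivity), ENNReal.ofReal_toReal hV1fin]
    congr 2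
    rw [← Real.rpow_natCast, ← Real.rpow_mul hr.le]
    rw [mul_one_div_cancel hn0.ne', Real.rpow_one]
  calc (∫⁻ y in B, ‖φ y‖ₑ ^ q) ^ (1 / q) / volume B ^ (1 / q)
      ≤ C * (∫⁻ y in B, ‖gradient φ y‖ₑ ^ p) ^ (1 / p) / volume B ^ (1 / q) := by gcongr
    _ = ENNReal.ofReal (C * V1.toReal ^ (1 / (n : ℝ)) * r) *
        ((∫⁻ y in B, ‖gradient φ y‖ₑ ^ p) ^ (1 / p) / volume B ^ (1 / p)) := by
      have h2 : volume B ^ (1 / p) = volume B ^ (1 / (n : ℝ)) * volume B ^ (1 / q) := by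
        rw [← ENNReal.rpow_add _ _ hVpos hVfin, hqinv']; congr 1; ring
      have h3 : ENNReal.ofReal (C * V1.toReal ^ (1 / (n : ℝ)) * r) =
          C * (volume B) ^ (1 / (n : ℝ)) := by
        rw [hVr, mul_assoc, ENNReal.ofReal_mul (NNReal.coe_nonneg _), ENNReal.ofReal_coe_nnreal,
          ENNReal.ofReal_mul (by positivity)]
        ring
      rw [h2, h3]
      set I := (∫⁻ y in B, ‖gradient φ y‖ₑ ^ p) ^ (1 / p)
      set b := volume B ^ (1 / (n : ℝ)) with hb
      set c := volume B ^ (1 / q) with hc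
      have hb0 : b ≠ 0 := by
        rw [hb]; exact (ENNReal.rpow_pos (pos_iff_ne_zero.2 hVpos) hVfin).ne'
      have hbt : b ≠ ⊤ := by
        rw [hb]; exact ENNReal.rpow_ne_top_of_nonneg (by positivity) hVfin
      have hc0 : c ≠ 0 := by
        rw [hc]; exact (ENNReal.rpow_pos (pos_iff_ne_zero.2 hVpos) hVfin).ne'
      have hct : c ≠ ⊤ := by
        rw [hc]; exact ENNReal.rpow_ne_top_of_nonneg (by positivity) hVfin
      rw [div_eq_mul_inv, div_eq_mul_inv, ENNReal.mul_inv (Or.inl hb0) (Or.inl hbt)]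
      calc (C : ℝ≥0∞) * I * c⁻¹ = C * I * c⁻¹ * (b * b⁻¹) := by
            rw [ENNReal.mul_inv_cancel hb0 hbt, mul_one]
        _ = _ := by ring

/-- The constant weight `1` on `ℝⁿ` is `p`-admissible for `1 < p < n`, with the sharp Sobolev
exponent `κ = n / (n - p)`. -/
theorem admissible_one {n : ℕ} {p : ℝ} (hp : 1 < p) (hpn : p < n) :
    PAdmissible (n := n) (fun _ => 1) p (n / (n - p)) where
  measurable := measurable_const
  nonneg := fun _ => zero_le_one
  pos := Eventually.of_forall fun _ => one_pos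
  finite_ball := fun x r => by rw [wmeas_one]; exact measure_ball_lt_top
  doubling := by
    have : Nontrivial (E n) := by
      apply Module.nontrivial_of_finrank_pos (R := ℝ)
      rw [finrank_euclideanSpace_fin]
      have : (0 : ℝ) < n := by linarith
      exact_mod_cast this
    refine ⟨2 ^ n, fun x r hr => ?_⟩
    rw [wmeas_one, Measure.addHaar_ball _ _ (by positivity : (0 : ℝ) ≤ 2 * r),
      Measure.addHaar_ball _ _ hr.le, finrank_euclideanSpace_fin, ← mul_assoc,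
      ← ENNReal.ofReal_mul (by positivity), mul_pow]
  closable := by
    intro D hD φ v h1 h2 h3 h4
    simp only [wmeas_one] at h2 h3 h4 ⊢
    exact closable_volume hp D hD φ v h1 h2 h3 h4
  one_lt_kappa := by
    rw [lt_div_iff₀ (by linarith)]; linarith
  sobolev := by
    obtain ⟨C, hC⟩ := sobolev_volume (n := n) hp hpn
    refine ⟨C, ?_⟩
    simpa only [wmeas_one] using hC
  poincare := by
    refine ⟨2 ^ n * 2 ^ p, ?_⟩
    intro x r hr φ hφ hM
    obtain ⟨M, hM⟩ := hM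
    have h := poincare_ball hp.le x hr φ hφ hM
    simp only [wmeas_one]
    rw [finrank_euclideanSpace_fin, Real.mul_rpow (by norm_num) hr.le, ← mul_assoc] at h
    exact h

end Pool.Agent.LebSup
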