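import Mathlib
import Pool.Agent.LebSup.Defs

set_option autoImplicit false

open MeasureTheory Filter Topology Set
open scoped ContDiff RealInnerProductSpace

namespace Pool.Agent.LebSup

/-- the last basis vector of `ℝ⁵` -/
noncomputable def e4 : E 5 := EuclideanSpace.single 4 1

/-- `|y|²` for `x = (y, z)`. -/
def qq (x : E 5) : ℝ := x 0 ^ 2 + x 1 ^ 2 + x 2 ^ 2 + x 3 ^ 2

/-- the part `(y, 0)` of `x = (y, z)` -/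
noncomputable def yy (x : E 5) : E 5 := x - (x 4) • e4

theorem inner_e4 (x : E 5) : ⟪x, e4⟫ = x 4 := by
  rw [e4, EuclideanSpace.inner_single_right]; simp

theorem norm_e4 : ‖e4‖ = 1 := by rw [e4]; simp

theorem norm_sq (x : E 5) : ‖x‖ ^ 2 = qq x + x 4 ^ 2 := by
  rw [EuclideanSpace.norm_sq_eq, Fin.sum_univ_five, qq]
  simp [Real.norm_eq_abs, sq_abs]

theorem qq_nonneg (x : E 5) : 0 ≤ qq x := by unfold qq; positivity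

theorem inner_yy_e4 (x : E 5) : ⟪yy x, e4⟫ = 0 := by
  rw [yy, inner_sub_left, inner_e4, real_inner_smul_left, real_inner_self_eq_norm_sq, norm_e4]
  ring

theorem inner_yy_self (x : E 5) : ⟪yy x, x⟫ = qq x := by
  rw [yy, inner_sub_left, real_inner_self_eq_norm_sq, norm_sq, real_inner_smul_left,
    real_inner_comm, inner_e4]
  ring

theorem inner_yy_yy (x : E 5) : ⟪yy x, yy x⟫ = qq x := by
  have h : ⟪yy x, yy x⟫ = ⟪yy x, x - (x 4) • e4⟫ := rfl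
  rw [h, inner_sub_right, inner_yy_self, real_inner_smul_right, inner_yy_e4]
  ring

theorem norm_yy (x : E 5) : ‖yy x‖ = Real.sqrt (qq x) := by
  rw [← inner_yy_yy, real_inner_self_eq_norm_sq, Real.sqrt_sq (norm_nonneg _)]

/-- regularised `|z|` -/
noncomputable def zt (ε : ℝ) (x : E 5) : ℝ := Real.sqrt (x 4 ^ 2 + ε ^ 2)

/-- regularised norm -/
noncomputable def nn (ε : ℝ) (x : E 5) : ℝ := Real.sqrt (‖x‖ ^ 2 + ε ^ 2)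

/-- `D = |z|⁵ + |y|⁴` -/
noncomputable def dd (ε : ℝ) (x : E 5) : ℝ := zt ε x ^ 5 + qq x ^ 2

/-- the (regularised) function `u` -/
noncomputable def uu (ε : ℝ) (x : E 5) : ℝ := zt ε x ^ 9 / dd ε x ^ 2 - 2 * nn ε x

/-- its gradient -/
noncomputable def vv (ε : ℝ) (x : E 5) : E 5 :=
  (zt ε x ^ 7 * x 4 * (9 * qq x ^ 2 - zt ε x ^ 5) / dd ε x ^ 3) • e4
    - (8 * zt ε x ^ 9 * qq x / dd ε x ^ 3) • yy x - (2 / nn ε x) • x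

/-- the flux -/
noncomputable def gg (x : E 5) : E 5 :=
  (zt 0 x ^ 3 / dd 0 x) • yy x + (zt 0 x ^ (10 / 3 : ℝ) / dd 0 x) • x + (1 / ‖x‖) • x

theorem zt_nonneg (ε : ℝ) (x : E 5) : 0 ≤ zt ε x := Real.sqrt_nonneg _

theorem zt_sq (ε : ℝ) (x : E 5) : zt ε x ^ 2 = x 4 ^ 2 + ε ^ 2 := Real.sq_sqrt (by positivity)

theorem zt_zero (x : E 5) : zt 0 x = |x 4| := by
  rw [zt]; simp [Real.sqrt_sq_eq_abs]

theorem nn_zero (x : E 5) : nn 0 x = ‖x‖ := by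
  rw [nn]; simp

theorem abs_le_zt (ε : ℝ) (x : E 5) : |x 4| ≤ zt ε x := by
  rw [zt]; apply Real.abs_le_sqrt; nlinarith [sq_nonneg ε]

theorem norm_le_nn (ε : ℝ) (x : E 5) : ‖x‖ ≤ nn ε x := by
  rw [nn]; apply Real.le_sqrt_of_sq_le; nlinarith [sq_nonneg ε]

theorem dd_nonneg (ε : ℝ) (x : E 5) : 0 ≤ dd ε x := by
  have := zt_nonneg ε x
  unfold dd; positivity

theorem dd_pos_of_qq {ε : ℝ} {x : E 5} (h : 0 < qq x) : 0 < dd ε x := by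
  have := zt_nonneg ε x
  unfold dd; positivity

theorem dd_pos_of_eps {ε : ℝ} (hε : 0 < ε) (x : E 5) : 0 < dd ε x := by
  have : 0 < zt ε x := Real.sqrt_pos.2 (by positivity)
  unfold dd; positivity

theorem dd_pos_of_ne {x : E 5} (h : x ≠ 0) : 0 < dd 0 x := by
  have h1 : 0 < ‖x‖ ^ 2 := by have := norm_pos_iff.2 h; positivity
  rw [norm_sq] at h1
  by_cases hq : 0 < qq x
  · exact dd_pos_of_qq hq
  · have hq0 : qq x = 0 := le_antisymm (not_lt.1 hq) (qq_nonneg x)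
    have h4 : 0 < x 4 ^ 2 := by rw [hq0] at h1; linarith
    have h5 : 0 < zt 0 x := by
      rw [zt]; apply Real.sqrt_pos.2; simpa using h4
    unfold dd
    have := qq_nonneg x
    positivity

/-- Polynomial inequalities behind the estimates. -/
theorem poly1 {ζ σ : ℝ} (hζ : 0 ≤ ζ) (_hσ : 0 ≤ σ) : ζ ^ 3 * σ ^ 8 ≤ ζ ^ 5 + σ ^ 20 := by
  have hD : 0 ≤ ζ ^ 5 + σ ^ 20 := by positivity
  have h1 : ζ ^ 5 ≤ ζ ^ 5 + σ ^ 20 := le_add_of_nonneg_right (by positivity)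
  have h2 : σ ^ 20 ≤ ζ ^ 5 + σ ^ 20 := le_add_of_nonneg_left (by positivity)
  refine le_of_pow_le_pow_left₀ (n := 5) (by norm_num) hD ?_
  calc (ζ ^ 3 * σ ^ 8) ^ 5 = (ζ ^ 5) ^ 3 * (σ ^ 20) ^ 2 := by ring
    _ ≤ (ζ ^ 5 + σ ^ 20) ^ 3 * (ζ ^ 5 + σ ^ 20) ^ 2 := by gcongr
    _ = _ := by ring

theorem poly2 {ζ σ : ℝ} (hζ : 0 ≤ ζ) (_hσ : 0 ≤ σ) : ζ ^ 13 * σ ^ 8 ≤ (ζ ^ 5 + σ ^ 20) ^ 3 := by
  have hD : 0 ≤ ζ ^ 5 + σ ^ 20 := by positivity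
  have h1 : ζ ^ 5 ≤ ζ ^ 5 + σ ^ 20 := le_add_of_nonneg_right (by positivity)
  have h2 : σ ^ 20 ≤ ζ ^ 5 + σ ^ 20 := le_add_of_nonneg_left (by positivity)
  refine le_of_pow_le_pow_left₀ (n := 5) (by norm_num) (by positivity) ?_
  calc (ζ ^ 13 * σ ^ 8) ^ 5 = (ζ ^ 5) ^ 13 * (σ ^ 20) ^ 2 := by ring
    _ ≤ (ζ ^ 5 + σ ^ 20) ^ 13 * (ζ ^ 5 + σ ^ 20) ^ 2 := by gcongr
    _ = _ := by ring

theorem poly3 {ζ σ : ℝ} (hζ : 0 ≤ ζ) (_hσ : 0 ≤ σ) : ζ ^ 9 * σ ^ 4 ≤ (ζ ^ 5 + σ ^ 20) ^ 2 := by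
  have hD : 0 ≤ ζ ^ 5 + σ ^ 20 := by positivity
  have h1 : ζ ^ 5 ≤ ζ ^ 5 + σ ^ 20 := le_add_of_nonneg_right (by positivity)
  have h2 : σ ^ 20 ≤ ζ ^ 5 + σ ^ 20 := le_add_of_nonneg_left (by positivity)
  refine le_of_pow_le_pow_left₀ (n := 5) (by norm_num) (by positivity) ?_
  calc (ζ ^ 9 * σ ^ 4) ^ 5 = (ζ ^ 5) ^ 9 * (σ ^ 20) ^ 1 := by ring
    _ ≤ (ζ ^ 5 + σ ^ 20) ^ 9 * (ζ ^ 5 + σ ^ 20) ^ 1 := by gcongr
    _ = _ := by ring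

/-- `ζ⁸ s⁴ ≤ (ζ⁹ s³) + D³` -/
theorem poly4 {ζ s : ℝ} (hζ : 0 ≤ ζ) (hs : 0 ≤ s) :
    ζ ^ 8 * s ^ 4 ≤ ζ ^ 9 * s ^ 3 + (ζ ^ 5 + s ^ 4) ^ 3 := by
  have h1 : s ^ 4 ≤ ζ ^ 5 + s ^ 4 := le_add_of_nonneg_left (by positivity)
  rcases le_total s ζ with h | h
  · have : ζ ^ 8 * s ^ 4 ≤ ζ ^ 9 * s ^ 3 := by
      calc ζ ^ 8 * s ^ 4 = ζ ^ 8 * s ^ 3 * s := by ring
        _ ≤ ζ ^ 8 * s ^ 3 * ζ := by gcongr
        _ = _ := by ring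
    have : 0 ≤ (ζ ^ 5 + s ^ 4) ^ 3 := by positivity
    linarith
  · have : ζ ^ 8 * s ^ 4 ≤ (ζ ^ 5 + s ^ 4) ^ 3 := by
      calc ζ ^ 8 * s ^ 4 ≤ s ^ 8 * s ^ 4 := by gcongr
        _ = (s ^ 4) ^ 3 := by ring
        _ ≤ _ := by gcongr
    have : 0 ≤ ζ ^ 9 * s ^ 3 := by positivity
    linarith

end Pool.Agent.LebSup
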