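import Mathlib
import Pool.Agent.LebSup.Fields

set_option autoImplicit false

open MeasureTheory Filter Topology Set
open scoped ContDiff RealInnerProductSpace

namespace Pool.Agent.LebSup

theorem integrableOn_abs_rpow {α : ℝ} (hα : α < 1) (R : ℝ) :
    IntegrableOn (fun t : ℝ => |t| ^ (-α)) (Ioo (-R) R) := by
  rcases le_or_gt R 0 with h | h
  · rw [Ioo_eq_empty (by linarith)]; exact integrableOn_empty
  have h1 : IntegrableOn (fun t : ℝ => |t| ^ (-α)) (Ioc 0 R) := by
    have h2 : IntervalIntegrable (fun x : ℝ => x ^ (-α)) volume 0 R :=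
      intervalIntegral.intervalIntegrable_rpow' (by linarith)
    rw [intervalIntegrable_iff_integrableOn_Ioc_of_le h.le] at h2
    refine h2.congr_fun (fun t ht => ?_) measurableSet_Ioc
    simp only [abs_of_pos ht.1]
  have h2 : IntegrableOn (fun t : ℝ => |t| ^ (-α)) (Ico (-R) 0) := by
    have h3 : IntegrableOn (fun t : ℝ => |-t| ^ (-α)) (Ico (-R) 0) := by
      have := (Measure.measurePreserving_neg (volume : Measure ℝ)).integrableOn_comp_preimage
        (MeasurableEquiv.neg ℝ).measurableEmbedding (f := fun t : ℝ => |t| ^ (-α)) (s := Ioc 0 R)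
      have h4 := this.2 h1
      have h5 : (fun x : ℝ => -x) ⁻¹' Ioc 0 R = Ico (-R) 0 := by
        ext t; simp
      have h6 : (Neg.neg : ℝ → ℝ) ⁻¹' Ioc 0 R = Ico (-R) 0 := h5
      rw [h6] at h4
      exact h4
    simpa using h3
  have h0 : IntegrableOn (fun t : ℝ => |t| ^ (-α)) {(0 : ℝ)} :=
    integrableOn_singleton (by simp) (by simp)
  have h3 := h2.union (h1.union h0)
  refine h3.mono_set ?_
  intro t ht
  rcases lt_trichotomy t 0 with h4 | h4 | h4
  · exact Or.inl ⟨ht.1.le, h4⟩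
  · exact Or.inr (Or.inr h4)
  · exact Or.inr (Or.inl ⟨h4, ht.2.le⟩)

/-- The majorant. -/
noncomputable def mj (α : ℝ) (x : E 5) : ℝ :=
  |x 0| ^ (-α) * |x 1| ^ (-α) * |x 2| ^ (-α) * |x 3| ^ (-α)

theorem mj_nonneg (α : ℝ) (x : E 5) : 0 ≤ mj α x := by unfold mj; positivity

theorem abs_coord_le (x : E 5) (i : Fin 5) : |x i| ≤ ‖x‖ := by
  have := PiLp.norm_apply_le x i
  simpa using this

theorem integrableOn_mj {α : ℝ} (hα : α < 1) (R : ℝ) :
    IntegrableOn (mj α) (Metric.ball (0 : E 5) R) := by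
  obtain ⟨f, hf⟩ : ∃ f : Fin 5 → ℝ → ℝ, f = fun i => (Ioo (-R) R).indicator
    (fun t => if i = 4 then 1 else |t| ^ (-α)) := ⟨_, rfl⟩
  have h1 : Integrable (fun x : Fin 5 → ℝ => ∏ i, f i (x i)) := by
    refine Integrable.fintype_prod (f := f) (fun i => ?_)
    rw [hf]
    dsimp only
    rw [integrable_indicator_iff measurableSet_Ioo]
    by_cases hi : i = 4
    · simp only [hi, if_true]
      exact integrableOn_const (by simp)
    · simp only [hi, if_false]
      exact integrableOn_abs_rpow hα R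
  have h2 : Integrable (fun x : E 5 => ∏ i, f i (x i)) :=
    (PiLp.volume_preserving_ofLp (Fin 5)).integrable_comp_of_integrable h1
  refine h2.integrableOn.congr_fun (fun x hx => ?_) measurableSet_ball
  have hx' : ‖x‖ < R := by simpa using hx
  have h3 : ∀ i, x i ∈ Ioo (-R) R := fun i => by
    have := (abs_coord_le x i).trans_lt hx'
    exact abs_lt.1 this
  have d0 : (0 : Fin 5) ≠ 4 := by decide
  have d1 : (1 : Fin 5) ≠ 4 := by decide
  have d2 : (2 : Fin 5) ≠ 4 := by decide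
  have d3 : (3 : Fin 5) ≠ 4 := by decide
  simp only [Fin.prod_univ_five, hf, indicator_of_mem (h3 _), mj, if_neg d0, if_neg d1,
    if_neg d2, if_neg d3, if_true, mul_one]

theorem ae_coord_ne (i : Fin 5) : ∀ᵐ x : E 5, x i ≠ 0 := by
  have h : volume ((LinearMap.ker (EuclideanSpace.proj i : E 5 →L[ℝ] ℝ).toLinearMap :
      Submodule ℝ (E 5)) : Set (E 5)) = 0 := by
    apply Measure.addHaar_submodule
    intro htop
    have h1 : (EuclideanSpace.single i (1 : ℝ) : E 5) ∈
        (LinearMap.ker (EuclideanSpace.proj i : E 5 →L[ℝ] ℝ).toLinearMap) := by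
      rw [htop]; trivial
    simp at h1
  rw [ae_iff]
  refine measure_mono_null ?_ h
  intro x hx
  simp only [ne_eq, not_not, mem_ofPred_eq] at hx
  simp [hx]

theorem ae_qq_pos : ∀ᵐ x : E 5, 0 < qq x := by
  filter_upwards [ae_coord_ne 0] with x hx
  have : 0 < x 0 ^ 2 := by positivity
  unfold qq; positivity

theorem qq_rpow_le {x : E 5} (h0 : x 0 ≠ 0) (h1 : x 1 ≠ 0) (h2 : x 2 ≠ 0) (h3 : x 3 ≠ 0) {β : ℝ}
    (hβ : 0 ≤ β) : qq x ^ (-β) ≤ mj (β / 2) x := by
  have a0 := abs_pos.2 h0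
  have a1 := abs_pos.2 h1
  have a2 := abs_pos.2 h2
  have a3 := abs_pos.2 h3
  have hq : 0 < qq x := by have : 0 < x 0 ^ 2 := by positivity
                           unfold qq; positivity
  have e1 : mj (β / 2) x = (|x 0| * |x 1| * |x 2| * |x 3|) ^ (-(β / 2)) := by
    rw [mj, Real.mul_rpow (by positivity) a3.le, Real.mul_rpow (by positivity) a2.le,
      Real.mul_rpow a0.le a1.le]
  have e2 : qq x ^ (-β) = (qq x ^ 2) ^ (-(β / 2)) := by
    rw [← Real.rpow_natCast, ← Real.rpow_mul hq.le]; congr 1; push_cast; ring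
  rw [e1, e2]
  apply Real.rpow_le_rpow_of_nonpos (by positivity) _ (by linarith)
  have b0 : |x 0| ^ 2 ≤ qq x := by rw [sq_abs]; unfold qq; nlinarith [sq_nonneg (x 1), sq_nonneg (x 2), sq_nonneg (x 3)]
  have b1 : |x 1| ^ 2 ≤ qq x := by rw [sq_abs]; unfold qq; nlinarith [sq_nonneg (x 0), sq_nonneg (x 2), sq_nonneg (x 3)]
  have b2 : |x 2| ^ 2 ≤ qq x := by rw [sq_abs]; unfold qq; nlinarith [sq_nonneg (x 1), sq_nonneg (x 0), sq_nonneg (x 3)]
  have b3 : |x 3| ^ 2 ≤ qq x := by rw [sq_abs]; unfold qq; nlinarith [sq_nonneg (x 1), sq_nonneg (x 2), sq_nonneg (x 0)]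
  refine le_of_pow_le_pow_left₀ (n := 2) (by norm_num) (by positivity) ?_
  calc (|x 0| * |x 1| * |x 2| * |x 3|) ^ 2 = |x 0| ^ 2 * |x 1| ^ 2 * |x 2| ^ 2 * |x 3| ^ 2 := by
        ring
    _ ≤ qq x * qq x * qq x * qq x := by gcongr
    _ = _ := by ring

/-- A function bounded by a multiple of `|y|^{-2β}` is integrable on balls, `β < 2`. -/
theorem integrableOn_of_qq {F : Type*} [NormedAddCommGroup F] {f : E 5 → F} {R C β : ℝ}
    (hβ : 0 ≤ β) (hβ2 : β < 2) (hf : AEStronglyMeasurable f (volume.restrict (Metric.ball 0 R)))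
    (hC : 0 ≤ C) (h : ∀ x : E 5, ‖x‖ < R → 0 < qq x → ‖f x‖ ≤ C * qq x ^ (-β)) :
    IntegrableOn f (Metric.ball (0 : E 5) R) := by
  have h1 : IntegrableOn (fun x => C * mj (β / 2) x) (Metric.ball (0 : E 5) R) :=
    (integrableOn_mj (by linarith) R).const_mul C
  refine Integrable.mono' h1 hf ?_
  filter_upwards [ae_restrict_mem measurableSet_ball, ae_restrict_of_ae (ae_coord_ne 0),
    ae_restrict_of_ae (ae_coord_ne 1), ae_restrict_of_ae (ae_coord_ne 2),
    ae_restrict_of_ae (ae_coord_ne 3)] with x hx c0 c1 c2 c3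
  have hq : 0 < qq x := by
    have : 0 < x 0 ^ 2 := by positivity
    unfold qq; positivity
  refine (h x (by simpa using hx) hq).trans ?_
  exact mul_le_mul_of_nonneg_left (qq_rpow_le c0 c1 c2 c3 hβ) hC

end Pool.Agent.LebSup
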