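import Mathlib
import Pool.Agent.LebSup.Integr

set_option autoImplicit false

open MeasureTheory Filter Topology Set Module
open scoped ContDiff RealInnerProductSpace

namespace Pool.Agent.LebSup

/-- A one-sided derivative test. -/
theorem deriv_nonpos_of_right {J : ℝ → ℝ} {J' : ℝ} (h : HasDerivAt J J' 1)
    (hJ : ∀ t, 1 < t → t < 3 / 2 → J t ≤ J 1) : J' ≤ 0 := by
  have h1 := h.hasDerivWithinAt (s := Ioi 1)
  rw [hasDerivWithinAt_iff_tendsto_slope' (by simp)] at h1
  refine le_of_tendsto h1 ?_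
  have h2 : ∀ᶠ t : ℝ in 𝓝[>] 1, t < 3 / 2 :=
    (eventually_lt_nhds (by norm_num : (1 : ℝ) < 3 / 2)).filter_mono nhdsWithin_le_nhds
  filter_upwards [self_mem_nhdsWithin, h2] with t ht ht2
  rw [slope_def_field]
  apply div_nonpos_of_nonpos_of_nonneg
  · linarith [hJ t ht ht2]
  · have : (1 : ℝ) < t := ht
    linarith

theorem integrable_mul_bdd {W ψ : E 5 → ℝ} (hWi : ∀ R, IntegrableOn W (Metric.ball (0 : E 5) R))
    (hψ : Continuous ψ) (hc : HasCompactSupport ψ) : Integrable (fun x => W x * ψ x) := by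
  obtain ⟨R, hR⟩ := hc.isCompact.isBounded.subset_ball 0
  obtain ⟨M, hM⟩ := hψ.bounded_above_of_compact_support hc
  have h1 : IntegrableOn (fun x => W x * ψ x) (Metric.ball (0 : E 5) R) :=
    (hWi R).mul_bdd hψ.aestronglyMeasurable (Eventually.of_forall hM)
  refine (integrableOn_iff_integrable_of_support_subset ?_).1 h1
  intro x hx
  apply hR
  by_contra hxK
  apply hx
  simp [image_eq_zero_of_notMem_tsupport hxK]

theorem weak_dil (P : E 5 →L[ℝ] E 5) (W : E 5 → ℝ) (hW0 : ∀ x, 0 ≤ W x)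
    (hWi : ∀ R, IntegrableOn W (Metric.ball (0 : E 5) R))
    (hδn : ∀ t : ℝ, |t - 1| < 1 / 2 → ∀ x : E 5, ‖x‖ ≤ 2 * ‖x + (t - 1) • P x‖)
    (φ : E 5 → ℝ) (hφ : ContDiff ℝ ∞ φ) (hc : HasCompactSupport φ)
    (hmono : ∀ t : ℝ, 1 < t → t < 3 / 2 →
      ∫ x, W x * φ (x + (t - 1) • P x) ≤ ∫ x, W x * φ x) :
    ∫ x, W x * fderiv ℝ φ x (P x) ≤ 0 := by
  obtain ⟨R, hR⟩ := hc.isCompact.isBounded.subset_ball 0
  obtain ⟨M, hM⟩ : ∃ M : ℝ, ∀ x, ‖fderiv ℝ φ x‖ ≤ M :=
    (hφ.continuous_fderiv (by simp)).bounded_above_of_compact_support (hc.fderiv ℝ)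
  have hM0 : 0 ≤ M := (norm_nonneg _).trans (hM 0)
  have hWm : AEStronglyMeasurable W volume := by
    have h1 : AEStronglyMeasurable W (volume.restrict (⋃ n : ℕ, Metric.ball (0 : E 5) n)) := by
      rw [aestronglyMeasurable_iUnion_iff]
      exact fun n => (hWi n).1
    rwa [Metric.iUnion_ball_nat, Measure.restrict_univ] at h1
  have hδc : ∀ t : ℝ, Continuous (fun x : E 5 => x + (t - 1) • P x) := fun t => by fun_prop
  have hder : HasDerivAt (fun t : ℝ => ∫ x, W x * φ (x + (t - 1) • P x))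
      (∫ x, W x * fderiv ℝ φ (x + ((1 : ℝ) - 1) • P x) (P x)) 1 := by
    refine (hasDerivAt_integral_of_dominated_loc_of_deriv_le (μ := (volume : Measure (E 5)))
      (F := fun t x => W x * φ (x + (t - 1) • P x))
      (F' := fun t x => W x * fderiv ℝ φ (x + (t - 1) • P x) (P x))
      (bound := (Metric.ball (0 : E 5) (2 * R)).indicator
        (fun x => W x * (M * (‖P‖ * (2 * R))))) (x₀ := (1 : ℝ)) (s := Metric.ball 1 (1 / 2))
      (Metric.ball_mem_nhds _ (by norm_num)) ?_ ?_ ?_ ?_ ?_ ?_).2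
    · exact Eventually.of_forall fun t =>
        hWm.mul (hφ.continuous.comp (hδc t)).aestronglyMeasurable
    · simp only [sub_self, zero_smul, add_zero]
      exact integrable_mul_bdd hWi hφ.continuous hc
    · refine hWm.mul ?_
      have : Continuous (fun x : E 5 => fderiv ℝ φ (x + ((1 : ℝ) - 1) • P x) (P x)) :=
        ((hφ.continuous_fderiv (by simp)).comp (hδc 1)).clm_apply P.continuous
      exact this.aestronglyMeasurable
    · refine Eventually.of_forall fun x t ht => ?_
      have ht' : |t - 1| < 1 / 2 := by simpa [Real.dist_eq] using ht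
      by_cases hx : x + (t - 1) • P x ∈ tsupport φ
      · have h1 : ‖x + (t - 1) • P x‖ < R := by simpa using hR hx
        have h2 : ‖x‖ < 2 * R := (hδn t ht' x).trans_lt (by linarith)
        rw [indicator_of_mem (by simpa using h2), norm_mul, Real.norm_of_nonneg (hW0 x)]
        apply mul_le_mul_of_nonneg_left _ (hW0 x)
        calc ‖fderiv ℝ φ (x + (t - 1) • P x) (P x)‖
            ≤ ‖fderiv ℝ φ (x + (t - 1) • P x)‖ * ‖P x‖ := ContinuousLinearMap.le_opNorm _ _
          _ ≤ M * (‖P‖ * (2 * R)) := by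
              gcongr
              · exact hM _
              · exact (P.le_opNorm x).trans (by gcongr)
      · have h1 : fderiv ℝ φ (x + (t - 1) • P x) = 0 := by
          by_contra hne
          exact hx (support_fderiv_subset ℝ hne)
        simp only [h1, _root_.zero_apply, mul_zero, norm_zero]
        by_cases h2 : x ∈ Metric.ball (0 : E 5) (2 * R)
        · rw [indicator_of_mem h2]
          have h3 : 0 ≤ 2 * R := by
            have : ‖x‖ < 2 * R := by simpa using h2
            linarith [norm_nonneg x]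
          have := hW0 x
          positivity
        · rw [indicator_of_notMem h2]
    · rw [integrable_indicator_iff measurableSet_ball]
      exact (hWi (2 * R)).mul_const _
    · refine Eventually.of_forall fun x t ht => ?_
      have h1 : HasDerivAt (fun t : ℝ => x + (t - 1) • P x) (P x) t := by
        have h2 : HasDerivAt (fun t : ℝ => (t - 1) • P x) ((1 : ℝ) • P x) t :=
          ((hasDerivAt_id t).sub_const 1).smul_const (P x)
        rw [one_smul] at h2
        exact h2.const_add x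
      have h3 : DifferentiableAt ℝ φ (x + (t - 1) • P x) := (hφ.differentiable (by simp)) _
      exact (h3.hasFDerivAt.comp_hasDerivAt t h1).const_mul (W x)
  simp only [sub_self, zero_smul, add_zero] at hder
  refine deriv_nonpos_of_right hder fun t ht1 ht2 => ?_
  have := hmono t ht1 ht2
  simpa using this

/-- full dilation -/
theorem weak_full (W : E 5 → ℝ) (hW0 : ∀ x, 0 ≤ W x)
    (hWi : ∀ R, IntegrableOn W (Metric.ball (0 : E 5) R))
    (hW : ∀ t : ℝ, 1 < t → ∀ x, W (t⁻¹ • x) ≤ t ^ 5 * W x)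
    (φ : E 5 → ℝ) (hφ : ContDiff ℝ ∞ φ) (hc : HasCompactSupport φ) (hφ0 : ∀ x, 0 ≤ φ x) :
    ∫ x, W x * fderiv ℝ φ x x ≤ 0 := by
  have h := weak_dil (ContinuousLinearMap.id ℝ (E 5)) W hW0 hWi ?_ φ hφ hc ?_
  · simpa using h
  · intro t ht x
    have h1 : x + (t - 1) • (ContinuousLinearMap.id ℝ (E 5)) x = t • x := by
      simp only [ContinuousLinearMap.id_apply, sub_smul, one_smul]; abel
    rw [h1, norm_smul, Real.norm_eq_abs]
    have h2 : 1 / 2 ≤ |t| := by
      rw [abs_lt] at ht
      rw [abs_of_pos (by linarith [ht.1])]; linarith [ht.1]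
    nlinarith [norm_nonneg x]
  · intro t ht1 ht2
    have h1 : ∀ x : E 5, x + (t - 1) • (ContinuousLinearMap.id ℝ (E 5)) x = t • x := by
      intro x
      simp only [ContinuousLinearMap.id_apply, sub_smul, one_smul]; abel
    simp_rw [h1]
    have ht0 : t ≠ 0 := by linarith
    have h2 : ∫ x, W x * φ (t • x) = ∫ x, (fun y => W (t⁻¹ • y) * φ y) (t • x) := by
      refine integral_congr_ae (Eventually.of_forall fun x => ?_)
      simp only [inv_smul_smul₀ ht0]
    rw [h2, Measure.integral_comp_smul volume (fun y => W (t⁻¹ • y) * φ y) t,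
      finrank_euclideanSpace_fin,
      abs_of_pos (by positivity), ← integral_smul]
    refine integral_mono_of_nonneg (Eventually.of_forall fun x => ?_)
      (integrable_mul_bdd hWi hφ.continuous hc) (Eventually.of_forall fun x => ?_)
    · simp only [Pi.zero_apply, smul_eq_mul]
      have := hW0 (t⁻¹ • x)
      have := hφ0 x
      positivity
    · simp only [smul_eq_mul]
      have h3 := hW t ht1 x
      have h4 := hφ0 x
      calc (t ^ 5)⁻¹ * (W (t⁻¹ • x) * φ x) ≤ (t ^ 5)⁻¹ * ((t ^ 5 * W x) * φ x) := by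
            gcongr
        _ = W x * φ x := by field_simp

/-- the projection `x ↦ (y, 0)` as a continuous linear map -/
noncomputable def yyL : E 5 →L[ℝ] E 5 :=
  ContinuousLinearMap.id ℝ (E 5) -
    (EuclideanSpace.proj (4 : Fin 5) : E 5 →L[ℝ] ℝ).smulRight e4

theorem yyL_apply (x : E 5) : yyL x = yy x := by
  simp [yyL, yy]

theorem e4_apply (i : Fin 5) : e4 i = if i = 4 then 1 else 0 := by
  rw [e4]; simp

theorem yy_apply (x : E 5) (i : Fin 5) : yy x i = if i = 4 then 0 else x i := by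
  rw [yy]
  simp only [PiLp.sub_apply, PiLp.smul_apply, e4_apply, smul_eq_mul]
  by_cases h : i = 4
  · simp [h]
  · simp [h]

/-- the horizontal dilation -/
noncomputable def dilL (t : ℝ) : E 5 →L[ℝ] E 5 :=
  ContinuousLinearMap.id ℝ (E 5) + (t - 1) • yyL

theorem dilL_apply (t : ℝ) (x : E 5) : dilL t x = x + (t - 1) • yy x := by
  simp [dilL, yyL_apply]

theorem dilL_coord (t : ℝ) (x : E 5) (i : Fin 5) : dilL t x i = (if i = 4 then 1 else t) * x i := by
  rw [dilL_apply]
  simp only [PiLp.add_apply, PiLp.smul_apply, yy_apply, smul_eq_mul]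
  by_cases h : i = 4
  · simp [h]
  · simp only [h, if_false]; ring

theorem dilL_comp (s t : ℝ) (x : E 5) : dilL s (dilL t x) = dilL (s * t) x := by
  ext i
  rw [dilL_coord, dilL_coord, dilL_coord]
  by_cases h : i = 4
  · simp [h]
  · simp only [h, if_false]; ring

theorem dilL_one (x : E 5) : dilL 1 x = x := by
  ext i
  rw [dilL_coord]; simp

theorem det_dilL (t : ℝ) : LinearMap.det (dilL t : E 5 →ₗ[ℝ] E 5) = t ^ 4 := by
  rw [← LinearMap.det_toMatrix (EuclideanSpace.basisFun (Fin 5) ℝ).toBasis]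
  have h : LinearMap.toMatrix (EuclideanSpace.basisFun (Fin 5) ℝ).toBasis
      (EuclideanSpace.basisFun (Fin 5) ℝ).toBasis (dilL t : E 5 →ₗ[ℝ] E 5) =
      Matrix.diagonal (fun i : Fin 5 => if i = 4 then 1 else t) := by
    ext i j
    rw [LinearMap.toMatrix_apply]
    simp only [OrthonormalBasis.coe_toBasis, EuclideanSpace.basisFun_apply,
      OrthonormalBasis.coe_toBasis_repr_apply, EuclideanSpace.basisFun_repr,
      ContinuousLinearMap.coe_coe, dilL_coord, PiLp.single_apply, Matrix.diagonal_apply]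
    by_cases hij : i = j
    · subst hij; simp
    · simp [hij]
  rw [h, Matrix.det_diagonal, Fin.prod_univ_five]
  have d0 : (0 : Fin 5) ≠ 4 := by decide
  have d1 : (1 : Fin 5) ≠ 4 := by decide
  have d2 : (2 : Fin 5) ≠ 4 := by decide
  have d3 : (3 : Fin 5) ≠ 4 := by decide
  simp only [if_neg d0, if_neg d1, if_neg d2, if_neg d3, if_true]
  ring

theorem integral_comp_dilL {t : ℝ} (ht : 0 < t) (f : E 5 → ℝ) :
    ∫ x, f (dilL t x) = (t ^ 4)⁻¹ * ∫ x, f x := by
  have hinv : Function.LeftInverse (dilL t⁻¹) (dilL t) := fun x => by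
    rw [dilL_comp, inv_mul_cancel₀ ht.ne', dilL_one]
  have hinv' : Function.RightInverse (dilL t⁻¹) (dilL t) := fun x => by
    rw [dilL_comp, mul_inv_cancel₀ ht.ne', dilL_one]
  let e : E 5 ≃ₜ E 5 :=
    { toFun := dilL t
      invFun := dilL t⁻¹
      left_inv := hinv
      right_inv := hinv'
      continuous_toFun := (dilL t).continuous
      continuous_invFun := (dilL t⁻¹).continuous }
  have h1 := (e.measurableEmbedding).integral_map (μ := (volume : Measure (E 5))) f
  have h2 : Measure.map e volume = ENNReal.ofReal |(t ^ 4)⁻¹| • (volume : Measure (E 5)) := by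
    have := Measure.map_linearMap_addHaar_eq_smul_addHaar (volume : Measure (E 5))
      (f := (dilL t : E 5 →ₗ[ℝ] E 5)) (by rw [det_dilL]; positivity)
    rw [det_dilL] at this
    exact this
  rw [h2, integral_smul_measure, abs_of_pos (by positivity), ENNReal.toReal_ofReal (by positivity),
    smul_eq_mul] at h1
  exact h1.symm

theorem norm_le_dilL {t : ℝ} (ht : |t - 1| < 1 / 2) (x : E 5) : ‖x‖ ≤ 2 * ‖dilL t x‖ := by
  rw [abs_lt] at ht
  have h1 : ‖x‖ ^ 2 ≤ (2 * ‖dilL t x‖) ^ 2 := by
    have hq : qq (dilL t x) = t ^ 2 * qq x := by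
      have d0 : (0 : Fin 5) ≠ 4 := by decide
      have d1 : (1 : Fin 5) ≠ 4 := by decide
      have d2 : (2 : Fin 5) ≠ 4 := by decide
      have d3 : (3 : Fin 5) ≠ 4 := by decide
      simp only [qq, dilL_coord, if_neg d0, if_neg d1, if_neg d2, if_neg d3]
      ring
    have h4 : dilL t x 4 = x 4 := by rw [dilL_coord]; simp
    rw [mul_pow, norm_sq, norm_sq, hq, h4]
    have h5 : 1 / 4 ≤ t ^ 2 := by nlinarith
    nlinarith [qq_nonneg x, sq_nonneg (x 4)]
  exact le_of_sq_le_sq h1 (by positivity)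

/-- horizontal dilation -/
theorem weak_horizontal (W : E 5 → ℝ) (hW0 : ∀ x, 0 ≤ W x)
    (hWi : ∀ R, IntegrableOn W (Metric.ball (0 : E 5) R))
    (hW : ∀ t : ℝ, 1 < t → ∀ x, W (dilL t⁻¹ x) ≤ t ^ 4 * W x)
    (φ : E 5 → ℝ) (hφ : ContDiff ℝ ∞ φ) (hc : HasCompactSupport φ) (hφ0 : ∀ x, 0 ≤ φ x) :
    ∫ x, W x * fderiv ℝ φ x (yy x) ≤ 0 := by
  have h := weak_dil yyL W hW0 hWi ?_ φ hφ hc ?_
  · simpa only [yyL_apply] using h
  · intro t ht x
    have := norm_le_dilL ht x
    rwa [dilL_apply, ← yyL_apply] at this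
  · intro t ht1 ht2
    have h1 : ∀ x : E 5, x + (t - 1) • yyL x = dilL t x := by
      intro x; rw [dilL_apply, yyL_apply]
    simp_rw [h1]
    have ht0 : 0 < t := by linarith
    have h2 : ∫ x, W x * φ (dilL t x) = ∫ x, (fun y => W (dilL t⁻¹ y) * φ y) (dilL t x) := by
      refine integral_congr_ae (Eventually.of_forall fun x => ?_)
      simp only [dilL_comp, inv_mul_cancel₀ ht0.ne', dilL_one]
    rw [h2, integral_comp_dilL ht0 (fun y => W (dilL t⁻¹ y) * φ y), ← integral_const_mul]
    refine integral_mono_of_nonneg (Eventually.of_forall fun x => ?_)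
      (integrable_mul_bdd hWi hφ.continuous hc) (Eventually.of_forall fun x => ?_)
    · simp only [Pi.zero_apply]
      have := hW0 (dilL t⁻¹ x)
      have := hφ0 x
      positivity
    · simp only
      have h3 := hW t ht1 x
      have h4 := hφ0 x
      calc (t ^ 4)⁻¹ * (W (dilL t⁻¹ x) * φ x) ≤ (t ^ 4)⁻¹ * ((t ^ 4 * W x) * φ x) := by
            gcongr
        _ = W x * φ x := by field_simp

end Pool.Agent.LebSup
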