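import Mathlib
import Pool.Agent.LebSup.Weak

set_option autoImplicit false

open MeasureTheory Filter Topology Set Module
open scoped ContDiff RealInnerProductSpace

namespace Pool.Agent.LebSup

theorem continuous_coord (i : Fin 5) : Continuous (fun x : E 5 => x i) := by fun_prop

theorem continuous_zt (ε : ℝ) : Continuous (zt ε) := by
  unfold zt; fun_prop

theorem continuous_qq : Continuous qq := by unfold qq; fun_prop

theorem continuous_dd (ε : ℝ) : Continuous (dd ε) := by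
  unfold dd
  exact ((continuous_zt ε).pow 5).add (continuous_qq.pow 2)

theorem continuous_yy : Continuous yy := by
  have : yy = yyL := by funext x; exact (yyL_apply x).symm
  rw [this]; exact yyL.continuous

noncomputable def W1 (x : E 5) : ℝ := zt 0 x ^ 3 / dd 0 x
noncomputable def W2 (x : E 5) : ℝ := zt 0 x ^ (10 / 3 : ℝ) / dd 0 x
noncomputable def W3 (x : E 5) : ℝ := 1 / ‖x‖

theorem measurable_W1 : Measurable W1 :=
  ((continuous_zt 0).measurable.pow_const 3).div (continuous_dd 0).measurable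

theorem measurable_W2 : Measurable W2 :=
  ((continuous_zt 0).measurable.pow_const _).div (continuous_dd 0).measurable

theorem measurable_W3 : Measurable W3 := measurable_const.div measurable_norm

theorem W1_nonneg (x : E 5) : 0 ≤ W1 x := by
  have := zt_nonneg 0 x
  have := dd_nonneg 0 x
  unfold W1; positivity

theorem W2_nonneg (x : E 5) : 0 ≤ W2 x := by
  have := zt_nonneg 0 x
  have := dd_nonneg 0 x
  unfold W2; positivity

theorem W3_nonneg (x : E 5) : 0 ≤ W3 x := by unfold W3; positivity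

theorem W1_le {x : E 5} (hq : 0 < qq x) : W1 x ≤ qq x ^ (-(4 / 5) : ℝ) := by
  obtain ⟨σ, hσ⟩ : ∃ σ, σ = qq x ^ (1 / 10 : ℝ) := ⟨_, rfl⟩
  have hσ0 : 0 < σ := by rw [hσ]; positivity
  have hσ10 : σ ^ 10 = qq x := by
    rw [hσ, ← Real.rpow_natCast, ← Real.rpow_mul hq.le]; norm_num
  have hσ8 : qq x ^ (-(4 / 5) : ℝ) = 1 / σ ^ 8 := by
    rw [hσ, ← Real.rpow_natCast, ← Real.rpow_mul hq.le, one_div, ← Real.rpow_neg hq.le]
    norm_num
  rw [hσ8, W1, div_le_div_iff₀ (dd_pos_of_qq hq) (by positivity), one_mul, dd]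
  have := poly1 (zt_nonneg 0 x) hσ0.le
  calc zt 0 x ^ 3 * σ ^ 8 ≤ zt 0 x ^ 5 + σ ^ 20 := this
    _ = zt 0 x ^ 5 + (σ ^ 10) ^ 2 := by ring
    _ = _ := by rw [hσ10]

theorem W1_int (R : ℝ) : IntegrableOn W1 (Metric.ball (0 : E 5) R) := by
  refine integrableOn_of_qq (C := 1) (β := 4 / 5) (by norm_num) (by norm_num)
    measurable_W1.aestronglyMeasurable zero_le_one fun x _ hq => ?_
  rw [Real.norm_of_nonneg (W1_nonneg x), one_mul]
  exact W1_le hq

theorem W2_int (R : ℝ) : IntegrableOn W2 (Metric.ball (0 : E 5) R) := by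
  refine integrableOn_of_qq (C := |R| ^ (1 / 3 : ℝ)) (β := 4 / 5) (by norm_num) (by norm_num)
    measurable_W2.aestronglyMeasurable (by positivity) fun x hx hq => ?_
  rw [Real.norm_of_nonneg (W2_nonneg x)]
  have hz := zt_nonneg 0 x
  have h1 : W2 x = zt 0 x ^ (1 / 3 : ℝ) * W1 x := by
    rw [W2, W1, ← mul_div_assoc]
    congr 1
    rcases hz.eq_or_lt with h | h
    · rw [← h]; norm_num
    · rw [← Real.rpow_natCast, ← Real.rpow_add h]; norm_num
  rw [h1]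
  have h2 : zt 0 x ≤ |R| := by
    rw [zt_zero]
    exact (abs_coord_le x 4).trans (hx.le.trans (le_abs_self R))
  exact mul_le_mul (Real.rpow_le_rpow hz h2 (by norm_num)) (W1_le hq) (W1_nonneg x)
    (by positivity)

theorem W3_int (R : ℝ) : IntegrableOn W3 (Metric.ball (0 : E 5) R) := by
  refine integrableOn_of_qq (C := 1) (β := 1 / 2) (by norm_num) (by norm_num)
    measurable_W3.aestronglyMeasurable zero_le_one fun x _ hq => ?_
  rw [Real.norm_of_nonneg (W3_nonneg x), one_mul, Real.rpow_neg hq.le, ← Real.sqrt_eq_rpow, W3,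
    one_div]
  apply inv_anti₀ (Real.sqrt_pos.2 hq)
  rw [Real.sqrt_le_left (norm_nonneg _), norm_sq]
  nlinarith [sq_nonneg (x 4)]

theorem zt_dilL (t : ℝ) (x : E 5) : zt 0 (dilL t x) = zt 0 x := by
  rw [zt, zt, dilL_coord]; simp

theorem qq_dilL (t : ℝ) (x : E 5) : qq (dilL t x) = t ^ 2 * qq x := by
  have d0 : (0 : Fin 5) ≠ 4 := by decide
  have d1 : (1 : Fin 5) ≠ 4 := by decide
  have d2 : (2 : Fin 5) ≠ 4 := by decide
  have d3 : (3 : Fin 5) ≠ 4 := by decide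
  simp only [qq, dilL_coord, if_neg d0, if_neg d1, if_neg d2, if_neg d3]
  ring

theorem zt_smul {t : ℝ} (ht : 0 ≤ t) (x : E 5) : zt 0 (t • x) = t * zt 0 x := by
  rw [zt_zero, zt_zero, PiLp.smul_apply, smul_eq_mul, abs_mul, abs_of_nonneg ht]

theorem qq_smul (t : ℝ) (x : E 5) : qq (t • x) = t ^ 2 * qq x := by
  simp only [qq, PiLp.smul_apply, smul_eq_mul]; ring

theorem dd_zero_zero : dd 0 (0 : E 5) = 0 := by
  simp [dd, zt, qq]

theorem W1_dil (t : ℝ) (ht : 1 < t) (x : E 5) : W1 (dilL t⁻¹ x) ≤ t ^ 4 * W1 x := by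
  rcases eq_or_ne x 0 with rfl | hx
  · rw [map_zero, W1, dd_zero_zero]; simp
  have hD := dd_pos_of_ne hx
  have hz := zt_nonneg 0 x
  have ht0 : 0 < t := by linarith
  have hd : dd 0 (dilL t⁻¹ x) = zt 0 x ^ 5 + (t⁻¹) ^ 4 * qq x ^ 2 := by
    rw [dd, zt_dilL, qq_dilL]; ring
  have hle : (t⁻¹) ^ 4 * dd 0 x ≤ dd 0 (dilL t⁻¹ x) := by
    rw [hd, dd, mul_add]
    have : (t⁻¹) ^ 4 ≤ 1 := pow_le_one₀ (by positivity) (inv_le_one_of_one_le₀ ht.le)
    have : (t⁻¹) ^ 4 * zt 0 x ^ 5 ≤ 1 * zt 0 x ^ 5 := by gcongr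
    linarith
  rw [W1, W1, zt_dilL]
  calc zt 0 x ^ 3 / dd 0 (dilL t⁻¹ x) ≤ zt 0 x ^ 3 / ((t⁻¹) ^ 4 * dd 0 x) := by
        apply div_le_div_of_nonneg_left (by positivity) (by positivity) hle
    _ = t ^ 4 * (zt 0 x ^ 3 / dd 0 x) := by field_simp

theorem W2_dil (t : ℝ) (ht : 1 < t) (x : E 5) : W2 (t⁻¹ • x) ≤ t ^ 5 * W2 x := by
  rcases eq_or_ne x 0 with rfl | hx
  · rw [smul_zero, W2, dd_zero_zero]; simp
  have hD := dd_pos_of_ne hx
  have hz := zt_nonneg 0 x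
  have ht0 : 0 < t := by linarith
  have ht1 : t⁻¹ ≤ 1 := inv_le_one_of_one_le₀ ht.le
  have hd : dd 0 (t⁻¹ • x) = (t⁻¹) ^ 5 * zt 0 x ^ 5 + (t⁻¹) ^ 4 * qq x ^ 2 := by
    rw [dd, zt_smul (by positivity), qq_smul]; ring
  have hle : (t⁻¹) ^ 5 * dd 0 x ≤ dd 0 (t⁻¹ • x) := by
    rw [hd, dd, mul_add]
    have : (t⁻¹) ^ 5 ≤ (t⁻¹) ^ 4 := pow_le_pow_of_le_one (by positivity) ht1 (by norm_num)
    have : (t⁻¹) ^ 5 * qq x ^ 2 ≤ (t⁻¹) ^ 4 * qq x ^ 2 := by gcongr
    linarith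
  rw [W2, W2, zt_smul (by positivity)]
  have h1 : (t⁻¹ * zt 0 x) ^ (10 / 3 : ℝ) ≤ zt 0 x ^ (10 / 3 : ℝ) := by
    apply Real.rpow_le_rpow (by positivity) _ (by norm_num)
    nlinarith
  calc (t⁻¹ * zt 0 x) ^ (10 / 3 : ℝ) / dd 0 (t⁻¹ • x)
      ≤ zt 0 x ^ (10 / 3 : ℝ) / ((t⁻¹) ^ 5 * dd 0 x) := by
        apply div_le_div₀ (by positivity) h1 (by positivity) hle
    _ = t ^ 5 * (zt 0 x ^ (10 / 3 : ℝ) / dd 0 x) := by field_simp

theorem W3_dil (t : ℝ) (ht : 1 < t) (x : E 5) : W3 (t⁻¹ • x) ≤ t ^ 5 * W3 x := by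
  have ht0 : 0 < t := by linarith
  rw [W3, W3, norm_smul, Real.norm_of_nonneg (by positivity)]
  have : 1 / (t⁻¹ * ‖x‖) = t * (1 / ‖x‖) := by
    rcases eq_or_ne ‖x‖ 0 with h | h
    · rw [h]; simp
    · field_simp
  rw [this]
  have h1 : t ≤ t ^ 5 := le_self_pow₀ ht.le (by norm_num)
  have : 0 ≤ 1 / ‖x‖ := by positivity
  gcongr

theorem gg_eq (x : E 5) : gg x = W1 x • yy x + W2 x • x + W3 x • x := rfl

theorem flux_weak (φ : E 5 → ℝ) (hφ : ContDiff ℝ ∞ φ) (hc : HasCompactSupport φ)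
    (hφ0 : ∀ x, 0 ≤ φ x) :
    Integrable (fun x => ⟪gg x, gradient φ x⟫) ∧ ∫ x, ⟪gg x, gradient φ x⟫ ≤ 0 := by
  have e : ∀ x, ⟪gg x, gradient φ x⟫ = W1 x * fderiv ℝ φ x (yy x) + W2 x * fderiv ℝ φ x x +
      W3 x * fderiv ℝ φ x x := by
    intro x
    rw [real_inner_comm, inner_gradient_left, gg_eq, map_add, map_add, map_smul, map_smul,
      map_smul]
    simp only [smul_eq_mul]
  have hfc : Continuous (fderiv ℝ φ) := hφ.continuous_fderiv (by simp)
  have hs : HasCompactSupport (fderiv ℝ φ) := hc.fderiv ℝ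
  have c1 : Continuous (fun x => fderiv ℝ φ x (yy x)) := hfc.clm_apply continuous_yy
  have c2 : Continuous (fun x => fderiv ℝ φ x x) := hfc.clm_apply continuous_id
  have s1 : HasCompactSupport (fun x => fderiv ℝ φ x (yy x)) := by
    refine hs.mono (fun x hx => ?_)
    rw [Function.mem_support] at hx ⊢
    intro h; apply hx; rw [h]; simp
  have s2 : HasCompactSupport (fun x => fderiv ℝ φ x x) := by
    refine hs.mono (fun x hx => ?_)
    rw [Function.mem_support] at hx ⊢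
    intro h; apply hx; rw [h]; simp
  have i1 := integrable_mul_bdd W1_int c1 s1
  have i2 := integrable_mul_bdd W2_int c2 s2
  have i3 := integrable_mul_bdd W3_int c2 s2
  simp_rw [e]
  refine ⟨(i1.add i2).add i3, ?_⟩
  have h1 := weak_horizontal W1 W1_nonneg W1_int W1_dil φ hφ hc hφ0
  have h2 := weak_full W2 W2_nonneg W2_int W2_dil φ hφ hc hφ0
  have h3 := weak_full W3 W3_nonneg W3_int W3_dil φ hφ hc hφ0
  have h4 : ∫ x, (W1 x * fderiv ℝ φ x (yy x) + W2 x * fderiv ℝ φ x x + W3 x * fderiv ℝ φ x x) =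
      (∫ x, W1 x * fderiv ℝ φ x (yy x)) + (∫ x, W2 x * fderiv ℝ φ x x) +
        ∫ x, W3 x * fderiv ℝ φ x x := by
    rw [← integral_add i1 i2]
    exact integral_add (i1.add i2) i3
  rw [h4]; linarith

end Pool.Agent.LebSup
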