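import Mathlib

set_option autoImplicit false

open Filter Topology Set
open scoped RealInnerProductSpace

namespace Pool.Agent.LebSup

section Psi

variable {F : Type*} [NormedAddCommGroup F] [InnerProductSpace ℝ F]

/-- The duality map `v ↦ ‖v‖^{p-2} v`. -/
noncomputable def psi (p : ℝ) (v : F) : F := (‖v‖ ^ (p - 2)) • v

theorem psi_zero (p : ℝ) : psi p (0 : F) = 0 := by simp [psi]

theorem psi_neg (p : ℝ) (v : F) : psi p (-v) = - psi p v := by simp [psi]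

theorem norm_psi {p : ℝ} (hp : 1 < p) (v : F) : ‖psi p v‖ = ‖v‖ ^ (p - 1) := by
  rcases eq_or_ne v 0 with rfl | hv
  · simp only [psi_zero, norm_zero]
    rw [Real.zero_rpow (by linarith)]
  · have hv' : 0 < ‖v‖ := norm_pos_iff.2 hv
    rw [psi, norm_smul, Real.norm_of_nonneg (Real.rpow_nonneg hv'.le _)]
    nth_rewrite 2 [← Real.rpow_one ‖v‖]
    rw [← Real.rpow_add hv']
    congr 1; ring

theorem inner_psi_self {p : ℝ} (hp : 1 < p) (v : F) : ⟪psi p v, v⟫ = ‖v‖ ^ p := by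
  rcases eq_or_ne v 0 with rfl | hv
  · simp only [psi_zero, norm_zero, inner_zero_left]
    rw [Real.zero_rpow (by linarith)]
  · have hv' : 0 < ‖v‖ := norm_pos_iff.2 hv
    rw [psi, real_inner_smul_left, real_inner_self_eq_norm_sq]
    rw [← Real.rpow_natCast ‖v‖ 2, ← Real.rpow_add hv']
    congr 1; norm_num

theorem psi_smul {p : ℝ} (v : F) (t : ℝ) : psi p (t • v) = (t * |t| ^ (p - 2)) • psi p v := by
  rw [psi, psi, norm_smul, Real.mul_rpow (norm_nonneg _) (norm_nonneg _), smul_smul, smul_smul,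
    Real.norm_eq_abs]
  congr 1; ring

theorem continuous_psi {p : ℝ} (hp : 1 < p) : Continuous (psi p : F → F) := by
  rw [continuous_iff_continuousAt]
  intro v
  rcases eq_or_ne v 0 with rfl | hv
  · rw [ContinuousAt, psi_zero, tendsto_zero_iff_norm_tendsto_zero]
    simp_rw [norm_psi hp]
    have : Continuous (fun v : F => ‖v‖ ^ (p - 1)) :=
      continuous_norm.rpow_const (fun _ => Or.inr (by linarith))
    have h := this.tendsto (0 : F)
    simpa [Real.zero_rpow (by linarith : p - 1 ≠ 0)] using h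
  · refine ContinuousAt.smul ?_ continuousAt_id
    exact (continuous_norm.continuousAt).rpow_const (Or.inl (norm_ne_zero_iff.2 hv))

theorem psi_mono {p : ℝ} (hp : 1 < p) (v w : F) : 0 ≤ ⟪psi p v - psi p w, v - w⟫ := by
  have h1 : ⟪psi p v, w⟫ ≤ ‖v‖ ^ (p - 1) * ‖w‖ := by
    rw [← norm_psi hp]; exact real_inner_le_norm _ _
  have h2 : ⟪psi p w, v⟫ ≤ ‖w‖ ^ (p - 1) * ‖v‖ := by
    rw [← norm_psi hp]; exact real_inner_le_norm _ _
  have h3 : ⟪psi p v, v⟫ = ‖v‖ ^ (p - 1) * ‖v‖ := by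
    rw [inner_psi_self hp]
    rcases eq_or_ne v 0 with rfl | hv
    · simp [Real.zero_rpow (by linarith : p ≠ 0)]
    · nth_rewrite 3 [← Real.rpow_one ‖v‖]
      rw [← Real.rpow_add (norm_pos_iff.2 hv)]; congr 1; ring
  have h4 : ⟪psi p w, w⟫ = ‖w‖ ^ (p - 1) * ‖w‖ := by
    rw [inner_psi_self hp]
    rcases eq_or_ne w 0 with rfl | hv
    · simp [Real.zero_rpow (by linarith : p ≠ 0)]
    · nth_rewrite 3 [← Real.rpow_one ‖w‖]
      rw [← Real.rpow_add (norm_pos_iff.2 hv)]; congr 1; ring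
  have h5 : 0 ≤ (‖v‖ ^ (p - 1) - ‖w‖ ^ (p - 1)) * (‖v‖ - ‖w‖) := by
    rcases le_total ‖v‖ ‖w‖ with h | h
    · have := Real.rpow_le_rpow (norm_nonneg _) h (by linarith : 0 ≤ p - 1)
      nlinarith
    · have := Real.rpow_le_rpow (norm_nonneg _) h (by linarith : 0 ≤ p - 1)
      nlinarith
  rw [inner_sub_left, inner_sub_right, inner_sub_right, h3, h4]
  nlinarith

theorem psi_strictMono {p : ℝ} (hp : 1 < p) {v w : F} (h : v ≠ w) :
    0 < ⟪psi p v - psi p w, v - w⟫ := by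
  refine lt_of_le_of_ne (psi_mono hp v w) fun h0 => h ?_
  -- equality case
  have h1 : ⟪psi p v, w⟫ ≤ ‖v‖ ^ (p - 1) * ‖w‖ := by
    rw [← norm_psi hp]; exact real_inner_le_norm _ _
  have h2 : ⟪psi p w, v⟫ ≤ ‖w‖ ^ (p - 1) * ‖v‖ := by
    rw [← norm_psi hp]; exact real_inner_le_norm _ _
  have hself : ∀ v : F, ⟪psi p v, v⟫ = ‖v‖ ^ (p - 1) * ‖v‖ := by
    intro v
    rw [inner_psi_self hp]
    rcases eq_or_ne v 0 with rfl | hv
    · simp [Real.zero_rpow (by linarith : p ≠ 0)]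
    · nth_rewrite 3 [← Real.rpow_one ‖v‖]
      rw [← Real.rpow_add (norm_pos_iff.2 hv)]; congr 1; ring
  have h3 := hself v
  have h4 := hself w
  have hnorm : ‖v‖ = ‖w‖ := by
    by_contra hne
    have h5 : 0 < (‖v‖ ^ (p - 1) - ‖w‖ ^ (p - 1)) * (‖v‖ - ‖w‖) := by
      rcases lt_or_gt_of_ne hne with h | h
      · have := Real.rpow_lt_rpow (norm_nonneg _) h (by linarith : 0 < p - 1)
        nlinarith
      · have := Real.rpow_lt_rpow (norm_nonneg _) h (by linarith : 0 < p - 1)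
        nlinarith
    rw [inner_sub_left, inner_sub_right, inner_sub_right, h3, h4] at h0
    nlinarith
  rcases eq_or_ne v 0 with rfl | hv
  · rw [norm_zero] at hnorm
    exact (norm_eq_zero.1 hnorm.symm).symm
  · have hpos : 0 < ‖v‖ ^ (p - 2) := Real.rpow_pos_of_pos (norm_pos_iff.2 hv) _
    have : psi p v - psi p w = (‖v‖ ^ (p - 2)) • (v - w) := by
      rw [psi, psi, ← hnorm, smul_sub]
    rw [this, real_inner_smul_left, real_inner_self_eq_norm_sq] at h0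
    have h6 : ‖v - w‖ ^ 2 = 0 := by
      rcases mul_eq_zero.1 h0.symm with h | h
      · exact absurd h hpos.ne'
      · exact h
    have h7 : ‖v - w‖ = 0 := by simpa using h6
    exact sub_eq_zero.1 (norm_eq_zero.1 h7)

end Psi

section Op

variable {F : Type*} [NormedAddCommGroup F] [InnerProductSpace ℝ F]

/-- The component of `h` orthogonal to `a`. -/
noncomputable def perp (a h : F) : F := h - (⟪a, h⟫ / ‖a‖ ^ 2) • a

theorem inner_perp {a : F} (ha : a ≠ 0) (h : F) : ⟪a, perp a h⟫ = 0 := by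
  have : ‖a‖ ^ 2 ≠ 0 := pow_ne_zero _ (norm_ne_zero_iff.2 ha)
  rw [perp, inner_sub_right, real_inner_smul_right, real_inner_self_eq_norm_sq]
  field_simp
  ring

theorem inner_perp_perp {a : F} (ha : a ≠ 0) (h k : F) : ⟪perp a h, k⟫ = ⟪perp a h, perp a k⟫ := by
  conv_rhs => rw [perp.eq_def a k]
  rw [inner_sub_right, real_inner_smul_right, real_inner_comm a (perp a h),
    inner_perp ha, mul_zero, sub_zero]

theorem perp_smul (a h : F) (t : ℝ) : perp a (t • h) = t • perp a h := by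
  rw [perp, perp, real_inner_smul_right, smul_sub, smul_smul]
  congr 2; ring

theorem perp_sub (a h k : F) : perp a (h - k) = perp a h - perp a k := by
  rw [perp, perp, perp, inner_sub_right, sub_div, sub_smul]
  abel

theorem perp_self {a : F} (ha : a ≠ 0) : perp a a = 0 := by
  have : ‖a‖ ^ 2 ≠ 0 := pow_ne_zero _ (norm_ne_zero_iff.2 ha)
  rw [perp, real_inner_self_eq_norm_sq, div_self this, one_smul, sub_self]

theorem norm_perp_le {a : F} (ha : a ≠ 0) (h : F) : ‖perp a h‖ ≤ ‖h‖ := by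
  have h1 : ‖perp a h‖ ^ 2 = ⟪perp a h, h⟫ := by
    rw [inner_perp_perp ha, real_inner_self_eq_norm_sq]
  have h2 : ⟪perp a h, h⟫ ≤ ‖perp a h‖ * ‖h‖ := real_inner_le_norm _ _
  by_contra hlt
  push Not at hlt
  have : 0 < ‖perp a h‖ := lt_of_le_of_lt (norm_nonneg _) hlt
  nlinarith

/-- The operator with `opA p a b (-a) = -b`. -/
noncomputable def opA (p : ℝ) (a b h : F) : F :=
  (‖b‖ ^ p / ⟪a, b⟫ ^ (p - 1)) • psi p (⟪b, h⟫ / ‖b‖) • ((1 / ‖b‖) • b) + psi p (perp a h)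

theorem opA_apply_neg {p : ℝ} (hp : 1 < p) {a b : F} (hab : 0 < ⟪a, b⟫) :
    opA p a b (-a) = -b := by
  have ha : a ≠ 0 := by rintro rfl; simp at hab
  have hb : b ≠ 0 := by rintro rfl; simp at hab
  have hb' : 0 < ‖b‖ := norm_pos_iff.2 hb
  have h1 : perp a (-a) = 0 := by
    have := perp_smul a a (-1)
    rw [neg_one_smul, perp_self ha, smul_zero] at this
    exact this
  rw [opA, h1, psi_zero, add_zero, inner_neg_right, real_inner_comm a b, neg_div, psi_neg,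
    neg_smul, smul_neg, smul_smul, smul_smul]
  have h2 : psi p (⟪a, b⟫ / ‖b‖) = (⟪a, b⟫ / ‖b‖) ^ (p - 1) := by
    have h3 : 0 < ⟪a, b⟫ / ‖b‖ := div_pos hab hb'
    rw [psi, smul_eq_mul, Real.norm_of_nonneg h3.le]
    nth_rewrite 2 [← Real.rpow_one (⟪a, b⟫ / ‖b‖)]
    rw [← Real.rpow_add h3]; congr 1; ring
  rw [h2, Real.div_rpow hab.le hb'.le]
  have h4 : ‖b‖ ^ p = ‖b‖ ^ (p - 1) * ‖b‖ := by
    nth_rewrite 3 [← Real.rpow_one ‖b‖]
    rw [← Real.rpow_add hb']; congr 1; ring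
  have h5 : 0 < ‖b‖ ^ (p - 1) := Real.rpow_pos_of_pos hb' _
  have h6 : 0 < ⟪a, b⟫ ^ (p - 1) := Real.rpow_pos_of_pos hab _
  have : ‖b‖ ^ p / ⟪a, b⟫ ^ (p - 1) * (⟪a, b⟫ ^ (p - 1) / ‖b‖ ^ (p - 1)) * (1 / ‖b‖) = 1 := by
    rw [h4]; field_simp
  rw [this, one_smul]

theorem continuous_opA {p : ℝ} (hp : 1 < p) (a b : F) : Continuous (opA p a b) := by
  unfold opA
  refine Continuous.add ?_ ((continuous_psi hp).comp ?_)
  · refine Continuous.const_smul (Continuous.smul ((continuous_psi hp).comp ?_)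
      continuous_const) _
    fun_prop
  · unfold perp; fun_prop

theorem opA_smul {p : ℝ} (a b h : F) (t : ℝ) :
    opA p a b (t • h) = (t * |t| ^ (p - 2)) • opA p a b h := by
  rw [opA, opA, perp_smul, psi_smul, real_inner_smul_right, mul_div_assoc, ← smul_eq_mul t,
    psi_smul, smul_add, smul_assoc (t * |t| ^ (p - 2))]
  congr 1
  rw [smul_comm]

theorem inner_opA {p : ℝ} {a : F} (ha : a ≠ 0) (b h k : F) :
    ⟪opA p a b h, k⟫ = (‖b‖ ^ p / ⟪a, b⟫ ^ (p - 1)) * (psi p (⟪b, h⟫ / ‖b‖) * (⟪b, k⟫ / ‖b‖)) +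
      ⟪psi p (perp a h), perp a k⟫ := by
  have : ⟪psi p (perp a h), k⟫ = ⟪psi p (perp a h), perp a k⟫ := by
    rw [psi, real_inner_smul_left, real_inner_smul_left, inner_perp_perp ha]
  rw [opA, inner_add_left, this, real_inner_smul_left, real_inner_smul_left, real_inner_smul_left]
  congr 1; ring

theorem opA_strictMono {p : ℝ} (hp : 1 < p) {a b : F} (hab : 0 < ⟪a, b⟫) {h k : F} (hne : h ≠ k) :
    0 < ⟪opA p a b h - opA p a b k, h - k⟫ := by
  have ha : a ≠ 0 := by rintro rfl; simp at hab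
  have hb : b ≠ 0 := by rintro rfl; simp at hab
  have hb' : 0 < ‖b‖ := norm_pos_iff.2 hb
  have hl : 0 < ‖b‖ ^ p / ⟪a, b⟫ ^ (p - 1) :=
    div_pos (Real.rpow_pos_of_pos hb' _) (Real.rpow_pos_of_pos hab _)
  have key : ⟪opA p a b h - opA p a b k, h - k⟫ =
      (‖b‖ ^ p / ⟪a, b⟫ ^ (p - 1)) * ⟪psi p (⟪b, h⟫ / ‖b‖) - psi p (⟪b, k⟫ / ‖b‖),
        ⟪b, h⟫ / ‖b‖ - ⟪b, k⟫ / ‖b‖⟫ +
      ⟪psi p (perp a h) - psi p (perp a k), perp a h - perp a k⟫ := by
    rw [inner_sub_left, inner_opA ha, inner_opA ha, perp_sub, inner_sub_left (psi p (perp a h)),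
      inner_sub_right b]
    simp only [sub_div, inner_sub_right, RCLike.inner_apply, conj_trivial]
    ring
  rw [key]
  have h1 := psi_mono hp (⟪b, h⟫ / ‖b‖) (⟪b, k⟫ / ‖b‖)
  have h2 := psi_mono hp (perp a h) (perp a k)
  by_cases hc : perp a h = perp a k
  · have hd : ⟪b, h⟫ / ‖b‖ ≠ ⟪b, k⟫ / ‖b‖ := by
      intro he
      apply hne
      have h3 : perp a (h - k) = 0 := by rw [perp_sub, hc, sub_self]
      have h4 : h - k = (⟪a, h - k⟫ / ‖a‖ ^ 2) • a := by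
        rw [perp, sub_eq_zero] at h3; exact h3
      have h5 : ⟪b, h - k⟫ = 0 := by
        rw [inner_sub_right, sub_eq_zero]
        field_simp at he
        exact he
      rw [h4, real_inner_smul_right, real_inner_comm a b] at h5
      rcases mul_eq_zero.1 h5 with h6 | h6
      · rw [h6, zero_smul] at h4
        exact sub_eq_zero.1 h4
      · exact absurd h6 hab.ne'
    have h3 := psi_strictMono hp hd
    have := mul_pos hl h3
    linarith
  · have h3 := psi_strictMono hp hc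
    have := mul_nonneg hl.le h1
    linarith

/-- Bounds for `opA` from comparability of `a` and `b`. -/
theorem opA_bounds {p : ℝ} (hp : 1 < p) {c C : ℝ} (hc : 0 < c) (hC : 0 < C) :
    ∃ α β : ℝ, 0 < α ∧ α ≤ β ∧ ∀ a b : F, 0 < ‖a‖ → c * ‖a‖ ^ p ≤ ⟪a, b⟫ →
      ‖b‖ ≤ C * ‖a‖ ^ (p - 1) → ∀ h : F,
      α * ‖h‖ ^ p ≤ ⟪opA p a b h, h⟫ ∧ ‖opA p a b h‖ ≤ β * ‖h‖ ^ (p - 1) := by
  -- `lam = ‖b‖^p / ⟨a,b⟩^{p-1}` lies between `c` and `C * (C/c)^{p-1}`
  obtain ⟨α, hα⟩ : ∃ α : ℝ, α = min c 1 / (2 * (1 + 1 / (c / C))) ^ p := ⟨_, rfl⟩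
  have hcC : 0 < c / C := div_pos hc hC
  have hα0 : 0 < α := by rw [hα]; positivity
  refine ⟨α, max α (C ^ p / c ^ (p - 1) + 1), hα0, le_max_left _ _, ?_⟩
  intro a b ha hab hb h
  have ha' : a ≠ 0 := norm_pos_iff.1 ha
  have hap : 0 < ‖a‖ ^ p := Real.rpow_pos_of_pos ha _
  have hab' : 0 < ⟪a, b⟫ := lt_of_lt_of_le (mul_pos hc hap) hab
  have hb0 : b ≠ 0 := by rintro rfl; simp at hab'
  have hb' : 0 < ‖b‖ := norm_pos_iff.2 hb0
  have hsplit : ‖a‖ ^ p = ‖a‖ ^ (p - 1) * ‖a‖ := by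
    nth_rewrite 3 [← Real.rpow_one ‖a‖]
    rw [← Real.rpow_add ha]; congr 1; ring
  have hsplitb : ‖b‖ ^ p = ‖b‖ ^ (p - 1) * ‖b‖ := by
    nth_rewrite 3 [← Real.rpow_one ‖b‖]
    rw [← Real.rpow_add hb']; congr 1; ring
  have hap1 : 0 < ‖a‖ ^ (p - 1) := Real.rpow_pos_of_pos ha _
  have hcs : ⟪a, b⟫ ≤ ‖a‖ * ‖b‖ := real_inner_le_norm _ _
  obtain ⟨lam, hlam⟩ : ∃ lam : ℝ, lam = ‖b‖ ^ p / ⟪a, b⟫ ^ (p - 1) := ⟨_, rfl⟩
  -- lower bound of lam
  have hbl : c * ‖a‖ ^ (p - 1) ≤ ‖b‖ := by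
    have : c * ‖a‖ ^ (p - 1) * ‖a‖ ≤ ‖b‖ * ‖a‖ := by
      calc c * ‖a‖ ^ (p - 1) * ‖a‖ = c * ‖a‖ ^ p := by rw [hsplit]; ring
        _ ≤ ⟪a, b⟫ := hab
        _ ≤ ‖b‖ * ‖a‖ := by linarith [mul_comm ‖a‖ ‖b‖]
    exact le_of_mul_le_mul_right this ha
  have hlam1 : c ≤ lam := by
    rw [hlam, le_div_iff₀ (Real.rpow_pos_of_pos hab' _), hsplitb]
    calc c * ⟪a, b⟫ ^ (p - 1) ≤ c * (‖a‖ * ‖b‖) ^ (p - 1) := by
          apply mul_le_mul_of_nonneg_left _ hc.le
          exact Real.rpow_le_rpow hab'.le hcs (by linarith)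
      _ = ‖b‖ ^ (p - 1) * (c * ‖a‖ ^ (p - 1)) := by
          rw [Real.mul_rpow ha.le hb'.le]; ring
      _ ≤ ‖b‖ ^ (p - 1) * ‖b‖ := by
          apply mul_le_mul_of_nonneg_left hbl (Real.rpow_nonneg hb'.le _)
  have hlam2 : lam ≤ C ^ p / c ^ (p - 1) := by
    rw [hlam, div_le_div_iff₀ (Real.rpow_pos_of_pos hab' _) (Real.rpow_pos_of_pos hc _)]
    have h1 : ‖b‖ ^ p ≤ (C * ‖a‖ ^ (p - 1)) ^ p := Real.rpow_le_rpow hb'.le hb (by linarith)
    have h2 : (c * ‖a‖ ^ p) ^ (p - 1) ≤ ⟪a, b⟫ ^ (p - 1) :=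
      Real.rpow_le_rpow (by positivity) hab (by linarith)
    calc ‖b‖ ^ p * c ^ (p - 1) ≤ (C * ‖a‖ ^ (p - 1)) ^ p * c ^ (p - 1) := by
          apply mul_le_mul_of_nonneg_right h1 (Real.rpow_nonneg hc.le _)
      _ = C ^ p * (c * ‖a‖ ^ p) ^ (p - 1) := by
          rw [Real.mul_rpow hC.le hap1.le, Real.mul_rpow hc.le hap.le, ← Real.rpow_mul ha.le,
            ← Real.rpow_mul ha.le, mul_comm (p - 1) p]
          ring
      _ ≤ C ^ p * ⟪a, b⟫ ^ (p - 1) := by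
          apply mul_le_mul_of_nonneg_left h2 (Real.rpow_nonneg hC.le _)
  have hlam0 : 0 < lam := lt_of_lt_of_le hc hlam1
  -- the two scalar quantities
  obtain ⟨t, ht⟩ : ∃ t : ℝ, t = ⟪b, h⟫ / ‖b‖ := ⟨_, rfl⟩
  obtain ⟨s, hs⟩ : ∃ s : ℝ, s = ‖perp a h‖ := ⟨_, rfl⟩
  have hs0 : 0 ≤ s := by rw [hs]; exact norm_nonneg _
  have hin : ⟪opA p a b h, h⟫ = lam * |t| ^ p + s ^ p := by
    rw [inner_opA ha', ← hlam, ← ht, inner_psi_self hp, ← hs]
    have : psi p t * t = |t| ^ p := by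
      have := inner_psi_self hp t
      simpa [RCLike.inner_apply, mul_comm] using this
    rw [this]
  constructor
  · -- lower bound
    have hh : ‖h‖ ≤ (1 + 1 / (c / C)) * (|t| + s) := by
      obtain ⟨τ, hτ⟩ : ∃ τ : ℝ, τ = ⟪a, h⟫ / ‖a‖ ^ 2 := ⟨_, rfl⟩
      have e1 : h = perp a h + τ • a := by rw [perp, hτ]; abel
      have e2 : ‖h‖ ≤ s + |τ| * ‖a‖ := by
        calc ‖h‖ = ‖perp a h + τ • a‖ := by rw [← e1]
          _ ≤ s + |τ| * ‖a‖ := by
            rw [hs]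
            refine (norm_add_le _ _).trans ?_
            rw [norm_smul, Real.norm_eq_abs]
      have e3 : |τ| * (⟪a, b⟫ / ‖b‖) ≤ |t| + s := by
        have e4 : t = ⟪b, perp a h⟫ / ‖b‖ + τ * (⟪a, b⟫ / ‖b‖) := by
          rw [ht]
          conv_lhs => rw [e1]
          rw [inner_add_right, real_inner_smul_right, real_inner_comm a b]
          ring
        have e5 : |⟪b, perp a h⟫ / ‖b‖| ≤ s := by
          rw [abs_div, abs_of_pos hb', div_le_iff₀ hb', hs, mul_comm]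
          exact abs_real_inner_le_norm _ _
        have e6 : |τ * (⟪a, b⟫ / ‖b‖)| = |τ| * (⟪a, b⟫ / ‖b‖) := by
          rw [abs_mul, abs_of_pos (div_pos hab' hb')]
        rw [← e6]
        have e7 : τ * (⟪a, b⟫ / ‖b‖) = t - ⟪b, perp a h⟫ / ‖b‖ := by rw [e4]; ring
        rw [e7]
        calc |t - ⟪b, perp a h⟫ / ‖b‖| ≤ |t| + |⟪b, perp a h⟫ / ‖b‖| := abs_sub _ _
          _ ≤ |t| + s := by linarith
      have e8 : (c / C) * ‖a‖ ≤ ⟪a, b⟫ / ‖b‖ := by
        rw [le_div_iff₀ hb']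
        calc c / C * ‖a‖ * ‖b‖ ≤ c / C * ‖a‖ * (C * ‖a‖ ^ (p - 1)) := by
              apply mul_le_mul_of_nonneg_left hb (by positivity)
          _ = c * ‖a‖ ^ p := by rw [hsplit]; field_simp
          _ ≤ ⟪a, b⟫ := hab
      have e9 : (c / C) * (|τ| * ‖a‖) ≤ |t| + s := by
        calc (c / C) * (|τ| * ‖a‖) = |τ| * ((c / C) * ‖a‖) := by ring
          _ ≤ |τ| * (⟪a, b⟫ / ‖b‖) := mul_le_mul_of_nonneg_left e8 (abs_nonneg _)
          _ ≤ _ := e3
      have e10 : |τ| * ‖a‖ ≤ 1 / (c / C) * (|t| + s) := by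
        rw [one_div, ← div_eq_inv_mul, le_div_iff₀ hcC, mul_comm]
        exact e9
      have e11 : 0 ≤ |t| := abs_nonneg _
      nlinarith
    rw [hin]
    have h1 : ‖h‖ ^ p ≤ (2 * (1 + 1 / (c / C))) ^ p * (|t| ^ p + s ^ p) := by
      have f1 : |t| + s ≤ 2 * max |t| s := by
        have := le_max_left |t| s
        have := le_max_right |t| s
        linarith
      have f2 : ‖h‖ ≤ 2 * (1 + 1 / (c / C)) * max |t| s := by
        calc ‖h‖ ≤ (1 + 1 / (c / C)) * (|t| + s) := hh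
          _ ≤ (1 + 1 / (c / C)) * (2 * max |t| s) :=
            mul_le_mul_of_nonneg_left f1 (by positivity)
          _ = _ := by ring
      have f3 : 0 ≤ max |t| s := le_max_of_le_right hs0
      calc ‖h‖ ^ p ≤ (2 * (1 + 1 / (c / C)) * max |t| s) ^ p :=
            Real.rpow_le_rpow (norm_nonneg _) f2 (by linarith)
        _ = (2 * (1 + 1 / (c / C))) ^ p * (max |t| s) ^ p := by
            rw [Real.mul_rpow (by positivity) f3]
        _ ≤ (2 * (1 + 1 / (c / C))) ^ p * (|t| ^ p + s ^ p) := by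
            apply mul_le_mul_of_nonneg_left _ (by positivity)
            rcases max_choice |t| s with h | h
            · rw [h]
              have := Real.rpow_nonneg hs0 p
              linarith
            · rw [h]
              have := Real.rpow_nonneg (abs_nonneg t) p
              linarith
    have h2 : min c 1 * (|t| ^ p + s ^ p) ≤ lam * |t| ^ p + s ^ p := by
      have g1 : min c 1 ≤ lam := (min_le_left _ _).trans hlam1
      have g2 : min c 1 ≤ 1 := min_le_right _ _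
      have g3 : 0 ≤ |t| ^ p := Real.rpow_nonneg (abs_nonneg _) _
      have g4 : 0 ≤ s ^ p := Real.rpow_nonneg hs0 _
      nlinarith
    calc α * ‖h‖ ^ p ≤ α * ((2 * (1 + 1 / (c / C))) ^ p * (|t| ^ p + s ^ p)) :=
          mul_le_mul_of_nonneg_left h1 hα0.le
      _ = min c 1 * (|t| ^ p + s ^ p) := by
          rw [hα]
          have : (2 * (1 + 1 / (c / C))) ^ p ≠ 0 := (Real.rpow_pos_of_pos (by positivity) _).ne'
          field_simp
      _ ≤ _ := h2
  · -- upper bound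
    refine le_trans ?_ (mul_le_mul_of_nonneg_right (le_max_right _ _)
      (Real.rpow_nonneg (norm_nonneg _) _))
    rw [opA, ← hlam, ← ht]
    have f1 : ‖lam • psi p t • ((1 / ‖b‖) • b)‖ ≤ C ^ p / c ^ (p - 1) * ‖h‖ ^ (p - 1) := by
      rw [norm_smul, norm_smul, norm_smul, norm_psi hp, Real.norm_of_nonneg hlam0.le,
        Real.norm_of_nonneg (by positivity : 0 ≤ 1 / ‖b‖)]
      have g1 : |t| ≤ ‖h‖ := by
        rw [ht, abs_div, abs_of_pos hb', div_le_iff₀ hb', mul_comm]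
        exact abs_real_inner_le_norm _ _
      have g2 : |t| ^ (p - 1) ≤ ‖h‖ ^ (p - 1) :=
        Real.rpow_le_rpow (abs_nonneg _) g1 (by linarith)
      rw [Real.norm_eq_abs]
      have g3 : 1 / ‖b‖ * ‖b‖ = 1 := by field_simp
      rw [g3, mul_one]
      exact mul_le_mul hlam2 g2 (Real.rpow_nonneg (abs_nonneg _) _)
        (hlam0.le.trans hlam2)
    have f2 : ‖psi p (perp a h)‖ ≤ ‖h‖ ^ (p - 1) := by
      rw [norm_psi hp]
      exact Real.rpow_le_rpow (norm_nonneg _) (norm_perp_le ha' h) (by linarith)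
    calc _ ≤ _ := norm_add_le _ _
      _ ≤ C ^ p / c ^ (p - 1) * ‖h‖ ^ (p - 1) + ‖h‖ ^ (p - 1) := add_le_add f1 f2
      _ = _ := by ring

end Op

end Pool.Agent.LebSup
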