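import Mathlib
import Pool.Agent.LebSup.Fields

set_option autoImplicit false

open MeasureTheory Filter Topology Set
open scoped ContDiff RealInnerProductSpace

namespace Pool.Agent.LebSup

theorem qq_le_norm_sq (x : E 5) : qq x ≤ ‖x‖ ^ 2 := by rw [norm_sq]; nlinarith [sq_nonneg (x 4)]

/-- Uniform bounds of `u` and its gradient. -/
theorem bounds_aux {ε : ℝ} (hε : |ε| ≤ 1) {x : E 5} (hx : ‖x‖ ≤ 1) {σ : ℝ} (hσ : 0 < σ)
    (hσq : σ ^ 10 = qq x) : |uu ε x| ≤ 5 / σ ^ 9 ∧ ‖vv ε x‖ ≤ 29 / σ ^ 9 := by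
  have hζ0 := zt_nonneg ε x
  obtain ⟨ζ, hζ⟩ : ∃ ζ, ζ = zt ε x := ⟨_, rfl⟩
  obtain ⟨D, hD⟩ : ∃ D, D = dd ε x := ⟨_, rfl⟩
  have hq : 0 < qq x := by rw [← hσq]; positivity
  have hDpos : 0 < D := by rw [hD]; exact dd_pos_of_qq hq
  have hDe : D = ζ ^ 5 + σ ^ 20 := by rw [hD, hζ, dd, ← hσq]; ring
  rw [← hζ] at hζ0
  have hσ1 : σ ≤ 1 := by
    have h1 : qq x ≤ 1 := (qq_le_norm_sq x).trans (by nlinarith [norm_nonneg x])
    rw [← hσq] at h1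
    by_contra h
    push Not at h
    have : 1 < σ ^ 10 := one_lt_pow₀ h (by norm_num)
    linarith
  have h9 : 1 ≤ 1 / σ ^ 9 := by
    rw [le_div_iff₀ (by positivity), one_mul]
    exact pow_le_one₀ hσ.le hσ1
  have p1 : ζ ^ 3 * σ ^ 8 ≤ D := by rw [hDe]; exact poly1 hζ0 hσ.le
  have p2 : ζ ^ 13 * σ ^ 8 ≤ D ^ 3 := by rw [hDe]; exact poly2 hζ0 hσ.le
  have p3 : ζ ^ 9 * σ ^ 4 ≤ D ^ 2 := by rw [hDe]; exact poly3 hζ0 hσ.le
  have p4 : ζ ^ 8 * σ ^ 20 ≤ ζ ^ 9 * σ ^ 15 + D ^ 3 := by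
    have := poly4 hζ0 (by positivity : 0 ≤ σ ^ 5)
    rw [hDe]
    calc ζ ^ 8 * σ ^ 20 = ζ ^ 8 * (σ ^ 5) ^ 4 := by ring
      _ ≤ _ := this
      _ = _ := by ring
  have hnn0 : 0 < nn ε x := by
    have h1 : 0 < ‖x‖ := by
      rw [norm_pos_iff]; rintro rfl
      simp [qq] at hq
    exact lt_of_lt_of_le h1 (norm_le_nn ε x)
  have hnn : nn ε x ≤ 2 := by
    rw [nn, Real.sqrt_le_left (by norm_num)]
    have : ‖x‖ ^ 2 ≤ 1 := by nlinarith [norm_nonneg x]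
    have : ε ^ 2 ≤ 1 := by rw [← sq_abs]; nlinarith [abs_nonneg ε]
    linarith
  constructor
  · have h1 : ζ ^ 9 / D ^ 2 ≤ 1 / σ ^ 4 := by
      rw [div_le_div_iff₀ (by positivity) (by positivity), one_mul]; exact p3
    have h2 : 1 / σ ^ 4 ≤ 1 / σ ^ 9 := by
      apply one_div_le_one_div_of_le (by positivity)
      exact pow_le_pow_of_le_one hσ.le hσ1 (by norm_num)
    have h3 : 0 ≤ ζ ^ 9 / D ^ 2 := by positivity
    rw [uu, ← hζ, ← hD, abs_le]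
    have h4 : 5 / σ ^ 9 = 5 * (1 / σ ^ 9) := by ring
    rw [h4]
    constructor <;> nlinarith
  · have a1 : ‖(ζ ^ 7 * x 4 * (9 * qq x ^ 2 - ζ ^ 5) / D ^ 3) • e4‖ ≤ 19 * (1 / σ ^ 9) := by
      rw [norm_smul, norm_e4, mul_one, Real.norm_eq_abs, abs_div, abs_of_pos (by positivity :
        0 < D ^ 3), div_le_iff₀ (by positivity), abs_mul, abs_mul, abs_of_nonneg (by positivity :
        0 ≤ ζ ^ 7)]
      have b1 : |x 4| ≤ ζ := by rw [hζ]; exact abs_le_zt ε x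
      have b2 : |9 * qq x ^ 2 - ζ ^ 5| ≤ 9 * σ ^ 20 + ζ ^ 5 := by
        rw [← hσq, abs_le]
        have : 0 ≤ ζ ^ 5 := by positivity
        have : 0 ≤ σ ^ 20 := by positivity
        constructor <;> nlinarith
      calc ζ ^ 7 * |x 4| * |9 * qq x ^ 2 - ζ ^ 5| ≤ ζ ^ 7 * ζ * (9 * σ ^ 20 + ζ ^ 5) := by gcongr
        _ = 9 * (ζ ^ 8 * σ ^ 20) + ζ ^ 13 := by ring
        _ ≤ 9 * (ζ ^ 9 * σ ^ 15 + D ^ 3) + ζ ^ 13 := by gcongr
        _ ≤ 9 * (1 / σ ^ 9 * D ^ 3 + D ^ 3) + 1 / σ ^ 9 * D ^ 3 := by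
            have c1 : ζ ^ 9 * σ ^ 15 ≤ 1 / σ ^ 9 * D ^ 3 := by
              rw [one_div, ← div_eq_inv_mul, le_div_iff₀ (by positivity)]
              calc ζ ^ 9 * σ ^ 15 * σ ^ 9 = (ζ ^ 3 * σ ^ 8) ^ 3 := by ring
                _ ≤ D ^ 3 := by gcongr
            have c2 : ζ ^ 13 ≤ 1 / σ ^ 9 * D ^ 3 := by
              rw [one_div, ← div_eq_inv_mul, le_div_iff₀ (by positivity)]
              calc ζ ^ 13 * σ ^ 9 = ζ ^ 13 * σ ^ 8 * σ := by ring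
                _ ≤ ζ ^ 13 * σ ^ 8 * 1 := by gcongr
                _ ≤ D ^ 3 := by rw [mul_one]; exact p2
            gcongr
        _ ≤ 19 * (1 / σ ^ 9) * D ^ 3 := by
            have : D ^ 3 ≤ 1 / σ ^ 9 * D ^ 3 := by
              have : 0 < D ^ 3 := by positivity
              nlinarith
            linarith
    have a2 : ‖(8 * ζ ^ 9 * qq x / D ^ 3) • yy x‖ ≤ 8 * (1 / σ ^ 9) := by
      have hs : Real.sqrt (qq x) = σ ^ 5 := by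
        rw [← hσq, show σ ^ 10 = (σ ^ 5) ^ 2 by ring, Real.sqrt_sq (by positivity)]
      rw [norm_smul, norm_yy, hs, Real.norm_of_nonneg (by positivity), ← hσq, div_mul_eq_mul_div,
        div_le_iff₀ (by positivity)]
      have c1 : ζ ^ 9 * σ ^ 15 ≤ 1 / σ ^ 9 * D ^ 3 := by
        rw [one_div, ← div_eq_inv_mul, le_div_iff₀ (by positivity)]
        calc ζ ^ 9 * σ ^ 15 * σ ^ 9 = (ζ ^ 3 * σ ^ 8) ^ 3 := by ring
          _ ≤ D ^ 3 := by gcongr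
      calc 8 * ζ ^ 9 * σ ^ 10 * σ ^ 5 = 8 * (ζ ^ 9 * σ ^ 15) := by ring
        _ ≤ 8 * (1 / σ ^ 9 * D ^ 3) := by gcongr
        _ = _ := by ring
    have a3 : ‖(2 / nn ε x) • x‖ ≤ 2 := by
      rw [norm_smul, Real.norm_of_nonneg (by positivity), div_mul_eq_mul_div,
        div_le_iff₀ hnn0]
      nlinarith [norm_le_nn ε x]
    rw [vv, ← hζ, ← hD]
    have h4 : 29 / σ ^ 9 = 29 * (1 / σ ^ 9) := by ring
    rw [h4]
    calc _ ≤ _ := norm_sub_le _ _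
      _ ≤ (‖(ζ ^ 7 * x 4 * (9 * qq x ^ 2 - ζ ^ 5) / D ^ 3) • e4‖ +
            ‖(8 * ζ ^ 9 * qq x / D ^ 3) • yy x‖) + ‖(2 / nn ε x) • x‖ := by
          gcongr; exact norm_sub_le _ _
      _ ≤ _ := by linarith

set_option maxHeartbeats 2000000 in
/-- Comparability of `-∇u` and the flux. -/
theorem comparable {x : E 5} (hx : x ≠ 0) (hx1 : ‖x‖ ≤ 1) :
    0 < ‖-vv 0 x‖ ∧ (1 / (27 * 29 ^ 2)) * ‖-vv 0 x‖ ^ (4 / 3 : ℝ) ≤ ⟪-vv 0 x, gg x⟫ ∧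
      ‖gg x‖ ≤ 108 * ‖-vv 0 x‖ ^ ((4 / 3 : ℝ) - 1) := by
  -- notation
  obtain ⟨ζ, hζ⟩ : ∃ ζ, ζ = zt 0 x := ⟨_, rfl⟩
  have hζ0 : 0 ≤ ζ := by rw [hζ]; exact zt_nonneg 0 x
  have hζsq : x 4 ^ 2 = ζ ^ 2 := by rw [hζ, zt_sq]; ring
  obtain ⟨η, hη⟩ : ∃ η, η = ζ ^ (1 / 3 : ℝ) := ⟨_, rfl⟩
  have hη0 : 0 ≤ η := by rw [hη]; positivity
  have hη3 : η ^ 3 = ζ := by
    rw [hη, ← Real.rpow_natCast, ← Real.rpow_mul hζ0]; norm_num
  have hη10 : ζ ^ (10 / 3 : ℝ) = η ^ 10 := by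
    rw [hη, ← Real.rpow_natCast, ← Real.rpow_mul hζ0]; norm_num
  obtain ⟨s, hs⟩ : ∃ s, s = Real.sqrt (qq x) := ⟨_, rfl⟩
  have hs0 : 0 ≤ s := by rw [hs]; positivity
  have hsq : qq x = s ^ 2 := by rw [hs, Real.sq_sqrt (qq_nonneg x)]
  obtain ⟨D, hD⟩ : ∃ D, D = dd 0 x := ⟨_, rfl⟩
  have hDpos : 0 < D := by rw [hD]; exact dd_pos_of_ne hx
  have hDe : D = ζ ^ 5 + s ^ 4 := by rw [hD, dd, ← hζ, hsq]; ring
  obtain ⟨n, hn⟩ : ∃ n, n = ‖x‖ := ⟨_, rfl⟩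
  have hn0 : 0 < n := by rw [hn]; exact norm_pos_iff.2 hx
  have hn1 : n ≤ 1 := by rw [hn]; exact hx1
  have hnsq : n ^ 2 = s ^ 2 + ζ ^ 2 := by rw [hn, norm_sq, hsq, hζsq]
  have hζn : ζ ≤ n := by nlinarith
  have hsn : s ≤ n := by nlinarith
  have hζ1 : ζ ≤ 1 := hζn.trans hn1
  have hη1 : η ≤ 1 := by
    by_contra h
    push Not at h
    have : 1 < η ^ 3 := one_lt_pow₀ h (by norm_num)
    linarith
  have hnle : n ≤ ζ + s := by nlinarith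
  obtain ⟨X, hX⟩ : ∃ X, X = ζ ^ 3 * s / D := ⟨_, rfl⟩
  obtain ⟨Z, hZ⟩ : ∃ Z, Z = η ^ 13 / D := ⟨_, rfl⟩
  have hX0 : 0 ≤ X := by rw [hX]; positivity
  have hZ0 : 0 ≤ Z := by rw [hZ]; positivity
  obtain ⟨M, hM⟩ : ∃ M, M = 1 + X + Z := ⟨_, rfl⟩
  have hM1 : 1 ≤ M := by rw [hM]; linarith
  -- the inner product
  have hinner : ⟪-vv 0 x, gg x⟫ = 8 * X ^ 4 +
      (η ^ 10 / D + 1 / n) * (ζ ^ 9 * (ζ ^ 5 - s ^ 4) / D ^ 3) +
      2 / n * (ζ ^ 3 / D * s ^ 2 + (η ^ 10 / D + 1 / n) * n ^ 2) := by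
    have i1 : ⟪e4, yy x⟫ = 0 := by rw [real_inner_comm]; exact inner_yy_e4 x
    have i2 : ⟪e4, x⟫ = x 4 := by rw [real_inner_comm]; exact inner_e4 x
    have i3 : ⟪yy x, x⟫ = s ^ 2 := by rw [inner_yy_self, hsq]
    have i4 : ⟪yy x, yy x⟫ = s ^ 2 := by rw [inner_yy_yy, hsq]
    have i5 : ⟪x, yy x⟫ = s ^ 2 := by rw [real_inner_comm]; exact i3
    have i6 : ⟪x, x⟫ = n ^ 2 := by rw [real_inner_self_eq_norm_sq, hn]
    rw [vv, gg, ← hζ, ← hD, nn_zero, ← hn, hη10, hsq]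
    simp only [inner_neg_left, inner_sub_left, inner_add_right, real_inner_smul_left,
      real_inner_smul_right, i1, i2, i3, i4, i5, i6]
    rw [hX]
    have hx4 : x 4 * x 4 = ζ ^ 2 := by rw [← hζsq]; ring
    field_simp
    linear_combination (-(ζ ^ 7 * (9 * s ^ 4 - ζ ^ 5)) * (η ^ 10 * n + D)) * hx4
  have hX4 : X ^ 4 = ζ ^ 12 * s ^ 4 / D ^ 4 := by rw [hX]; ring
  have hZ4 : Z ^ 4 = η ^ 52 / D ^ 4 := by rw [hZ]; ring
  have hlow1 : Z ^ 4 - X ^ 4 ≤ η ^ 10 / D * (ζ ^ 9 * (ζ ^ 5 - s ^ 4) / D ^ 3) := by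
    rw [hX4, hZ4, ← sub_div, ← hη3]
    have : η ^ 10 / D * ((η ^ 3) ^ 9 * ((η ^ 3) ^ 5 - s ^ 4) / D ^ 3) =
        (η ^ 52 - η ^ 37 * s ^ 4) / D ^ 4 := by field_simp
    rw [this]
    apply div_le_div_of_nonneg_right _ (by positivity)
    have h2 : η ^ 37 * s ^ 4 ≤ (η ^ 3) ^ 12 * s ^ 4 := by
      have : η ^ 37 ≤ (η ^ 3) ^ 12 := by
        rw [← pow_mul]; exact pow_le_pow_of_le_one hη0 hη1 (by norm_num)
      gcongr
    linarith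
  have hlow2 : -(2 * X ^ 4 + 1) ≤ 1 / n * (ζ ^ 9 * (ζ ^ 5 - s ^ 4) / D ^ 3) := by
    have h1 : 1 / n * (ζ ^ 9 * s ^ 4 / D ^ 3) ≤ 2 * X ^ 4 + 1 := by
      rcases le_total s ζ with h | h
      · have h2 : D ≤ 2 * ζ ^ 3 * n := by
          have e1 : ζ ^ 5 ≤ ζ ^ 3 * n := by
            calc ζ ^ 5 = ζ ^ 3 * (ζ * ζ) := by ring
              _ ≤ ζ ^ 3 * (1 * n) := by gcongr
              _ = _ := by ring
          have e2 : s ^ 4 ≤ ζ ^ 3 * n := by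
            calc s ^ 4 = s ^ 3 * s := by ring
              _ ≤ ζ ^ 3 * n := by gcongr
          rw [hDe]; linarith
        have h3 : 1 / n * (ζ ^ 9 * s ^ 4 / D ^ 3) ≤ 2 * X ^ 4 := by
          rw [hX4, one_div, ← div_eq_inv_mul, div_div, mul_div_assoc', div_le_div_iff₀
            (by positivity) (by positivity)]
          calc ζ ^ 9 * s ^ 4 * D ^ 4 = ζ ^ 9 * s ^ 4 * D ^ 3 * D := by ring
            _ ≤ ζ ^ 9 * s ^ 4 * D ^ 3 * (2 * ζ ^ 3 * n) := by gcongr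
            _ = _ := by ring
        linarith
      · have h3 : 1 / n * (ζ ^ 9 * s ^ 4 / D ^ 3) ≤ 1 := by
          rw [one_div, ← div_eq_inv_mul, div_div, div_le_one (by positivity)]
          have e1 : s ^ 4 ≤ D := by
            have : 0 ≤ ζ ^ 5 := by positivity
            rw [hDe]; linarith
          calc ζ ^ 9 * s ^ 4 = ζ ^ 8 * ζ * s ^ 4 := by ring
            _ ≤ s ^ 8 * n * s ^ 4 := by gcongr
            _ = (s ^ 4) ^ 3 * n := by ring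
            _ ≤ D ^ 3 * n := by gcongr
        have : 0 ≤ X ^ 4 := by positivity
        linarith
    have h2 : 1 / n * (ζ ^ 9 * (ζ ^ 5 - s ^ 4) / D ^ 3) =
        1 / n * (ζ ^ 14 / D ^ 3) - 1 / n * (ζ ^ 9 * s ^ 4 / D ^ 3) := by ring
    have h3 : 0 ≤ 1 / n * (ζ ^ 14 / D ^ 3) := by positivity
    rw [h2]; linarith
  have hlow3 : 2 ≤ 2 / n * (ζ ^ 3 / D * s ^ 2 + (η ^ 10 / D + 1 / n) * n ^ 2) := by
    have h1 : 2 / n * (ζ ^ 3 / D * s ^ 2 + (η ^ 10 / D + 1 / n) * n ^ 2) =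
        2 / n * (ζ ^ 3 / D * s ^ 2 + η ^ 10 / D * n ^ 2) + 2 := by field_simp; ring
    rw [h1]
    have : 0 ≤ 2 / n * (ζ ^ 3 / D * s ^ 2 + η ^ 10 / D * n ^ 2) := by positivity
    linarith
  have hdot : M ^ 4 ≤ 27 * ⟪-vv 0 x, gg x⟫ := by
    have h1 : 1 + X ^ 4 + Z ^ 4 ≤ ⟪-vv 0 x, gg x⟫ := by
      rw [hinner, add_mul]
      have : 0 ≤ X ^ 4 := by positivity
      linarith
    have h2 : M ^ 2 ≤ 3 * (1 + X ^ 2 + Z ^ 2) := by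
      rw [hM]; nlinarith [sq_nonneg (X - 1), sq_nonneg (Z - 1), sq_nonneg (X - Z)]
    have h3 : (1 + X ^ 2 + Z ^ 2) ^ 2 ≤ 3 * (1 + X ^ 4 + Z ^ 4) := by
      nlinarith [sq_nonneg (X ^ 2 - 1), sq_nonneg (Z ^ 2 - 1), sq_nonneg (X ^ 2 - Z ^ 2)]
    calc M ^ 4 = (M ^ 2) ^ 2 := by ring
      _ ≤ (3 * (1 + X ^ 2 + Z ^ 2)) ^ 2 := by gcongr
      _ = 9 * (1 + X ^ 2 + Z ^ 2) ^ 2 := by ring
      _ ≤ 9 * (3 * (1 + X ^ 4 + Z ^ 4)) := by gcongr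
      _ ≤ 27 * ⟪-vv 0 x, gg x⟫ := by linarith
  -- the norm of the gradient
  have hXM : X ≤ M := by rw [hM]; linarith
  have hZM : Z ≤ M := by rw [hM]; linarith
  have hna : ‖-vv 0 x‖ ≤ 29 * M ^ 3 := by
    have a1 : ‖(ζ ^ 7 * x 4 * (9 * qq x ^ 2 - ζ ^ 5) / D ^ 3) • e4‖ ≤ 9 * X ^ 3 + 9 + Z ^ 3 := by
      rw [norm_smul, norm_e4, mul_one, Real.norm_eq_abs, abs_div, abs_of_pos (by positivity :
        0 < D ^ 3), div_le_iff₀ (by positivity), abs_mul, abs_mul, abs_of_nonneg (by positivity :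
        0 ≤ ζ ^ 7)]
      have b1 : |x 4| ≤ ζ := by rw [hζ]; exact abs_le_zt 0 x
      have b2 : |9 * qq x ^ 2 - ζ ^ 5| ≤ 9 * s ^ 4 + ζ ^ 5 := by
        rw [hsq, abs_le]
        have : 0 ≤ ζ ^ 5 := by positivity
        have : 0 ≤ s ^ 4 := by positivity
        constructor <;> nlinarith
      have hX3 : X ^ 3 * D ^ 3 = ζ ^ 9 * s ^ 3 := by rw [hX]; field_simp
      have hZ3 : Z ^ 3 * D ^ 3 = ζ ^ 13 := by rw [hZ, ← hη3]; field_simp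
      have hp4 := poly4 hζ0 hs0
      rw [← hDe] at hp4
      calc ζ ^ 7 * |x 4| * |9 * qq x ^ 2 - ζ ^ 5| ≤ ζ ^ 7 * ζ * (9 * s ^ 4 + ζ ^ 5) := by gcongr
        _ = 9 * (ζ ^ 8 * s ^ 4) + ζ ^ 13 := by ring
        _ ≤ 9 * (ζ ^ 9 * s ^ 3 + D ^ 3) + ζ ^ 13 := by gcongr
        _ = (9 * X ^ 3 + 9 + Z ^ 3) * D ^ 3 := by rw [← hX3, ← hZ3]; ring
    have a2 : ‖(8 * ζ ^ 9 * qq x / D ^ 3) • yy x‖ = 8 * X ^ 3 := by
      rw [norm_smul, norm_yy, ← hs, hsq, Real.norm_of_nonneg (by positivity), hX]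
      field_simp
    have a3 : ‖(2 / n) • x‖ = 2 := by
      rw [norm_smul, Real.norm_of_nonneg (by positivity), ← hn]
      field_simp
    rw [norm_neg, vv, ← hζ, ← hD, nn_zero, ← hn]
    have hX3 : X ^ 3 ≤ M ^ 3 := by gcongr
    have hZ3 : Z ^ 3 ≤ M ^ 3 := by gcongr
    have h13 : 1 ≤ M ^ 3 := one_le_pow₀ hM1
    calc _ ≤ _ := norm_sub_le _ _
      _ ≤ (‖(ζ ^ 7 * x 4 * (9 * qq x ^ 2 - ζ ^ 5) / D ^ 3) • e4‖ +
            ‖(8 * ζ ^ 9 * qq x / D ^ 3) • yy x‖) + ‖(2 / n) • x‖ := by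
          gcongr; exact norm_sub_le _ _
      _ ≤ _ := by rw [a2, a3]; linarith
  have hnb : ‖gg x‖ ≤ 2 * M := by
    rw [gg, ← hζ, ← hD, ← hn, hη10]
    have b1 : ‖(ζ ^ 3 / D) • yy x‖ = X := by
      rw [norm_smul, norm_yy, ← hs, Real.norm_of_nonneg (by positivity), hX]; ring
    have b2 : ‖(η ^ 10 / D) • x‖ ≤ Z + X := by
      rw [norm_smul, Real.norm_of_nonneg (by positivity), ← hn]
      calc η ^ 10 / D * n ≤ η ^ 10 / D * (ζ + s) := by gcongr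
        _ = η ^ 13 / D + η * (η ^ 9 * s / D) := by rw [← hη3]; ring
        _ ≤ η ^ 13 / D + 1 * (η ^ 9 * s / D) := by gcongr
        _ = Z + X := by rw [hZ, hX, ← hη3]; ring
    have b3 : ‖(1 / n) • x‖ = 1 := by
      rw [norm_smul, Real.norm_of_nonneg (by positivity), ← hn]; field_simp
    calc _ ≤ _ := norm_add_le _ _
      _ ≤ (‖(ζ ^ 3 / D) • yy x‖ + ‖(η ^ 10 / D) • x‖) + ‖(1 / n) • x‖ := by
          gcongr; exact norm_add_le _ _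
      _ ≤ _ := by rw [b1, b3, hM]; linarith
  -- conclusion
  have hdotpos : 0 < ⟪-vv 0 x, gg x⟫ := by
    have : 0 < M ^ 4 := by positivity
    linarith
  have hapos : 0 < ‖-vv 0 x‖ := by
    rw [norm_pos_iff]; intro h; rw [h, inner_zero_left] at hdotpos; exact lt_irrefl _ hdotpos
  refine ⟨hapos, ?_, ?_⟩
  · have h1 : ‖-vv 0 x‖ ^ (4 / 3 : ℝ) ≤ 29 ^ 2 * M ^ 4 := by
      calc ‖-vv 0 x‖ ^ (4 / 3 : ℝ) ≤ (29 * M ^ 3) ^ (4 / 3 : ℝ) :=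
            Real.rpow_le_rpow (norm_nonneg _) hna (by norm_num)
        _ = 29 ^ (4 / 3 : ℝ) * M ^ 4 := by
            rw [Real.mul_rpow (by norm_num) (by positivity), ← Real.rpow_natCast,
              ← Real.rpow_natCast, ← Real.rpow_mul (by positivity)]
            norm_num
        _ ≤ 29 ^ (2 : ℝ) * M ^ 4 := by
            gcongr
            · norm_num
            · norm_num
        _ = _ := by norm_num
    rw [one_div, ← div_eq_inv_mul, div_le_iff₀ (by norm_num)]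
    calc ‖-vv 0 x‖ ^ (4 / 3 : ℝ) ≤ 29 ^ 2 * M ^ 4 := h1
      _ ≤ 29 ^ 2 * (27 * ⟪-vv 0 x, gg x⟫) := by gcongr
      _ = _ := by ring
  · have hcs : ⟪-vv 0 x, gg x⟫ ≤ ‖-vv 0 x‖ * ‖gg x‖ := real_inner_le_norm _ _
    have h1 : M ^ 3 ≤ 54 * ‖-vv 0 x‖ := by
      have hMp : 0 < M := by linarith
      have : M ^ 3 * M ≤ 54 * ‖-vv 0 x‖ * M := by
        calc M ^ 3 * M = M ^ 4 := by ring
          _ ≤ 27 * ⟪-vv 0 x, gg x⟫ := hdot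
          _ ≤ 27 * (‖-vv 0 x‖ * (2 * M)) := by
              have := mul_le_mul_of_nonneg_left hnb hapos.le
              linarith
          _ = _ := by ring
      exact le_of_mul_le_mul_right this hMp
    have h2 : M ≤ 54 * ‖-vv 0 x‖ ^ (1 / 3 : ℝ) := by
      have h3 : M = (M ^ 3) ^ (1 / 3 : ℝ) := by
        rw [← Real.rpow_natCast, ← Real.rpow_mul (by linarith)]; norm_num
      rw [h3]
      calc (M ^ 3) ^ (1 / 3 : ℝ) ≤ (54 * ‖-vv 0 x‖) ^ (1 / 3 : ℝ) :=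
            Real.rpow_le_rpow (by positivity) h1 (by norm_num)
        _ = 54 ^ (1 / 3 : ℝ) * ‖-vv 0 x‖ ^ (1 / 3 : ℝ) := by
            rw [Real.mul_rpow (by norm_num) (norm_nonneg _)]
        _ ≤ 54 ^ (1 : ℝ) * ‖-vv 0 x‖ ^ (1 / 3 : ℝ) := by
            gcongr
            · norm_num
            · norm_num
        _ = _ := by norm_num
    have h4 : (4 / 3 : ℝ) - 1 = 1 / 3 := by norm_num
    rw [h4]
    calc ‖gg x‖ ≤ 2 * M := hnb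
      _ ≤ 2 * (54 * ‖-vv 0 x‖ ^ (1 / 3 : ℝ)) := by gcongr
      _ = _ := by ring

end Pool.Agent.LebSup
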