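import Mathlib
import Pool.Agent.LebSup.Flux
import Pool.Agent.LebSup.Pointwise
import Pool.Agent.LebSup.Closable

set_option autoImplicit false

open MeasureTheory Filter Topology Set Module
open scoped ContDiff RealInnerProductSpace

namespace Pool.Agent.LebSup

theorem contDiff_coord (i : Fin 5) : ContDiff ℝ ∞ (fun x : E 5 => x i) := by fun_prop

theorem contDiff_zt {ε : ℝ} (hε : 0 < ε) : ContDiff ℝ ∞ (zt ε) := by
  unfold zt
  exact (((contDiff_coord 4).pow 2).add contDiff_const).sqrt (fun x => by positivity)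

theorem contDiff_qq : ContDiff ℝ ∞ qq := by
  unfold qq
  exact (((((contDiff_coord 0).pow 2).add ((contDiff_coord 1).pow 2)).add
    ((contDiff_coord 2).pow 2)).add ((contDiff_coord 3).pow 2))

theorem contDiff_nn {ε : ℝ} (hε : 0 < ε) : ContDiff ℝ ∞ (nn ε) := by
  unfold nn
  exact ((contDiff_norm_sq ℝ).add contDiff_const).sqrt (fun x => by positivity)

theorem contDiff_uu {ε : ℝ} (hε : 0 < ε) : ContDiff ℝ ∞ (uu ε) := by
  unfold uu
  refine ContDiff.sub (ContDiff.div ((contDiff_zt hε).pow 9) ?_ ?_) ?_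
  · unfold dd
    exact (((contDiff_zt hε).pow 5).add (contDiff_qq.pow 2)).pow 2
  · intro x; exact pow_ne_zero _ (dd_pos_of_eps hε x).ne'
  · exact contDiff_const.mul (contDiff_nn hε)

theorem gradient_uu {ε : ℝ} (hε : 0 < ε) (x : E 5) : gradient (uu ε) x = vv ε x := by
  have hz0 : 0 < zt ε x := Real.sqrt_pos.2 (by positivity)
  have hn0 : 0 < nn ε x := Real.sqrt_pos.2 (by positivity)
  have hd0 := dd_pos_of_eps hε x
  have h4 : HasFDerivAt (fun x : E 5 => x 4) (innerSL ℝ e4) x := by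
    have h := (innerSL ℝ e4 : E 5 →L[ℝ] ℝ).hasFDerivAt (x := x)
    refine h.congr_of_eventuallyEq (Eventually.of_forall fun y => ?_)
    simp only [innerSL_apply_apply]
    rw [real_inner_comm, inner_e4]
  have hz : HasFDerivAt (zt ε) ((x 4 / zt ε x) • innerSL ℝ e4) x := by
    have h1 := ((h4.pow 2).add_const (ε ^ 2)).sqrt (by positivity)
    refine h1.congr_fderiv ?_
    ext y
    simp only [zt]
    simp
    field_simp
  have hnsq : HasFDerivAt (fun x : E 5 => ‖x‖ ^ 2) (2 • innerSL ℝ x) x := by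
    have := (hasFDerivAt_id x).norm_sq
    simpa using this
  have hq : HasFDerivAt qq ((2 : ℝ) • innerSL ℝ (yy x)) x := by
    have h1 : HasFDerivAt (fun x : E 5 => ‖x‖ ^ 2 - x 4 ^ 2) _ x := hnsq.sub (h4.pow 2)
    have h2 : qq = fun x : E 5 => ‖x‖ ^ 2 - x 4 ^ 2 := by
      funext y; rw [norm_sq]; ring
    rw [h2]
    refine h1.congr_fderiv ?_
    ext y
    simp [yy]
    ring
  have hn : HasFDerivAt (nn ε) ((1 / nn ε x) • innerSL ℝ x) x := by
    have h1 := (hnsq.add_const (ε ^ 2)).sqrt (by positivity)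
    refine h1.congr_fderiv ?_
    ext y
    simp only [nn]
    simp
    field_simp
  have hd : HasFDerivAt (dd ε) ((5 * zt ε x ^ 4) • ((x 4 / zt ε x) • innerSL ℝ e4) +
      (2 * qq x) • ((2 : ℝ) • innerSL ℝ (yy x))) x := by
    have h1 := (hz.pow 5).add (hq.pow 2)
    refine h1.congr_fderiv ?_
    ext y
    simp
  have hinv : HasFDerivAt (fun x => (dd ε x ^ 2)⁻¹) ((-(dd ε x ^ 2) ^ 2)⁻¹ •
      ((2 * dd ε x) • ((5 * zt ε x ^ 4) • ((x 4 / zt ε x) • innerSL ℝ e4) +
      (2 * qq x) • ((2 : ℝ) • innerSL ℝ (yy x))))) x := by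
    have h1 := (hasDerivAt_inv (pow_ne_zero 2 hd0.ne')).comp_hasFDerivAt x (hd.pow 2)
    refine h1.congr_fderiv ?_
    ext y
    simp
  have hmain := ((hz.pow 9).mul hinv).sub (hn.const_mul 2)
  have h5 : HasFDerivAt (uu ε) (innerSL ℝ (vv ε x)) x := by
    have h6 : uu ε = fun x => zt ε x ^ 9 * (dd ε x ^ 2)⁻¹ - 2 * nn ε x := by
      funext y; rw [uu, div_eq_mul_inv]
    rw [h6]
    refine hmain.congr_fderiv ?_
    ext y
    simp [vv]
    have hdd : dd ε x = zt ε x ^ 5 + qq x ^ 2 := rfl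
    field_simp
    rw [hdd]
    ring
  have h6 : HasGradientAt (uu ε) (vv ε x) x := by
    rw [hasGradientAt_iff_hasFDerivAt]
    exact h5
  exact h6.gradient

end Pool.Agent.LebSup
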