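import Mathlib
import Pool.Agent.LebSup.Smooth

set_option autoImplicit false

open MeasureTheory Filter Topology Set Module
open scoped ContDiff RealInnerProductSpace ENNReal

namespace Pool.Agent.LebSup

/-- the `L^{4/3}` majorant -/
noncomputable def maj (x : E 5) : ℝ := 29 * qq x ^ (-(9 / 10) : ℝ)

theorem maj_nonneg (x : E 5) : 0 ≤ maj x := by
  have := qq_nonneg x
  unfold maj; positivity

theorem measurable_maj : Measurable maj :=
  measurable_const.mul (continuous_qq.measurable.pow_const _)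

theorem le_maj {ε : ℝ} (hε : |ε| ≤ 1) {x : E 5} (hx : ‖x‖ ≤ 1) (hq : 0 < qq x) :
    |uu ε x| ≤ maj x ∧ ‖vv ε x‖ ≤ maj x := by
  obtain ⟨σ, hσ⟩ : ∃ σ, σ = qq x ^ (1 / 10 : ℝ) := ⟨_, rfl⟩
  have hσ0 : 0 < σ := by rw [hσ]; positivity
  have hσ10 : σ ^ 10 = qq x := by
    rw [hσ, ← Real.rpow_natCast, ← Real.rpow_mul hq.le]; norm_num
  have hσ9 : maj x = 29 / σ ^ 9 := by
    have e1 : 29 / σ ^ 9 = 29 * (σ ^ 9)⁻¹ := div_eq_mul_inv _ _
    rw [maj, e1, hσ, ← Real.rpow_natCast, ← Real.rpow_mul hq.le, ← Real.rpow_neg hq.le]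
    norm_num
  obtain ⟨h1, h2⟩ := bounds_aux hε hx hσ0 hσ10
  rw [hσ9]
  refine ⟨h1.trans ?_, h2⟩
  have : 0 < σ ^ 9 := by positivity
  apply div_le_div_of_nonneg_right (by norm_num) this.le

theorem integrable_maj {C : ℝ} (hC : 0 ≤ C) :
    IntegrableOn (fun x => (C * maj x) ^ (4 / 3 : ℝ)) (Metric.ball (0 : E 5) 1) := by
  refine integrableOn_of_qq (C := (C * 29) ^ (4 / 3 : ℝ)) (β := 6 / 5) (by norm_num) (by norm_num)
    ?_ (by positivity) fun x _ hq => ?_
  · exact ((measurable_const.mul measurable_maj).pow_const _).aestronglyMeasurable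
  · rw [Real.norm_of_nonneg (Real.rpow_nonneg (mul_nonneg hC (maj_nonneg x)) _), maj, ← mul_assoc,
      Real.mul_rpow (by positivity) (by positivity), ← Real.rpow_mul hq.le]
    norm_num

theorem tendsto_zt (x : E 5) : Tendsto (fun ε => zt ε x) (𝓝 0) (𝓝 (zt 0 x)) := by
  have : Continuous (fun ε : ℝ => zt ε x) := by unfold zt; fun_prop
  exact this.tendsto 0

theorem tendsto_nn (x : E 5) : Tendsto (fun ε => nn ε x) (𝓝 0) (𝓝 (nn 0 x)) := by
  have : Continuous (fun ε : ℝ => nn ε x) := by unfold nn; fun_prop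
  exact this.tendsto 0

theorem tendsto_dd (x : E 5) : Tendsto (fun ε => dd ε x) (𝓝 0) (𝓝 (dd 0 x)) :=
  ((tendsto_zt x).pow 5).add_const _

theorem tendsto_uu {x : E 5} (hx : x ≠ 0) : Tendsto (fun ε => uu ε x) (𝓝 0) (𝓝 (uu 0 x)) := by
  unfold uu
  have h := (dd_pos_of_ne hx).ne'
  exact (((tendsto_zt x).pow 9).div ((tendsto_dd x).pow 2) (pow_ne_zero _ h)).sub
    ((tendsto_nn x).const_mul 2)

theorem tendsto_vv {x : E 5} (hx : x ≠ 0) : Tendsto (fun ε => vv ε x) (𝓝 0) (𝓝 (vv 0 x)) := by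
  unfold vv
  have h := (dd_pos_of_ne hx).ne'
  have hn : nn 0 x ≠ 0 := by rw [nn_zero]; exact norm_ne_zero_iff.2 hx
  refine ((Tendsto.smul_const (Tendsto.div (((((tendsto_zt x).pow 7).mul_const _)).mul
    (((tendsto_zt x).pow 5).const_sub _)) ((tendsto_dd x).pow 3) (pow_ne_zero _ h)) _).sub
    (Tendsto.smul_const (Tendsto.div ((((tendsto_zt x).pow 9).const_mul 8).mul_const _)
      ((tendsto_dd x).pow 3) (pow_ne_zero _ h)) _)).sub
    (Tendsto.smul_const (Tendsto.div tendsto_const_nhds (tendsto_nn x) hn) _)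

theorem measurable_uu (ε : ℝ) : Measurable (uu ε) := by
  unfold uu
  have h1 := (continuous_zt ε).measurable
  have h2 := (continuous_dd ε).measurable
  have h3 : Measurable (nn ε) := by
    unfold nn
    exact ((measurable_norm.pow_const 2).add_const _).sqrt
  exact ((h1.pow_const 9).div (h2.pow_const 2)).sub (h3.const_mul 2)

theorem measurable_vv (ε : ℝ) : Measurable (vv ε) := by
  have h1 := (continuous_zt ε).measurable
  have h2 := (continuous_dd ε).measurable
  have h3 : Measurable (nn ε) := by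
    unfold nn
    exact ((measurable_norm.pow_const 2).add_const _).sqrt
  have h4 := continuous_qq.measurable
  have h5 := (continuous_coord 4).measurable
  have h6 := continuous_yy.measurable
  have hA : Measurable (fun x : E 5 =>
      zt ε x ^ 7 * x 4 * (9 * qq x ^ 2 - zt ε x ^ 5) / dd ε x ^ 3) :=
    (((h1.pow_const 7).mul h5).mul (((h4.pow_const 2).const_mul 9).sub
      (h1.pow_const 5))).div (h2.pow_const 3)
  have hB : Measurable (fun x : E 5 => 8 * zt ε x ^ 9 * qq x / dd ε x ^ 3) :=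
    ((((h1.pow_const 9).const_mul 8)).mul h4).div (h2.pow_const 3)
  have hC : Measurable (fun x : E 5 => 2 / nn ε x) := measurable_const.div h3
  have hv : vv ε = fun x => (zt ε x ^ 7 * x 4 * (9 * qq x ^ 2 - zt ε x ^ 5) / dd ε x ^ 3) • e4
    - (8 * zt ε x ^ 9 * qq x / dd ε x ^ 3) • yy x - (2 / nn ε x) • x := rfl
  rw [hv]
  exact ((hA.smul_const e4).sub (hB.smul h6)).sub (hC.smul measurable_id)

theorem measurable_gg : Measurable gg := by
  have h6 := continuous_yy.measurable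
  have : gg = fun x => W1 x • yy x + W2 x • x + W3 x • x := rfl
  rw [this]
  exact ((measurable_W1.smul h6).add (measurable_W2.smul measurable_id)).add
    (measurable_W3.smul measurable_id)

theorem memLp_of_maj {F : Type*} [NormedAddCommGroup F] {f : E 5 → F}
    (hf : AEStronglyMeasurable f (volume.restrict (Metric.ball (0 : E 5) 1)))
    (h : ∀ x : E 5, ‖x‖ ≤ 1 → 0 < qq x → ‖f x‖ ≤ maj x) :
    MemLp f (ENNReal.ofReal (4 / 3)) (volume.restrict (Metric.ball (0 : E 5) 1)) := by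
  have h0 : ENNReal.ofReal (4 / 3) ≠ 0 := by simp
  have h1 : MemLp maj (ENNReal.ofReal (4 / 3)) (volume.restrict (Metric.ball (0 : E 5) 1)) := by
    rw [← integrable_norm_rpow_iff measurable_maj.aestronglyMeasurable h0 ENNReal.ofReal_ne_top]
    have := integrable_maj zero_le_one
    refine this.congr (Eventually.of_forall fun x => ?_)
    simp only [one_mul]
    rw [Real.norm_of_nonneg (maj_nonneg x), ENNReal.toReal_ofReal (by norm_num)]
  refine h1.mono hf ?_
  filter_upwards [ae_restrict_mem measurableSet_ball, ae_restrict_of_ae ae_qq_pos] with x hx hq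
  rw [Real.norm_of_nonneg (maj_nonneg x)]
  have hx1 : ‖x‖ < 1 := by simpa using hx
  exact h x hx1.le hq

/-- Convergence in `L^{4/3}` by domination. -/
theorem tendsto_Lp {F : Type*} [NormedAddCommGroup F] {D : Set (E 5)}
    (hD : MeasurableSet D) (hD1 : D ⊆ Metric.ball (0 : E 5) 1) {f : ℕ → E 5 → F} {g : E 5 → F}
    (hf : ∀ i, AEMeasurable (fun x => ‖f i x - g x‖ₑ) (volume.restrict D))
    (hfb : ∀ i (x : E 5), ‖x‖ ≤ 1 → 0 < qq x → ‖f i x‖ ≤ maj x)
    (hgb : ∀ x : E 5, ‖x‖ ≤ 1 → 0 < qq x → ‖g x‖ ≤ maj x)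
    (hlim : ∀ x : E 5, x ≠ 0 → Tendsto (fun i => f i x) atTop (𝓝 (g x))) :
    Tendsto (fun i => ∫⁻ x in D, ‖f i x - g x‖ₑ ^ (4 / 3 : ℝ)) atTop (𝓝 0) := by
  have h0 : (0 : ℝ≥0∞) = ∫⁻ x in D, 0 := by simp
  rw [h0]
  have hae : ∀ᵐ x ∂(volume.restrict D), ‖x‖ ≤ 1 ∧ 0 < qq x := by
    filter_upwards [ae_restrict_mem hD, ae_restrict_of_ae ae_qq_pos] with x hx hq
    have : ‖x‖ < 1 := by simpa using hD1 hx
    exact ⟨this.le, hq⟩
  refine tendsto_lintegral_of_dominated_convergence'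
    (fun x => ENNReal.ofReal ((2 * maj x) ^ (4 / 3 : ℝ))) (fun i => (hf i).pow_const _) ?_ ?_ ?_
  · intro i
    filter_upwards [hae] with x hx
    rw [← ofReal_norm, ENNReal.ofReal_rpow_of_nonneg (norm_nonneg _) (by norm_num)]
    apply ENNReal.ofReal_le_ofReal
    apply Real.rpow_le_rpow (norm_nonneg _) _ (by norm_num)
    calc ‖f i x - g x‖ ≤ ‖f i x‖ + ‖g x‖ := norm_sub_le _ _
      _ ≤ maj x + maj x := add_le_add (hfb i x hx.1 hx.2) (hgb x hx.1 hx.2)
      _ = _ := by ring
  · exact ((integrable_maj zero_le_two).mono_set hD1).lintegral_lt_top.ne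
  · filter_upwards [hae] with x hx
    have hx0 : x ≠ 0 := by
      rintro rfl
      have := hx.2
      simp [qq] at this
    have h1 : Tendsto (fun i => ‖f i x - g x‖ₑ) atTop (𝓝 0) := by
      have h2 := (hlim x hx0).sub_const (g x)
      rw [sub_self] at h2
      simpa using h2.enorm
    have h3 : Tendsto (fun y : ℝ≥0∞ => y ^ (4 / 3 : ℝ)) (𝓝 0) (𝓝 (0 ^ (4 / 3 : ℝ))) :=
      ENNReal.continuous_rpow_const.tendsto 0
    rw [ENNReal.zero_rpow_of_pos (by norm_num)] at h3
    exact h3.comp h1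

theorem isSobolev_uu {D : Set (E 5)} (hD : IsOpen D) (hD1 : D ⊆ Metric.ball (0 : E 5) 1) :
    IsSobolev (fun _ => 1) (4 / 3) D (uu 0) (vv 0) := by
  have hm : volume.restrict D ≤ volume.restrict (Metric.ball (0 : E 5) 1) :=
    Measure.restrict_mono_set _ hD1
  have habs : |(0 : ℝ)| ≤ 1 := by norm_num
  unfold IsSobolev
  rw [wmeas_one]
  refine ⟨?_, ?_, fun i => uu (1 / ((i : ℝ) + 1)), ?_, ?_, ?_⟩
  · exact (memLp_of_maj (measurable_uu 0).aestronglyMeasurable
      (fun x hx hq => (le_maj habs hx hq).1)).mono_measure hm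
  · exact (memLp_of_maj (measurable_vv 0).aestronglyMeasurable
      (fun x hx hq => (le_maj habs hx hq).2)).mono_measure hm
  · exact fun i => (contDiff_uu (by positivity)).contDiffOn
  · have hi : ∀ i : ℕ, |1 / ((i : ℝ) + 1)| ≤ 1 := fun i => by
      rw [abs_of_pos (by positivity), div_le_one (by positivity)]
      have : (0 : ℝ) ≤ i := Nat.cast_nonneg i
      linarith
    refine tendsto_Lp hD.measurableSet hD1 (fun i => ?_) (fun i x hx hq => (le_maj (hi i) hx hq).1)
      (fun x hx hq => (le_maj habs hx hq).1) (fun x hx => ?_)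
    · exact ((measurable_uu _).sub (measurable_uu _)).enorm.aemeasurable
    · exact (tendsto_uu hx).comp tendsto_one_div_add_atTop_nhds_zero_nat
  · have hi : ∀ i : ℕ, |1 / ((i : ℝ) + 1)| ≤ 1 := fun i => by
      rw [abs_of_pos (by positivity), div_le_one (by positivity)]
      have : (0 : ℝ) ≤ i := Nat.cast_nonneg i
      linarith
    have hgr : ∀ (i : ℕ) (x : E 5), gradient (uu (1 / ((i : ℝ) + 1))) x =
        vv (1 / ((i : ℝ) + 1)) x := fun i x => gradient_uu (by positivity) x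
    simp_rw [hgr]
    refine tendsto_Lp hD.measurableSet hD1 (fun i => ?_) (fun i x hx hq => (le_maj (hi i) hx hq).2)
      (fun x hx hq => (le_maj habs hx hq).2) (fun x hx => ?_)
    · exact ((measurable_vv _).sub (measurable_vv _)).enorm.aemeasurable
    · exact (tendsto_vv hx).comp tendsto_one_div_add_atTop_nhds_zero_nat

end Pool.Agent.LebSup
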