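import Mathlib
import Pool.Agent.LebSup.Sob
import Pool.Agent.LebSup.Operator
import Pool.Agent.LebSup.Admissible

set_option autoImplicit false

open MeasureTheory Filter Topology Set Module
open scoped ContDiff RealInnerProductSpace ENNReal

namespace Pool.Agent.LebSup

theorem measurable_psi {p : ℝ} {α : Type*} [MeasurableSpace α] {f : α → E 5} (hf : Measurable f) :
    Measurable (fun x => psi p (f x)) := by
  unfold psi
  exact (hf.norm.pow_const _).smul hf

theorem measurable_psi_real {p : ℝ} {α : Type*} [MeasurableSpace α] {f : α → ℝ}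
    (hf : Measurable f) : Measurable (fun x => psi p (f x)) := by
  unfold psi
  exact (hf.norm.pow_const _).smul hf

theorem measurable_opA {p : ℝ} {a b : E 5 → E 5} (ha : Measurable a) (hb : Measurable b)
    (h : E 5) : Measurable (fun x => opA p (a x) (b x) h) := by
  unfold opA
  have h1 : Measurable (fun x => ‖b x‖ ^ p / ⟪a x, b x⟫ ^ (p - 1)) :=
    (hb.norm.pow_const _).div ((ha.inner hb).pow_const _)
  have h2 : Measurable (fun x => ⟪b x, h⟫ / ‖b x‖) := (hb.inner_const).div hb.norm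
  have h3 : Measurable (fun x => (1 / ‖b x‖) • b x) := (measurable_const.div hb.norm).smul hb
  have h4 : Measurable (fun x => perp (a x) h) := by
    unfold perp
    exact measurable_const.sub (((ha.inner_const).div (ha.norm.pow_const _)).smul ha)
  exact (h1.smul ((measurable_psi_real h2).smul h3)).add (measurable_psi h4)

/-- The operator of the counterexample. -/
noncomputable def AA (x h : E 5) : E 5 :=
  open Classical in
  if x ≠ 0 ∧ ‖x‖ ≤ 1 then opA (4 / 3) (-vv 0 x) (gg x) h else psi (4 / 3) h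

theorem AA_good {x : E 5} (hx : x ≠ 0) (hx1 : ‖x‖ ≤ 1) (h : E 5) :
    AA x h = opA (4 / 3) (-vv 0 x) (gg x) h := by
  rw [AA, if_pos ⟨hx, hx1⟩]

theorem AA_bad {x : E 5} (hx : ¬ (x ≠ 0 ∧ ‖x‖ ≤ 1)) (h : E 5) : AA x h = psi (4 / 3) h := by
  rw [AA, if_neg hx]

theorem inner_pos_good {x : E 5} (hx : x ≠ 0) (hx1 : ‖x‖ ≤ 1) : 0 < ⟪-vv 0 x, gg x⟫ := by
  obtain ⟨h1, h2, _⟩ := comparable hx hx1
  refine lt_of_lt_of_le ?_ h2
  positivity

theorem isOperator_AA : IsOperator (n := 5) (fun _ => 1) (4 / 3) AA where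
  measurable := by
    intro h
    unfold AA
    refine Measurable.ite ?_ (measurable_opA (measurable_vv 0).neg measurable_gg h)
      measurable_const
    have h1 : MeasurableSet {x : E 5 | x ≠ 0} := (measurableSet_singleton 0).compl
    have h2 : MeasurableSet {x : E 5 | ‖x‖ ≤ 1} := measurableSet_le measurable_norm measurable_const
    exact h1.inter h2
  continuous := by
    intro x
    by_cases hx : x ≠ 0 ∧ ‖x‖ ≤ 1
    · have : AA x = opA (4 / 3) (-vv 0 x) (gg x) := funext fun h => AA_good hx.1 hx.2 h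
      rw [this]; exact continuous_opA (by norm_num) _ _
    · have : AA x = psi (4 / 3) := funext fun h => AA_bad hx h
      rw [this]; exact continuous_psi (by norm_num)
  bounds := by
    obtain ⟨α, β, hα, hαβ, hb⟩ := opA_bounds (F := E 5) (p := 4 / 3) (by norm_num)
      (c := 1 / (27 * 29 ^ 2)) (C := 108) (by norm_num) (by norm_num)
    refine ⟨min α 1, max β 1, lt_min hα one_pos, ?_, Eventually.of_forall fun x h => ?_⟩
    · exact (min_le_right _ _).trans (le_max_right _ _)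
    have e1 : 0 ≤ ‖h‖ ^ (4 / 3 : ℝ) := by positivity
    have e2 : 0 ≤ ‖h‖ ^ ((4 / 3 : ℝ) - 1) := by positivity
    simp only [mul_one]
    by_cases hx : x ≠ 0 ∧ ‖x‖ ≤ 1
    · rw [AA_good hx.1 hx.2]
      obtain ⟨c1, c2, c3⟩ := comparable hx.1 hx.2
      obtain ⟨h1, h2⟩ := hb _ _ c1 c2 c3 h
      exact ⟨(mul_le_mul_of_nonneg_right (min_le_left _ _) e1).trans h1,
        h2.trans (mul_le_mul_of_nonneg_right (le_max_left _ _) e2)⟩
    · rw [AA_bad hx, inner_psi_self (by norm_num), norm_psi (by norm_num)]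
      constructor
      · calc min α 1 * ‖h‖ ^ (4 / 3 : ℝ) ≤ 1 * ‖h‖ ^ (4 / 3 : ℝ) :=
            mul_le_mul_of_nonneg_right (min_le_right _ _) e1
          _ = _ := one_mul _
      · calc ‖h‖ ^ ((4 / 3 : ℝ) - 1) = 1 * ‖h‖ ^ ((4 / 3 : ℝ) - 1) := (one_mul _).symm
          _ ≤ _ := mul_le_mul_of_nonneg_right (le_max_right _ _) e2
  strictMono := by
    refine Eventually.of_forall fun x h k hne => ?_
    by_cases hx : x ≠ 0 ∧ ‖x‖ ≤ 1
    · rw [AA_good hx.1 hx.2, AA_good hx.1 hx.2]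
      exact opA_strictMono (by norm_num) (inner_pos_good hx.1 hx.2) hne
    · rw [AA_bad hx, AA_bad hx]
      exact psi_strictMono (by norm_num) hne
  homogeneous := by
    refine Eventually.of_forall fun x h t => ?_
    by_cases hx : x ≠ 0 ∧ ‖x‖ ≤ 1
    · rw [AA_good hx.1 hx.2, AA_good hx.1 hx.2, opA_smul]
    · rw [AA_bad hx, AA_bad hx, psi_smul]

theorem AA_vv {x : E 5} (hx : x ≠ 0) (hx1 : ‖x‖ ≤ 1) : AA x (vv 0 x) = - gg x := by
  rw [AA_good hx hx1]
  have := opA_apply_neg (p := 4 / 3) (by norm_num) (inner_pos_good hx hx1)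
  rwa [neg_neg] at this

theorem isSupersolution_uu :
    IsSupersolution (n := 5) (fun _ => 1) (4 / 3) AA (Metric.ball 0 1) (uu 0) := by
  refine ⟨vv 0, ?_, ?_⟩
  · intro D hD _ hD2
    exact isSobolev_uu hD (subset_closure.trans hD2)
  · intro φ hφ hφ0
    obtain ⟨h1, h2, h3⟩ := hφ
    obtain ⟨hi, hle⟩ := flux_weak φ h1 h2 hφ0
    have hae : ∀ᵐ x ∂(volume.restrict (Metric.ball (0 : E 5) 1)),
        ⟪AA x (vv 0 x), gradient φ x⟫ = - ⟪gg x, gradient φ x⟫ := by
      filter_upwards [ae_restrict_mem measurableSet_ball, ae_restrict_of_ae ae_qq_pos] with x hx hq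
      have hx0 : x ≠ 0 := by rintro rfl; simp [qq] at hq
      have hx1 : ‖x‖ < 1 := by simpa using hx
      rw [AA_vv hx0 hx1.le, inner_neg_left]
    constructor
    · exact (hi.neg.integrableOn (s := Metric.ball (0 : E 5) 1)).congr
        (hae.mono fun x hx => hx.symm)
    · rw [integral_congr_ae hae, integral_neg]
      have h4 : ∫ x in Metric.ball (0 : E 5) 1, ⟪gg x, gradient φ x⟫ =
          ∫ x, ⟪gg x, gradient φ x⟫ := by
        apply setIntegral_eq_integral_of_forall_compl_eq_zero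
        intro x hx
        have h5 : fderiv ℝ φ x = 0 := by
          by_contra hne
          exact hx (h3 (support_fderiv_subset ℝ hne))
        have h6 : gradient φ x = 0 := by rw [gradient, h5, map_zero]
        rw [h6, inner_zero_right]
      rw [h4]; linarith

theorem uu_zero_eq (x : E 5) : uu 0 x = zt 0 x ^ 9 / dd 0 x ^ 2 - 2 * ‖x‖ := by
  rw [uu, nn_zero]

theorem essLowerLim_le : essLowerLim (n := 5) (fun _ => 1) (uu 0) 0 ≤ 0 := by
  rw [essLowerLim, wmeas_one]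
  refine iSup_le fun r => ?_
  obtain ⟨r, hr⟩ := r
  have hr0 : 0 < r := hr
  by_contra hlt
  push Not at hlt
  have h1 := ae_lt_of_lt_essInf hlt
  obtain ⟨x0, hx0⟩ : ∃ x0 : E 5, x0 = EuclideanSpace.single 0 (r / 2) := ⟨_, rfl⟩
  have hn : ‖x0‖ = r / 2 := by rw [hx0]; simp [abs_of_pos hr0]
  have hne : x0 ≠ 0 := by rw [← norm_pos_iff, hn]; linarith
  have h4 : zt 0 x0 = 0 := by rw [zt_zero, hx0]; simp
  have hneg : uu 0 x0 < 0 := by
    rw [uu_zero_eq, h4, hn]; simp [hr0]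
  have hcont : ContinuousAt (uu 0) x0 := by
    have e : uu 0 = fun x => zt 0 x ^ 9 / dd 0 x ^ 2 - 2 * ‖x‖ := funext uu_zero_eq
    rw [e]
    exact ((((continuous_zt 0).pow 9).continuousAt).div ((continuous_dd 0).pow 2).continuousAt
      (pow_ne_zero _ (dd_pos_of_ne hne).ne')).sub (continuous_const.mul continuous_norm).continuousAt
  have hev : ∀ᶠ x in 𝓝 x0, uu 0 x < 0 := hcont.eventually_lt continuousAt_const hneg
  have hball : Metric.ball (0 : E 5) r ∈ 𝓝 x0 :=
    Metric.isOpen_ball.mem_nhds (by rw [Metric.mem_ball, dist_zero_right, hn]; linarith)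
  have hpos : 0 < volume ({x | uu 0 x < 0} ∩ Metric.ball (0 : E 5) r) :=
    Measure.measure_pos_of_mem_nhds _ (inter_mem hev hball)
  have hzero : volume ({x | uu 0 x < 0} ∩ Metric.ball (0 : E 5) r) = 0 := by
    rw [ae_restrict_iff' measurableSet_ball, ae_iff] at h1
    refine measure_mono_null ?_ h1
    intro x hx
    have hx1 : uu 0 x < 0 := hx.1
    simp only [mem_ofPred_eq, Classical.not_imp, not_lt]
    exact ⟨hx.2, by exact_mod_cast hx1.le⟩
  exact hpos.ne' hzero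

/-- the box -/
def box (τ : ℝ) : Set (E 5) :=
  (WithLp.ofLp : E 5 → (Fin 5 → ℝ)) ⁻¹' (Set.pi univ fun i : Fin 5 =>
    Ioo (if i = 4 then τ ^ 4 else -(τ ^ 5 / 2)) (if i = 4 then 2 * τ ^ 4 else τ ^ 5 / 2))

theorem measurableSet_box (τ : ℝ) : MeasurableSet (box τ) :=
  (PiLp.volume_preserving_ofLp (Fin 5)).measurable
    (MeasurableSet.univ_pi fun _ => measurableSet_Ioo)

theorem volume_box {τ : ℝ} (hτ : 0 < τ) : volume (box τ) = ENNReal.ofReal (τ ^ 24) := by
  have h1 := (PiLp.volume_preserving_ofLp (Fin 5)).measure_preimage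
    (s := Set.pi univ fun i : Fin 5 =>
      Ioo (if i = 4 then τ ^ 4 else -(τ ^ 5 / 2)) (if i = 4 then 2 * τ ^ 4 else τ ^ 5 / 2))
    (MeasurableSet.univ_pi fun _ => measurableSet_Ioo).nullMeasurableSet
  have d0 : (0 : Fin 5) ≠ 4 := by decide
  have d1 : (1 : Fin 5) ≠ 4 := by decide
  have d2 : (2 : Fin 5) ≠ 4 := by decide
  have d3 : (3 : Fin 5) ≠ 4 := by decide
  rw [box]
  refine h1.trans ?_
  rw [Real.volume_pi_Ioo, Fin.prod_univ_five]
  simp only [if_neg d0, if_neg d1, if_neg d2, if_neg d3, if_true]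
  have e1 : τ ^ 5 / 2 - -(τ ^ 5 / 2) = τ ^ 5 := by ring
  have e2 : 2 * τ ^ 4 - τ ^ 4 = τ ^ 4 := by ring
  rw [e1, e2, ← ENNReal.ofReal_mul (by positivity), ← ENNReal.ofReal_mul (by positivity),
    ← ENNReal.ofReal_mul (by positivity), ← ENNReal.ofReal_mul (by positivity)]
  congr 1; ring

theorem box_props {τ : ℝ} (hτ : 0 < τ) (hτ1 : τ ≤ 1) {x : E 5} (hx : x ∈ box τ) :
    ‖x‖ < 4 * τ ^ 4 ∧ 1 / (8 * τ ^ 4) ≤ zt 0 x ^ 9 / dd 0 x ^ 2 := by
  have h : ∀ i : Fin 5, x i ∈ Ioo (if i = 4 then τ ^ 4 else -(τ ^ 5 / 2))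
      (if i = 4 then 2 * τ ^ 4 else τ ^ 5 / 2) := fun i => hx i trivial
  have h4 := h 4
  simp only [if_true] at h4
  have hs : ∀ i : Fin 5, i ≠ 4 → x i ^ 2 ≤ (τ ^ 5 / 2) ^ 2 := by
    intro i hi
    have := h i
    simp only [if_neg hi] at this
    exact sq_le_sq' this.1.le this.2.le
  have hq : qq x ≤ τ ^ 10 := by
    have a0 := hs 0 (by decide)
    have a1 := hs 1 (by decide)
    have a2 := hs 2 (by decide)
    have a3 := hs 3 (by decide)
    unfold qq
    calc x 0 ^ 2 + x 1 ^ 2 + x 2 ^ 2 + x 3 ^ 2 ≤ (τ ^ 5 / 2) ^ 2 + (τ ^ 5 / 2) ^ 2 +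
        (τ ^ 5 / 2) ^ 2 + (τ ^ 5 / 2) ^ 2 := by gcongr
      _ = τ ^ 10 := by ring
  have hτ4 : 0 < τ ^ 4 := by positivity
  have hzpos : 0 < x 4 := lt_trans hτ4 h4.1
  have hz : zt 0 x = x 4 := by rw [zt_zero, abs_of_pos hzpos]
  constructor
  · have h1 : ‖x‖ ^ 2 < (4 * τ ^ 4) ^ 2 := by
      rw [norm_sq]
      have e1 : x 4 ^ 2 < (2 * τ ^ 4) ^ 2 := by
        apply pow_lt_pow_left₀ h4.2 hzpos.le (by norm_num)
      have e2 : τ ^ 10 ≤ τ ^ 8 := pow_le_pow_of_le_one hτ.le hτ1 (by norm_num)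
      have e3 : (2 * τ ^ 4) ^ 2 = 4 * τ ^ 8 := by ring
      have e4 : (4 * τ ^ 4) ^ 2 = 16 * τ ^ 8 := by ring
      have e5 : 0 < τ ^ 8 := by positivity
      rw [e4]; rw [e3] at e1
      linarith
    exact lt_of_pow_lt_pow_left₀ 2 (by positivity) h1
  · have hdd : dd 0 x ≤ 2 * x 4 ^ 5 := by
      rw [dd, hz]
      have e1 : qq x ^ 2 ≤ (τ ^ 10) ^ 2 := pow_le_pow_left₀ (qq_nonneg x) hq 2
      have e2 : (τ ^ 10) ^ 2 = (τ ^ 4) ^ 5 := by ring
      have e3 : (τ ^ 4) ^ 5 ≤ x 4 ^ 5 := pow_le_pow_left₀ hτ4.le h4.1.le 5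
      linarith
    have hd0 : 0 < dd 0 x := by
      apply dd_pos_of_ne
      rintro rfl
      simp at hzpos
    rw [hz, div_le_div_iff₀ (by positivity) (by positivity), one_mul]
    calc dd 0 x ^ 2 ≤ (2 * x 4 ^ 5) ^ 2 := by gcongr
      _ = x 4 ^ 9 * (4 * x 4) := by ring
      _ ≤ x 4 ^ 9 * (4 * (2 * τ ^ 4)) := by
          have := h4.2.le
          gcongr
      _ = x 4 ^ 9 * (8 * τ ^ 4) := by ring

theorem average_ge : ∃ c : ℝ, 0 < c ∧ ∀ τ : ℝ, 0 < τ → 4 * τ ^ 4 ≤ 1 →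
    c - 8 * τ ^ 4 ≤ ⨍ y in Metric.ball (0 : E 5) (4 * τ ^ 4), uu 0 y := by
  obtain ⟨V, hV⟩ : ∃ V : ℝ, V = (volume (Metric.ball (0 : E 5) 1)).toReal := ⟨_, rfl⟩
  have hVpos : 0 < V := by
    rw [hV]
    exact ENNReal.toReal_pos (Metric.measure_ball_pos _ _ one_pos).ne' measure_ball_lt_top.ne
  refine ⟨1 / (8 * 4 ^ 5 * V), by positivity, fun τ hτ hτ4 => ?_⟩
  have hτ1 : τ ≤ 1 := by
    by_contra h
    push Not at h
    have : 1 < τ ^ 4 := one_lt_pow₀ h (by norm_num)
    linarith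
  obtain ⟨r, hr⟩ : ∃ r : ℝ, r = 4 * τ ^ 4 := ⟨_, rfl⟩
  have hr0 : 0 < r := by rw [hr]; positivity
  have hr1 : r ≤ 1 := by rw [hr]; exact hτ4
  rw [← hr]
  have hvol : (volume.real (Metric.ball (0 : E 5) r)) = r ^ 5 * V := by
    rw [Measure.real, Measure.addHaar_ball _ _ hr0.le, finrank_euclideanSpace_fin,
      ENNReal.toReal_mul, ENNReal.toReal_ofReal (by positivity), hV]
  have hsub : Metric.ball (0 : E 5) r ⊆ Metric.ball (0 : E 5) 1 := Metric.ball_subset_ball hr1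
  have hint : IntegrableOn (uu 0) (Metric.ball (0 : E 5) r) := by
    have h1 : MemLp (uu 0) (ENNReal.ofReal (4 / 3))
        (volume.restrict (Metric.ball (0 : E 5) 1)) :=
      memLp_of_maj (measurable_uu 0).aestronglyMeasurable
        (fun x hx hq => (le_maj (by norm_num) hx hq).1)
    have h2 : IsFiniteMeasure (volume.restrict (Metric.ball (0 : E 5) 1)) :=
      ⟨by simpa using measure_ball_lt_top⟩
    have h3 : IntegrableOn (uu 0) (Metric.ball (0 : E 5) 1) := h1.integrable (by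
      rw [← ENNReal.ofReal_one]; exact ENNReal.ofReal_le_ofReal (by norm_num))
    exact h3.mono_set hsub
  have hconst : IntegrableOn (fun _ : E 5 => 2 * r) (Metric.ball (0 : E 5) r) :=
    integrableOn_const measure_ball_lt_top.ne
  have hsum : IntegrableOn (fun x => uu 0 x + 2 * r) (Metric.ball (0 : E 5) r) := hint.add hconst
  have hbox : box τ ⊆ Metric.ball (0 : E 5) r := by
    intro x hx
    have := (box_props hτ hτ1 hx).1
    rw [Metric.mem_ball, dist_zero_right, hr]; exact this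
  have hnn : ∀ x ∈ Metric.ball (0 : E 5) r, zt 0 x ^ 9 / dd 0 x ^ 2 ≤ uu 0 x + 2 * r := by
    intro x hx
    have : ‖x‖ < r := by simpa using hx
    rw [uu_zero_eq]; linarith
  have hge0 : ∀ x, 0 ≤ zt 0 x ^ 9 / dd 0 x ^ 2 := fun x => by
    have := zt_nonneg 0 x
    have := dd_nonneg 0 x
    positivity
  have hlow : τ ^ 20 / 8 ≤ ∫ x in Metric.ball (0 : E 5) r, (uu 0 x + 2 * r) := by
    have hvb : volume.real (box τ) = τ ^ 24 := by
      rw [Measure.real, volume_box hτ, ENNReal.toReal_ofReal (by positivity)]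
    calc τ ^ 20 / 8 = ∫ x in box τ, (1 / (8 * τ ^ 4)) := by
          rw [setIntegral_const, hvb, smul_eq_mul]; field_simp
      _ ≤ ∫ x in box τ, (uu 0 x + 2 * r) := by
          refine setIntegral_mono_on (integrableOn_const ?_) (hsum.mono_set hbox)
            (measurableSet_box τ) fun x hx => ?_
          · rw [volume_box hτ]; exact ENNReal.ofReal_ne_top
          · exact (box_props hτ hτ1 hx).2.trans (hnn x (hbox hx))
      _ ≤ ∫ x in Metric.ball (0 : E 5) r, (uu 0 x + 2 * r) := by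
          refine setIntegral_mono_set hsum ?_ hbox.eventuallyLE
          filter_upwards [ae_restrict_mem measurableSet_ball] with x hx
          exact (hge0 x).trans (hnn x hx)
  have hsplit : ∫ x in Metric.ball (0 : E 5) r, (uu 0 x + 2 * r) =
      (∫ x in Metric.ball (0 : E 5) r, uu 0 x) + r ^ 5 * V * (2 * r) := by
    rw [integral_add hint hconst, setIntegral_const, hvol, smul_eq_mul]
  rw [setAverage_eq, hvol, smul_eq_mul]
  have hI : τ ^ 20 / 8 - r ^ 5 * V * (2 * r) ≤ ∫ x in Metric.ball (0 : E 5) r, uu 0 x := by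
    linarith
  have hrV : 0 < r ^ 5 * V := by positivity
  calc 1 / (8 * 4 ^ 5 * V) - 8 * τ ^ 4 = (r ^ 5 * V)⁻¹ * (τ ^ 20 / 8 - r ^ 5 * V * (2 * r)) := by
        rw [hr]; field_simp; ring
    _ ≤ _ := by gcongr

theorem not_rep :
    ¬ HasLebesgueRepresentative (n := 5) (fun _ => 1) (Metric.ball 0 1) (uu 0) := by
  rintro ⟨v, -, -, hv⟩
  obtain ⟨h1, h2⟩ := hv 0 (Metric.mem_ball_self one_pos)
  rw [wmeas_one] at h2
  have hle : v 0 ≤ 0 := h1.trans_le essLowerLim_le
  obtain ⟨c, hc, hav⟩ := average_ge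
  have ht : Tendsto (fun τ : ℝ => 4 * τ ^ 4) (𝓝[>] 0) (𝓝[>] 0) := by
    rw [tendsto_nhdsWithin_iff]
    constructor
    · have : Continuous (fun τ : ℝ => 4 * τ ^ 4) := by fun_prop
      have h3 := this.tendsto 0
      simp only [ne_eq, OfNat.ofNat_ne_zero, not_false_eq_true, zero_pow, mul_zero] at h3
      exact h3.mono_left nhdsWithin_le_nhds
    · filter_upwards [self_mem_nhdsWithin] with τ hτ
      have : (0 : ℝ) < τ := hτ
      simp only [mem_Ioi]; positivity
  have h3 := h2.comp ht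
  have h4 : ((c / 2 : ℝ) : EReal) ≤ v 0 := by
    refine ge_of_tendsto h3 ?_
    have h5 : ∀ᶠ τ : ℝ in 𝓝[>] 0, 4 * τ ^ 4 < min 1 (c / 4) := by
      have h6 : ∀ᶠ s : ℝ in 𝓝[>] 0, s < min 1 (c / 4) :=
        (eventually_lt_nhds (by positivity)).filter_mono nhdsWithin_le_nhds
      exact ht.eventually h6
    filter_upwards [self_mem_nhdsWithin, h5] with τ hτ hτ2
    have hτ0 : (0 : ℝ) < τ := hτ
    have h7 := hav τ hτ0 ((hτ2.trans_le (min_le_left _ _)).le)
    have h8 := hτ2.trans_le (min_le_right _ _)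
    simp only [Function.comp_apply, EReal.coe_le_coe_iff]
    linarith
  have h5 : ((c / 2 : ℝ) : EReal) ≤ ((0 : ℝ) : EReal) := h4.trans hle
  rw [EReal.coe_le_coe_iff] at h5
  linarith

end Pool.Agent.LebSup
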